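import Mathlib

open MeasureTheory

namespace Pool.Agent.MP_856411_pr

open Classical in
/-- net number of jumps from `x` to `y` before time `n` along the path `ω` -/
noncomputable def cross {V : Type} (ω : ℕ → V) (n : ℕ) (x y : V) : ℤ :=
  ∑ k ∈ Finset.range n,
    ((if ω k = x ∧ ω (k + 1) = y then 1 else 0) - (if ω k = y ∧ ω (k + 1) = x then 1 else 0))

/-- polynomial reinforcement weight of a crossing number -/
noncomputable def weight (γ : ℝ) (c : ℤ) : ℝ :=
  if 0 < c then (c : ℝ) ^ γ else if c = 0 then 1 else (-(c : ℝ)) ^ (-γ)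

open Classical in
/-- probability of jumping to `x` at time `n + 1` given the history `ω 0, ..., ω n` -/
noncomputable def trans {V : Type} (G : SimpleGraph V) (γ : ℝ) (ω : ℕ → V) (n : ℕ) (x : V) : ℝ :=
  if G.Adj (ω n) x then
    weight γ (cross ω n (ω n) x) / ∑ᶠ y ∈ G.neighborSet (ω n), weight γ (cross ω n (ω n) y)
  else 0

/-- `μ` is the law on path space of the reinforced walk started at `v` -/
def IsWalkLaw {V : Type} [MeasurableSpace V] (G : SimpleGraph V) (γ : ℝ) (v : V)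
    (μ : Measure (ℕ → V)) : Prop :=
  IsProbabilityMeasure μ ∧ μ {ω | ω 0 = v} = 1 ∧ ∀ (n : ℕ) (p : ℕ → V),
    μ {ω | ∀ k ≤ n + 1, ω k = p k} =
      μ {ω | ∀ k ≤ n, ω k = p k} * ENNReal.ofReal (trans G γ p n (p (n + 1)))

/-- the path is trapped in some directed circuit -/
def Trapped {V : Type} (G : SimpleGraph V) (ω : ℕ → V) : Prop :=
  ∃ m : ℕ, 3 ≤ m ∧ ∃ u : ZMod m → V, Function.Injective u ∧ (∀ i, G.Adj (u i) (u (i + 1))) ∧
    ∃ (N : ℕ) (i : ZMod m), ∀ j : ℕ, ω (N + j) = u (i + j)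

/-- the nearest neighbour graph on the integer lattice -/
def latticeGraph (d : ℕ) : SimpleGraph (Fin d → ℤ) :=
  SimpleGraph.fromRel fun x y => ∃ i, y = x + Pi.single i 1

/-- trapping has probability zero up to and including `t` and probability one above `t` -/
def IsThreshold {V : Type} [MeasurableSpace V] (G : SimpleGraph V) (v : V) (t : ℝ) : Prop :=
  ∀ γ : ℝ, 0 < γ → (∃ μ, IsWalkLaw G γ v μ) ∧ ∀ μ, IsWalkLaw G γ v μ →
    (γ ≤ t → ∀ᵐ ω ∂μ, ¬ Trapped G ω) ∧ (t < γ → ∀ᵐ ω ∂μ, Trapped G ω)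

end Pool.Agent.MP_856411_pr
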