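import Pool.Agent.MP_856411_pr.Main

open MeasureTheory Set Filter Topology
open scoped ENNReal

namespace Pool.Agent.MP_856411_pr

variable {d : ℕ}

theorem lattice_adj {x y : Fin d → ℤ} : (latticeGraph d).Adj x y ↔
    ∃ i, ∃ s : ℤ, (s = 1 ∨ s = -1) ∧ y = x + Pi.single i s := by
  unfold latticeGraph
  rw [SimpleGraph.fromRel_adj]
  constructor
  · rintro ⟨-, ⟨i, h⟩ | ⟨i, h⟩⟩
    · exact ⟨i, 1, Or.inl rfl, h⟩
    · exact ⟨i, -1, Or.inr rfl, by rw [h, Pi.single_neg]; abel⟩
  · rintro ⟨i, s, hs, h⟩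
    refine ⟨fun he => ?_, ?_⟩
    · have := congrFun h i
      rw [← he] at this
      simp at this
      omega
    · rcases hs with rfl | rfl
      · exact Or.inl ⟨i, h⟩
      · exact Or.inr ⟨i, by rw [h, Pi.single_neg]; abel⟩

theorem lattice_ctx (hd : 2 ≤ d) : Ctx (latticeGraph d) (fun x => Finset.univ.image
    fun c : Fin d × Bool => x + Pi.single c.1 (if c.2 then 1 else -1)) (2 * d) := by
  refine ⟨fun x y => ?_, fun x => Finset.card_image_le.trans (by simp [mul_comm]), fun x => ?_⟩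
  · rw [lattice_adj]
    simp only [Finset.mem_image, Finset.mem_univ, true_and]
    constructor
    · rintro ⟨⟨i, b⟩, rfl⟩
      exact ⟨i, _, by cases b <;> simp, rfl⟩
    · rintro ⟨i, s, rfl | rfl, rfl⟩
      · exact ⟨(i, true), rfl⟩
      · exact ⟨(i, false), rfl⟩
  · haveI : Nonempty (Fin d) := ⟨⟨0, by omega⟩⟩
    exact Finset.univ_nonempty.image _

theorem lattice_preconnected : (latticeGraph d).Preconnected := by
  have h1 : ∀ (i : Fin d) (n : ℤ) (x : Fin d → ℤ),
      (latticeGraph d).Reachable x (x + Pi.single i n) := by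
    intro i n x
    induction n using Int.induction_on with
    | zero => simp
    | succ n ih =>
      refine ih.trans (SimpleGraph.Adj.reachable (lattice_adj.2 ⟨i, 1, Or.inl rfl, ?_⟩))
      rw [Pi.single_add, add_assoc]
    | pred n ih =>
      refine ih.trans (SimpleGraph.Adj.reachable (lattice_adj.2 ⟨i, -1, Or.inr rfl, ?_⟩))
      rw [add_assoc, ← Pi.single_add]; rfl
  have h2 : ∀ (z x : Fin d → ℤ) (s : Finset (Fin d)),
      (latticeGraph d).Reachable x (x + ∑ i ∈ s, Pi.single i (z i)) := by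
    intro z x s
    induction s using Finset.induction_on with
    | empty => simp
    | insert i s hi ih =>
      rw [Finset.sum_insert hi, add_comm (Pi.single i (z i) : Fin d → ℤ), ← add_assoc]
      exact ih.trans (h1 _ _ _)
  intro x y
  have := h2 (y - x) x Finset.univ
  rwa [Finset.univ_sum_single, add_sub_cancel] at this

theorem lattice_square (x : Fin d → ℤ) {i j : Fin d} (hij : i ≠ j) {s : ℤ} (hs : s = 1 ∨ s = -1) :
    ∃ u : ZMod 4 → Fin d → ℤ, Circ (latticeGraph d) 4 u ∧ u 0 = x ∧ ∀ t, s * x i ≤ s * u t i := by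
  let u : Fin 4 → Fin d → ℤ := ![x, x + Pi.single i s, x + Pi.single i s + Pi.single j 1,
    x + Pi.single j 1]
  have hs0 : s ≠ 0 := by omega
  refine ⟨u, ⟨by norm_num, ?_, ?_⟩, rfl, ?_⟩
  · intro a b hab
    have h1 := congrFun hab i
    have h2 := congrFun hab j
    fin_cases a <;> fin_cases b <;> first | rfl | (exfalso; simp [u, hij, hij.symm, hs0] at h1 h2)
  · intro a
    rw [lattice_adj]
    fin_cases a
    · exact ⟨i, s, hs, rfl⟩
    · exact ⟨j, 1, Or.inl rfl, rfl⟩
    · refine ⟨i, -s, by omega, ?_⟩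
      change x + Pi.single j 1 = x + Pi.single i s + Pi.single j 1 + Pi.single i (-s)
      rw [Pi.single_neg]; abel
    · refine ⟨j, -1, Or.inr rfl, ?_⟩
      change x = x + Pi.single j 1 + Pi.single j (-1)
      rw [Pi.single_neg]; abel
  · intro t
    fin_cases t <;> simp [u, hij, hij.symm] <;> rcases hs with rfl | rfl <;> simp

theorem lattice_fresh (hd : 2 ≤ d) : Fresh (latticeGraph d) := by
  classical
  intro ω hω M
  have h1 : ∃ i, ∃ s : ℤ, (s = 1 ∨ s = -1) ∧ ∀ B, ∃ n, B < s * ω n i := by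
    by_contra hc
    push Not at hc
    choose B1 hB1 using fun i => hc i 1 (Or.inl rfl)
    choose B2 hB2 using fun i => hc i (-1) (Or.inr rfl)
    refine hω ((finite_Icc (fun i => -B2 i) B1).subset ?_)
    rintro _ ⟨n, rfl⟩
    exact ⟨fun i => by have := hB2 i n; simp only; omega, fun i => by simpa using hB1 i n⟩
  obtain ⟨i, s, hs, hB⟩ := h1
  obtain ⟨k0, -, hk0⟩ := Finset.exists_max_image (Finset.range (M + 1)) (fun k => s * ω k i)
    ⟨0, by simp⟩
  have hex := hB (s * ω k0 i)
  obtain ⟨j, hj⟩ : ∃ j : Fin d, i ≠ j := by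
    haveI : Nontrivial (Fin d) := Fin.nontrivial_iff_two_le.2 hd
    obtain ⟨j, hj⟩ := exists_ne i
    exact ⟨j, hj.symm⟩
  obtain ⟨u, hu, hu0, hut⟩ := lattice_square (ω (Nat.find hex)) hj hs
  refine ⟨Nat.find hex, ?_, u, hu, hu0, fun t k hk he => ?_⟩
  · by_contra hlt
    exact absurd (Nat.find_spec hex) (not_lt.2 (hk0 _ (Finset.mem_range.2 (by omega))))
  · have h2 := Nat.find_min hex hk
    have h3 := Nat.find_spec hex
    have h4 := hut t
    rw [← he] at h4
    omega

theorem lattice_not_regular (hd : 2 ≤ d) :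
    ¬ ∀ x, ((latticeGraph d).neighborSet x).ncard = 2 := by
  intro h
  let i : Fin d := ⟨0, by omega⟩
  let j : Fin d := ⟨1, by omega⟩
  have hij : i ≠ j := by simp [i, j]
  have hfin : ((latticeGraph d).neighborSet 0).Finite := finite_of_ncard_ne_zero (by rw [h]; simp)
  have : 2 < ((latticeGraph d).neighborSet 0).ncard := by
    rw [two_lt_ncard hfin]
    refine ⟨0 + Pi.single i 1, lattice_adj.2 ⟨i, 1, Or.inl rfl, rfl⟩, 0 + Pi.single i (-1),
      lattice_adj.2 ⟨i, -1, Or.inr rfl, rfl⟩, 0 + Pi.single j 1,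
      lattice_adj.2 ⟨j, 1, Or.inl rfl, rfl⟩, fun he => ?_, fun he => ?_, fun he => ?_⟩
    all_goals
      have := congrFun he i
      simp [hij] at this
  rw [h] at this
  exact lt_irrefl _ this

theorem lattice_main (d : ℕ) (hd : 2 ≤ d) (v : Fin d → ℤ) : IsThreshold (latticeGraph d) v 1 := by
  have h := lattice_ctx hd
  refine fun γ hγ => ⟨h.exists_law γ v, fun μ hμ => ⟨fun hle => ?_, fun hlt => ?_⟩⟩
  · exact h.ae_not_trapped hμ fun ω hω =>
      h.not_summable_one lattice_preconnected (lattice_not_regular hd) hγ hle hω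
  · obtain ⟨u, hu, -⟩ := lattice_square (d := d) 0 (i := ⟨0, by omega⟩) (j := ⟨1, by omega⟩)
      (by simp) (Or.inl rfl)
    filter_upwards [h.ae_trapped hlt lattice_preconnected hu hμ, h.ae_finite_range hγ
      (lattice_fresh hd) (fun j => by positivity) (summable_general (2 * d) hlt)
      (h.dom_general hγ) hμ] with ω h1 h2 using h1 h2

end Pool.Agent.MP_856411_pr
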