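import Pool.Agent.MP_856411_pr.Trap

open MeasureTheory Set Filter Topology
open scoped ENNReal

namespace Pool.Agent.MP_856411_pr

variable {V : Type} {G : SimpleGraph V} {nb : V → Finset V} {D : ℕ} {γ : ℝ} {v : V}

theorem Ctx.dom_general (h : Ctx G nb D) (hγ : 0 < γ) :
    Dom G nb γ v fun j => (D : ℝ) * D ^ γ * (1 / (j : ℝ) ^ γ) := by
  classical
  intro ω n hv ⟨y0, hy0⟩
  have hD : (0 : ℝ) < D := by exact_mod_cast h.one_le v
  obtain ⟨y, hy, hmax⟩ := Finset.exists_max_image (nb (ω n)) (cross ω n (ω n)) (h.ne _)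
  have hc : 0 < cross ω n (ω n) y := hy0.trans_le (hmax y0 (h.mem_of_pos hv hy0))
  set c := cross ω n (ω n) y with hcdef
  have h1 : out nb ω n (ω n) ≤ D * c.toNat := by
    calc out nb ω n (ω n) ≤ ∑ _z ∈ nb (ω n), c.toNat :=
          Finset.sum_le_sum fun z hz => Int.toNat_le_toNat (hmax z hz)
      _ = (nb (ω n)).card * c.toNat := by simp
      _ ≤ D * c.toNat := Nat.mul_le_mul_right _ (h.card _)
  have h2 : c.toNat ≤ out nb ω n (ω n) :=
    Finset.single_le_sum (f := fun z => (cross ω n (ω n) z).toNat) (fun _ _ => Nat.zero_le _) hy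
  have h3 : (0 : ℝ) < out nb ω n (ω n) := by exact_mod_cast (by omega : 0 < out nb ω n (ω n))
  have h4 : ((c.toNat : ℕ) : ℝ) = (c : ℝ) := by
    have : ((c.toNat : ℕ) : ℤ) = c := by omega
    exact_mod_cast this
  have h5 : (out nb ω n (ω n) : ℝ) ^ γ ≤ D ^ γ * (c : ℝ) ^ γ := by
    rw [← Real.mul_rpow hD.le (by exact_mod_cast hc.le)]
    refine Real.rpow_le_rpow h3.le ?_ hγ.le
    rw [← h4]
    exact_mod_cast h1
  have h6 : (c : ℝ) ^ γ ≤ ∑ y ∈ (nb (ω n)).filter (fun y => 0 < cross ω n (ω n) y),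
      weight γ (cross ω n (ω n) y) := by
    rw [← weight_of_pos γ hc]
    exact Finset.single_le_sum (f := fun y => weight γ (cross ω n (ω n) y))
      (fun _ _ => (weight_pos _ _).le) (Finset.mem_filter.2 ⟨hy, hc⟩)
  have h7 : ∑ y ∈ (nb (ω n)).filter (fun y => ¬ 0 < cross ω n (ω n) y),
      weight γ (cross ω n (ω n) y) ≤ D := by
    calc _ ≤ ∑ _y ∈ (nb (ω n)).filter (fun y => ¬ 0 < cross ω n (ω n) y), (1 : ℝ) :=
          Finset.sum_le_sum fun z hz => weight_le_one hγ (not_lt.1 (Finset.mem_filter.1 hz).2)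
      _ ≤ D := by
          simp only [Finset.sum_const, nsmul_eq_mul, mul_one]
          exact_mod_cast (Finset.card_filter_le _ _).trans (h.card _)
  refine h7.trans (le_trans ?_ (mul_le_mul_of_nonneg_left h6 (by positivity)))
  have h8 : 0 < (out nb ω n (ω n) : ℝ) ^ γ := Real.rpow_pos_of_pos h3 _
  beta_reduce
  rw [mul_one_div, div_mul_eq_mul_div, le_div_iff₀ h8, mul_assoc]
  exact mul_le_mul_of_nonneg_left h5 hD.le

theorem Ctx.dom_cycle (h : Ctx G nb D) (h2 : ∀ x, (nb x).card = 2) (hγ : 0 < γ) :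
    Dom G nb γ v fun j => if j ≤ 1 then 1 else ((j : ℝ) - 1) ^ (-(2 * γ)) := by
  classical
  intro ω n hv ⟨y, hy⟩
  have hym := h.mem_of_pos hv hy
  obtain ⟨z, hyz, hnb⟩ : ∃ z, y ≠ z ∧ nb (ω n) = {y, z} := by
    obtain ⟨a, b, hab, he⟩ := Finset.card_eq_two.1 (h2 (ω n))
    rw [he, Finset.mem_insert, Finset.mem_singleton] at hym
    rcases hym with rfl | rfl
    · exact ⟨b, hab, he⟩
    · exact ⟨a, hab.symm, he.trans (Finset.pair_comm _ _)⟩
  have hs := h.sum_le hv (ω n)
  rw [hnb, Finset.sum_pair hyz] at hs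
  have hz : ¬ 0 < cross ω n (ω n) z := by omega
  have ho : out nb ω n (ω n) = (cross ω n (ω n) y).toNat := by
    unfold out
    rw [hnb, Finset.sum_pair hyz]
    omega
  rw [ho, hnb, Finset.sum_filter, Finset.sum_filter, Finset.sum_pair hyz, Finset.sum_pair hyz]
  simp only [hy, hz, not_true, not_false_iff, if_true, if_false, zero_add, add_zero]
  set c := cross ω n (ω n) y
  rw [weight_of_pos γ hy]
  have hc1 : (1 : ℝ) ≤ c := by exact_mod_cast hy
  split_ifs with hc
  · rw [one_mul]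
    exact (weight_le_one hγ (not_lt.1 hz)).trans (Real.one_le_rpow hc1 hγ.le)
  · have h4 : ((c.toNat : ℕ) : ℝ) = (c : ℝ) := by
      have : ((c.toNat : ℕ) : ℤ) = c := by omega
      exact_mod_cast this
    have h5 : (2 : ℝ) ≤ c := by exact_mod_cast (by omega : (2 : ℤ) ≤ c)
    have h6 : (c : ℝ) - 1 ≤ -(cross ω n (ω n) z : ℝ) := by
      have : c - 1 ≤ -cross ω n (ω n) z := by omega
      exact_mod_cast this
    rw [h4, weight_of_neg γ (by omega)]
    calc (-(cross ω n (ω n) z : ℝ)) ^ (-γ) ≤ ((c : ℝ) - 1) ^ (-γ) :=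
          Real.rpow_le_rpow_of_nonpos (by linarith) h6 (by linarith)
      _ = ((c : ℝ) - 1) ^ (-(2 * γ)) * ((c : ℝ) - 1) ^ γ := by
          rw [← Real.rpow_add (by linarith)]; congr 1; ring
      _ ≤ _ := mul_le_mul_of_nonneg_left (Real.rpow_le_rpow (by linarith) (by linarith) hγ.le)
          (Real.rpow_nonneg (by linarith) _)

theorem summable_cycle (hγ : 1 / 2 < γ) :
    Summable fun j : ℕ => if j ≤ 1 then (1 : ℝ) else ((j : ℝ) - 1) ^ (-(2 * γ)) := by
  rw [← summable_nat_add_iff 2]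
  have h1 := (summable_nat_add_iff 1).2 (Real.summable_nat_rpow.2 (by linarith : -(2 * γ) < -1))
  refine h1.congr fun j => ?_
  have : ¬ j + 2 ≤ 1 := by omega
  rw [if_neg this]
  push_cast
  congr 1
  ring

theorem exists_circ (h : ¬ G.IsAcyclic) : ∃ m u, Circ G m u := by
  simp only [SimpleGraph.IsAcyclic, not_forall, not_not] at h
  obtain ⟨x, c, hc⟩ := h
  have hm := hc.three_le_length
  haveI : NeZero c.length := ⟨by omega⟩
  refine ⟨c.length, fun i => c.getVert i.val, hm, fun i j hij => ?_, fun i => ?_⟩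
  · refine ZMod.val_injective _ (hc.getVert_injOn' ?_ ?_ hij)
    · have := ZMod.val_lt i
      simp only [mem_setOf_eq]; omega
    · have := ZMod.val_lt j
      simp only [mem_setOf_eq]; omega
  · have h1 : i + 1 = ((i.val + 1 : ℕ) : ZMod c.length) := by simp
    have h2 : c.getVert ((i.val + 1) % c.length) = c.getVert (i.val + 1) := by
      rcases Nat.lt_or_eq_of_le (Nat.succ_le_of_lt (ZMod.val_lt i)) with h | h
      · rw [Nat.mod_eq_of_lt h]
      · have h' : i.val + 1 = c.length := h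
        rw [h']; simp
    rw [h1, ZMod.val_natCast, h2]
    exact c.adj_getVert_succ (ZMod.val_lt i)

/-- a walk with infinite range meets unvisited squares infinitely often -/
def Fresh (G : SimpleGraph V) : Prop :=
  ∀ ω : ℕ → V, (range ω).Infinite → ∀ M, ∃ n ≥ M, ∃ u : ZMod 4 → V, Circ G 4 u ∧ u 0 = ω n ∧
    ∀ j, ∀ k < n, ω k ≠ u j

variable [MeasurableSpace V] [DiscreteMeasurableSpace V] [Countable V]

theorem Ctx.ae_finite_range (h : Ctx G nb D) (hγ : 0 < γ) (hF : Fresh G) {η : ℕ → ℝ}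
    (h0 : ∀ j, 0 ≤ η j) (hs : Summable η) (hη : Dom G nb γ v η) {μ : Measure (ℕ → V)}
    (hμ : IsWalkLaw G γ v μ) : ∀ᵐ ω ∂μ, (range ω).Finite := by
  classical
  have := hμ.1
  obtain ⟨δ, hδ, hδ1, hst⟩ := h.stage1 h0 hs hη
  have hD : (1 : ℝ) ≤ D := by exact_mod_cast h.one_le v
  have hρ : (0 : ℝ) < 1 / D := by positivity
  have hm : MeasurableSet {ω : ℕ → V | (range ω).Infinite} := by
    have : {ω : ℕ → V | (range ω).Infinite} = ⋂ S : Finset V, {ω | ∀ k, ω k ∈ (S : Set V)}ᶜ := by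
      ext ω
      simp only [mem_setOf_eq, mem_iInter, mem_compl_iff]
      exact ⟨fun h S hS => h (S.finite_toSet.subset (range_subset_iff.2 hS)),
        fun h hf => h hf.toFinset fun k => by simp⟩
    rw [this]
    exact MeasurableSet.iInter fun S => (measurableSet_range_sub _).compl
  have h1 : μ ({ω | ∀ k, Valid G v ω k} ∩ {ω | (range ω).Infinite}) = 0 := by
    refine null_of_density μ (measurableSet_valid.inter hm)
      (θ := ENNReal.ofReal (1 - (1 / D) ^ 4 * δ ^ 4)) (ENNReal.ofReal_lt_one.2 (by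
        have := mul_pos (pow_pos hρ 4) (pow_pos hδ 4)
        linarith)) fun p hp M => ?_
    obtain ⟨n, hn, u, hu, hu0, hfr⟩ := hF p hp.2 M
    refine ⟨n, hn, ?_⟩
    have hπ0 : (fun j : ℕ => u j) 0 = p n := by simpa using hu0
    let ω := splice p n fun j : ℕ => u j
    have hv : ∀ k, Valid G v ω k := (hp.1 n).splice hπ0 fun j => by
      push_cast
      exact hu.adj j
    have hω : ∀ j : ℕ, ω (n + j) = u j := splice_add hπ0
    have hfr' : ∀ j, ∀ k < n, ω k ≠ u j := fun j k hk => by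
      rw [show ω k = p k from splice_mem p n _ k hk.le]
      exact hfr j k hk
    have hstep : ∀ t (j : ZMod 4) y, 0 < cross ω t (u j) y →
        ∃ i : ℕ, n + i < t ∧ (i : ZMod 4) = j ∧ y = u (j + 1) := by
      intro t j y hy
      obtain ⟨k, hk, h1, h2⟩ := exists_step_of_pos hy
      have h3 : n ≤ k := not_lt.1 fun hh => hfr' j k hh h1
      obtain ⟨i, rfl⟩ := Nat.exists_eq_add_of_le h3
      rw [hω] at h1
      rw [add_assoc, hω] at h2
      refine ⟨i, hk, hu.inj h1, ?_⟩
      rw [← h2, ← hu.inj h1]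
      push_cast
      rfl
    have h1 := hμ.step.lower ω n hρ.le 4 fun i hi1 hi2 => by
      refine h.trans_ge hγ (hv i) (fun y => ?_) ((hv (i + 1)).2 i (Nat.lt_succ_self i))
      obtain ⟨j, rfl⟩ := Nat.exists_eq_add_of_le hi1
      by_contra hc
      rw [hω] at hc
      obtain ⟨i', h1, h2, -⟩ := hstep _ _ _ (not_le.1 hc)
      have h3 := congrArg ZMod.val h2
      rw [ZMod.val_natCast, ZMod.val_natCast] at h3
      omega
    rw [cyl_eq_of_mem (splice_mem p n _)] at h1
    have e0 : ω n = u 0 := by simpa using hω 0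
    have e1 : ω (n + 1) = u 1 := by simpa using hω 1
    have e4 : ω (n + 4) = u 0 := hω 4
    let S : Finset V := Finset.univ.image u
    have hSc : S.card = 4 := by
      rw [Finset.card_image_of_injective _ hu.inj]; rfl
    have hS : ∀ x ∈ S, ∀ y, 0 < cross ω (n + 4) x y → y ∈ S := fun x hx y hy => by
      obtain ⟨j, -, rfl⟩ := Finset.mem_image.1 hx
      obtain ⟨_, -, -, rfl⟩ := hstep _ _ _ hy
      exact Finset.mem_image_of_mem _ (Finset.mem_univ _)
    have hS0 : ω (n + 4) ∈ S := e4 ▸ Finset.mem_image_of_mem _ (Finset.mem_univ _)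
    have h2 := hst μ hμ S (n + 4) ω hS0 hS ⟨u 1, by
      have hb : ∀ k, ¬ (ω k = u 1 ∧ ω (k + 1) = u 0) := fun k hk => by
        have h3 : n ≤ k := not_lt.1 fun hh => hfr' 1 k hh hk.1
        obtain ⟨i, rfl⟩ := Nat.exists_eq_add_of_le h3
        rw [add_assoc, hω, hω] at hk
        push_cast at hk
        exact hu.no_back i hk
      have h3 := cross_mono (Nat.zero_le n) fun k _ _ => hb k
      have h4 := cross_mono (show n + 1 ≤ n + 4 by omega) fun k _ _ => hb k
      have h5 := cross_succ_fwd (ω := ω) (n := n) ((hv (n + 1)).2 n (Nat.lt_succ_self n)).ne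
      rw [e0, e1] at h5
      rw [cross_zero] at h3
      rw [e4]
      omega⟩
    rw [hSc] at h2
    refine sub_bound μ (measurableSet_cyl (n + 4) ω)
      ((cyl_anti (Nat.le_add_right _ _) ω).trans (cyl_eq_of_mem (splice_mem p n _)).subset)
      (pow_pos hρ _).le (pow_pos hδ _).le (pow_le_one₀ hδ.le hδ1) h1
      (le_trans (measure_mono fun z hz => mem_inter (fun hP => hz.1.2 ?_) hz.2) h2)
    refine ((finite_range fun i : Fin (n + 4) => z i).union S.finite_toSet).subset ?_
    rintro _ ⟨k, rfl⟩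
    rcases lt_or_ge k (n + 4) with hk | hk
    · exact Or.inl ⟨⟨k, hk⟩, rfl⟩
    · refine Or.inr ((hP k).mem hk ?_ ?_)
      · rw [hz.2 _ le_rfl]; exact hS0
      · rw [cross_congr hz.2]; exact hS
  filter_upwards [measure_eq_zero_iff_ae_notMem.1 h1, hμ.ae_valid] with ω h1 hv
  by_contra hc
  exact h1 ⟨hv, hc⟩

theorem summable_general (D : ℕ) (hγ : 1 < γ) :
    Summable fun j : ℕ => (D : ℝ) * D ^ γ * (1 / (j : ℝ) ^ γ) :=
  (Real.summable_one_div_nat_rpow.2 hγ).mul_left _

theorem Ctx.ae_trapped (h : Ctx G nb D) (hγ : 1 < γ) (hG : G.Preconnected) {m : ℕ}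
    {u : ZMod m → V} (hu : Circ G m u) {μ : Measure (ℕ → V)} (hμ : IsWalkLaw G γ v μ) :
    ∀ᵐ ω ∂μ, (range ω).Finite → Trapped G ω := by
  have hγ0 : 0 < γ := by linarith
  filter_upwards [h.ae_eventually_pos hγ0 hG hu (fun j => by positivity) (summable_general D hγ)
    (h.dom_general hγ0) hμ, h.ae_unique hγ hμ, hμ.ae_valid] with ω h1 h2 hv hfin
  obtain ⟨N, hN⟩ := h1 hfin
  exact trapped_of_unique (fun k => (hv (k + 1)).2 k (Nat.lt_succ_self k)) hfin hN (h2 N hN)

theorem Ctx.ae_trapped_cycle (h : Ctx G nb D) (h2 : ∀ x, (nb x).card = 2) (hγ : 1 / 2 < γ)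
    (hG : G.Preconnected) {m : ℕ} {u : ZMod m → V} (hu : Circ G m u) {μ : Measure (ℕ → V)}
    (hμ : IsWalkLaw G γ v μ) : ∀ᵐ ω ∂μ, (range ω).Finite → Trapped G ω := by
  classical
  have hγ0 : 0 < γ := by linarith
  filter_upwards [h.ae_eventually_pos hγ0 hG hu (fun j => by
      split_ifs with hj
      · exact zero_le_one
      · refine Real.rpow_nonneg ?_ _
        have : (1 : ℝ) ≤ j := by exact_mod_cast (by omega : 1 ≤ j)
        linarith) (summable_cycle hγ)
    (h.dom_cycle h2 hγ0) hμ, hμ.ae_valid] with ω h1 hv hfin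
  obtain ⟨N, hN⟩ := h1 hfin
  refine trapped_of_unique (fun k => (hv (k + 1)).2 k (Nat.lt_succ_self k)) hfin hN
    fun x y z hy hz => ?_
  by_contra hne
  have hy' := pos_of_frequently hN hy le_rfl
  have hz' := pos_of_frequently hN hz le_rfl
  have h3 : ({y, z} : Finset V) = nb x := by
    refine Finset.eq_of_subset_of_card_le ?_ (by rw [h2, Finset.card_pair hne])
    rw [Finset.insert_subset_iff, Finset.singleton_subset_iff]
    exact ⟨h.mem_of_pos (hv N) hy', h.mem_of_pos (hv N) hz'⟩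
  have h4 := h.sum_le (hv N) x
  rw [← h3, Finset.sum_pair hne] at h4
  omega

theorem finite_main {V : Type} [Finite V] [MeasurableSpace V] [DiscreteMeasurableSpace V]
    (G : SimpleGraph V) (hG : G.Connected) (hT : ¬ G.IsTree) (v : V) :
    ((∀ x, (G.neighborSet x).ncard = 2) → IsThreshold G v (1 / 2)) ∧
    ((¬ ∀ x, (G.neighborSet x).ncard = 2) → IsThreshold G v 1) := by
  classical
  haveI := Fintype.ofFinite V
  obtain ⟨m, u, hu⟩ := exists_circ (G := G) fun ha => hT ⟨hG, ha⟩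
  have h : Ctx G (fun x => G.neighborFinset x) (Fintype.card V) := by
    refine ⟨fun x y => by simp, fun x => Finset.card_le_univ _, fun x => ?_⟩
    obtain ⟨π, -, h0, ha, -⟩ := exists_plan hG.preconnected hu x
    exact ⟨π 1, by simpa [h0] using ha 0⟩
  refine ⟨fun h2 γ hγ => ⟨h.exists_law γ v, fun μ hμ => ⟨fun hle => ?_, fun hlt => ?_⟩⟩,
    fun h2 γ hγ => ⟨h.exists_law γ v, fun μ hμ => ⟨fun hle => ?_, fun hlt => ?_⟩⟩⟩
  · exact h.ae_not_trapped hμ fun ω hω => h.not_summable_half hγ hle hω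
  · refine (h.ae_trapped_cycle (fun x => ?_) hlt hG.preconnected hu hμ).mono
      fun ω hω => hω (toFinite _)
    rw [← h2 x, ← ncard_coe_finset, SimpleGraph.coe_neighborFinset]
  · exact h.ae_not_trapped hμ fun ω hω => h.not_summable_one hG.preconnected h2 hγ hle hω
  · exact (h.ae_trapped hlt hG.preconnected hu hμ).mono fun ω hω => hω (toFinite _)

end Pool.Agent.MP_856411_pr
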