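import Pool.Agent.MP_856411_pr.Pos

open MeasureTheory Set Filter Topology
open scoped ENNReal

namespace Pool.Agent.MP_856411_pr

theorem exists_harmonic {γ : ℝ} (hγ : 1 < γ) {a0 : ℕ} (ha0 : 0 < a0) :
    ∃ (g : ℕ → ℕ → ℝ) (L : ℝ), 0 < L ∧ (∀ a b, 0 ≤ g a b) ∧
      (∀ a b : ℕ, 0 < a → 0 < b → (a : ℝ) ^ γ * g (a + 1) b + (b : ℝ) ^ γ * g a (b + 1) =
        ((a : ℝ) ^ γ + (b : ℝ) ^ γ) * g a b) ∧ (∀ b, g a0 b ≤ 3 / 4 * L) ∧
      ∀ a b : ℕ → ℕ, Tendsto a atTop atTop → Tendsto b atTop atTop →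
        Tendsto (fun n => g (a n) (b n)) atTop (𝓝 L) := by
  let θ : ℝ := 2 * (a0 : ℝ) ^ γ
  let z : ℕ → ℝ := fun k => θ / (k : ℝ) ^ γ
  let w : ℕ → ℂ := fun k => -(Complex.I * z k)
  let P : ℕ → ℂ := fun a => ∏ k ∈ Finset.range a, (1 + w k)
  have hPs : ∀ a, P (a + 1) = P a * (1 + w a) := fun a => Finset.prod_range_succ _ _
  have hzs : Summable z := by
    have := (Real.summable_one_div_nat_rpow.2 hγ).mul_left θ
    simpa [z, div_eq_mul_inv] using this
  have hws : Summable w := (((Complex.summable_ofReal.2 hzs).mul_left Complex.I).neg)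
  have hmul := Complex.multipliable_one_add_of_summable hws
  let Q : ℂ := ∏' k, (1 + w k)
  have hlim : Tendsto P atTop (𝓝 Q) := hmul.hasProd.tendsto_prod_nat
  have hn1 : ∀ k, 1 ≤ ‖1 + w k‖ := fun k => by
    have := Complex.re_le_norm (1 + w k)
    simpa [w] using this
  have hmono : Monotone fun a => ‖P a‖ := monotone_nat_of_le_succ fun a => by
    rw [hPs, norm_mul]
    exact le_mul_of_one_le_right (norm_nonneg _) (hn1 a)
  have hle : ∀ a, ‖P a‖ ≤ ‖Q‖ := fun a => hmono.ge_of_tendsto hlim.norm a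
  have hQ : 1 ≤ ‖Q‖ := by simpa [P] using hle 0
  have hre : ∀ a b, |(P a * (starRingEnd ℂ) (P b)).re| ≤ ‖P a‖ * ‖P b‖ := fun a b => by
    have := Complex.abs_re_le_norm (P a * (starRingEnd ℂ) (P b))
    rwa [norm_mul, Complex.norm_conj] at this
  refine ⟨fun a b => ‖Q‖ ^ 2 + (P a * (starRingEnd ℂ) (P b)).re, 2 * ‖Q‖ ^ 2, by positivity,
    fun a b => ?_, fun a b ha hb => ?_, fun b => ?_, fun a b ha hb => ?_⟩
  · have h1 := (abs_le.1 (hre a b)).1
    have h2 : ‖P a‖ * ‖P b‖ ≤ ‖Q‖ * ‖Q‖ :=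
      mul_le_mul (hle a) (hle b) (norm_nonneg _) (norm_nonneg _)
    nlinarith
  · have ha' : (0 : ℝ) < (a : ℝ) ^ γ := Real.rpow_pos_of_pos (by exact_mod_cast ha) _
    have hb' : (0 : ℝ) < (b : ℝ) ^ γ := Real.rpow_pos_of_pos (by exact_mod_cast hb) _
    have h1 : (a : ℝ) ^ γ * z a = θ := by simp only [z]; field_simp
    have h2 : (b : ℝ) ^ γ * z b = θ := by simp only [z]; field_simp
    simp only [hPs, w, map_mul, map_add, map_one, map_neg, Complex.conj_I, Complex.conj_ofReal,
      Complex.mul_re, Complex.add_re, Complex.one_re, Complex.neg_re, Complex.I_re,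
      Complex.ofReal_re, Complex.I_im, Complex.ofReal_im, Complex.mul_im, Complex.add_im,
      Complex.one_im, Complex.neg_im, Complex.conj_re, Complex.conj_im]
    linear_combination ((P a).im * (P b).re - (P a).re * (P b).im) * (h1 - h2)
  · have ha' : (0 : ℝ) < (a0 : ℝ) ^ γ := Real.rpow_pos_of_pos (by exact_mod_cast ha0) _
    have h1 : z a0 = 2 := by simp only [z, θ]; field_simp
    have h2 : 2 ≤ ‖1 + w a0‖ := by
      have := Complex.abs_im_le_norm (1 + w a0)
      simpa [w, h1] using this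
    have h3 := hle (a0 + 1)
    rw [hPs, norm_mul] at h3
    have h4 : ‖P a0‖ * 2 ≤ ‖Q‖ := (mul_le_mul_of_nonneg_left h2 (norm_nonneg _)).trans h3
    have h5 := (abs_le.1 (hre a0 b)).2
    have h6 : ‖P a0‖ * ‖P b‖ ≤ ‖Q‖ / 2 * ‖Q‖ :=
      mul_le_mul (by linarith) (hle b) (norm_nonneg _) (by positivity)
    nlinarith
  · have h1 : Tendsto (fun n => P (a n) * (starRingEnd ℂ) (P (b n))) atTop
        (𝓝 (Q * (starRingEnd ℂ) Q)) :=
      (hlim.comp ha).mul ((Complex.continuous_conj.tendsto Q).comp (hlim.comp hb))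
    have h2 := (Complex.continuous_re.tendsto _).comp h1
    rw [Complex.mul_conj, Complex.ofReal_re, Complex.normSq_eq_norm_sq] at h2
    rw [two_mul]
    exact tendsto_const_nhds.add h2

variable {V : Type} {G : SimpleGraph V} {nb : V → Finset V} {D : ℕ} {γ : ℝ} {v : V}

theorem tendsto_toNat {ω : ℕ → V} {N : ℕ} (hP : ∀ n, Pos ω N n) {x y : V}
    (hf : ∃ᶠ n in atTop, ω n = x ∧ ω (n + 1) = y) :
    Tendsto (fun n => (cross ω n x y).toNat) atTop atTop := by
  have hst : ∀ n ≥ N, 0 < cross ω n (ω n) (ω (n + 1)) := fun n hn =>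
    hP (n + 1) n hn (Nat.lt_succ_self n)
  have hm : ∀ a ≥ N, ∀ b ≥ a, (cross ω a x y).toNat ≤ (cross ω b x y).toNat := by
    intro a ha b hb
    induction b, hb using Nat.le_induction with
    | base => exact le_rfl
    | succ b hb ih => rw [toNat_step (hst b (le_trans ha hb))]; omega
  have h1 : ∀ K, ∃ n ≥ N, K ≤ (cross ω n x y).toNat := by
    intro K
    induction K with
    | zero => exact ⟨N, le_rfl, Nat.zero_le _⟩
    | succ K ih =>
      obtain ⟨n, hn, hK⟩ := ih
      obtain ⟨m, hm1, hm2⟩ := frequently_atTop.1 hf n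
      refine ⟨m + 1, by omega, ?_⟩
      rw [toNat_step (hst m (le_trans hn hm1)), if_pos hm2]
      have := hm n hn m hm1
      omega
  refine tendsto_atTop_atTop.2 fun K => ?_
  obtain ⟨n, hn, hK⟩ := h1 K
  exact ⟨n, fun m hm' => hK.trans (hm n hn m hm')⟩

theorem pos_of_frequently {ω : ℕ → V} {N : ℕ} (hP : ∀ n, Pos ω N n) {x y : V}
    (hf : ∃ᶠ n in atTop, ω n = x ∧ ω (n + 1) = y) {n : ℕ} (hn : N ≤ n) : 0 < cross ω n x y := by
  obtain ⟨m, hm1, rfl, rfl⟩ := frequently_atTop.1 hf N
  rw [(hP n).sign hn, ← (hP m).sign hm1]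
  exact hP (m + 1) m hm1 (Nat.lt_succ_self m)

variable [MeasurableSpace V] [DiscreteMeasurableSpace V] [Countable V]

theorem measurableSet_freq (x y : V) :
    MeasurableSet {ω : ℕ → V | ∃ᶠ n in atTop, ω n = x ∧ ω (n + 1) = y} := by
  simp only [frequently_atTop, setOf_forall, setOf_exists]
  refine MeasurableSet.iInter fun a => MeasurableSet.iUnion fun n =>
    measurableSet_of_adapted (n + 1) _ fun ω hω ω' h => ?_
  simp only [mem_setOf_eq] at hω ⊢
  rw [h n (Nat.le_succ n), h (n + 1) le_rfl]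
  exact hω

theorem Ctx.stage2 (h : Ctx G nb D) (hγ : 1 < γ) {μ : Measure (ℕ → V)} (hμ : IsWalkLaw G γ v μ)
    (N : ℕ) (x : V) {y z : V} (hyz : y ≠ z) :
    μ ({ω | ∀ n, Pos ω N n} ∩ ({ω | ∃ᶠ n in atTop, ω n = x ∧ ω (n + 1) = y} ∩
      {ω | ∃ᶠ n in atTop, ω n = x ∧ ω (n + 1) = z})) = 0 := by
  classical
  have := hμ.1
  have hAm := (measurableSet_pos (V := V) N).inter
    ((measurableSet_freq x y).inter (measurableSet_freq x z))
  refine null_of_density μ hAm (θ := ENNReal.ofReal (3 / 4))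
    (ENNReal.ofReal_lt_one.2 (by norm_num)) fun p hp M => ⟨max M N, le_max_left _ _, ?_⟩
  set n0 := max M N
  have hN : N ≤ n0 := le_max_right _ _
  have hy0 : 0 < cross p n0 x y := pos_of_frequently hp.1 hp.2.1 hN
  have hz0 : 0 < cross p n0 x z := pos_of_frequently hp.1 hp.2.2 hN
  obtain ⟨g, L, hL, hg0, hharm, hg1, hlim⟩ :=
    exists_harmonic hγ (a0 := (cross p n0 x y).toNat) (by omega)
  let f : ℕ → (ℕ → V) → ℝ := fun n ω =>
    if Pos ω n0 n then g (cross ω n x y).toNat (cross ω n x z).toNat else 0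
  have key := hμ.step.supermart (trans_congr G γ) (h.trans_nonneg γ) (fun ω n => nb (ω n))
    (fun ω n _ hx => h.trans_of_not_mem γ ω n hx) f (fun n ω => by
      simp only [f]
      split_ifs
      · exact hg0 _ _
      · exact le_rfl) (fun n ω ω' hω => by
      have h1 : Pos ω' n0 n ↔ Pos ω n0 n := ⟨fun hh => hh.congr (mem_cyl_symm hω),
        fun hh => hh.congr hω⟩
      simp only [f, h1, cross_congr hω]) n0 p (fun n hn ω hω hne => ?_) hAm (L := L)
    (fun ω hω => ?_)
  · have h0 : Pos p n0 n0 := fun k h1 h2 => absurd h1 (not_le.2 h2)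
    simp only [f, h0, if_true] at key
    have h1 := key.trans (mul_le_mul_left (ENNReal.ofReal_le_ofReal (hg1 _)) _)
    rw [mul_comm (3 / 4 : ℝ), ENNReal.ofReal_mul hL.le, mul_assoc] at h1
    exact (ENNReal.mul_le_mul_iff_right (by simpa using hL) ENNReal.ofReal_ne_top).1 h1
  · have hv := hμ.valid hne
    by_cases hP : Pos ω n0 n
    · have hy : 0 < cross ω n x y := by rw [hP.sign hn, cross_congr hω]; exact hy0
      have hz : 0 < cross ω n x z := by rw [hP.sign hn, cross_congr hω]; exact hz0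
      set a := (cross ω n x y).toNat with ha
      set b := (cross ω n x z).toNat with hb
      let t : V → ℝ := fun w => g (a + if ω n = x ∧ w = y then 1 else 0)
        (b + if ω n = x ∧ w = z then 1 else 0)
      have h1 : ∀ w, f (n + 1) (ext1 ω n w) ≤ t w := fun w => by
        simp only [f, pos_ext1 hn]
        split_ifs with h2
        · have h3 : 0 < cross (ext1 ω n w) n (ext1 ω n w n) (ext1 ω n w (n + 1)) := by
            simpa [cross_congr (ext1_mem ω n w)] using h2.2
          rw [toNat_step h3, toNat_step h3, cross_congr (ext1_mem ω n w), ext1_self, ext1_succ]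
        · exact hg0 _ _
      refine (Finset.sum_le_sum fun w _ =>
        mul_le_mul_of_nonneg_left (h1 w) (h.trans_nonneg γ ω n w)).trans ?_
      simp only [f, hP, if_true]
      rw [← ha, ← hb]
      by_cases hx : ω n = x
      · subst hx
        have hym := h.mem_of_pos hv hy
        have hzm := h.mem_of_pos hv hz
        have hzm' : z ∈ (nb (ω n)).erase y := Finset.mem_erase.2 ⟨hyz.symm, hzm⟩
        have h2 := h.trans_sum γ ω n
        rw [← Finset.add_sum_erase _ _ hym, ← Finset.add_sum_erase _ _ hzm'] at h2 ⊢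
        have h3 : ∑ w ∈ ((nb (ω n)).erase y).erase z, trans G γ ω n w * t w =
            (∑ w ∈ ((nb (ω n)).erase y).erase z, trans G γ ω n w) * g a b := by
          rw [Finset.sum_mul]
          refine Finset.sum_congr rfl fun w hw => ?_
          have h4 := Finset.ne_of_mem_erase hw
          have h5 := Finset.ne_of_mem_erase (Finset.mem_of_mem_erase hw)
          simp [t, h4, h5]
        have hay : ((a : ℕ) : ℝ) = (cross ω n (ω n) y : ℝ) := by
          have : ((a : ℕ) : ℤ) = cross ω n (ω n) y := by omega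
          exact_mod_cast this
        have hbz : ((b : ℕ) : ℝ) = (cross ω n (ω n) z : ℝ) := by
          have : ((b : ℕ) : ℤ) = cross ω n (ω n) z := by omega
          exact_mod_cast this
        have h4 : trans G γ ω n y * t y + trans G γ ω n z * t z =
            (trans G γ ω n y + trans G γ ω n z) * g a b := by
          have h5 := hharm a b (by omega) (by omega)
          rw [h.trans_of_mem γ ω n hym, h.trans_of_mem γ ω n hzm, weight_of_pos γ hy,
            weight_of_pos γ hz, ← hay, ← hbz]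
          simp only [t, true_and, if_true, hyz, hyz.symm, if_false, add_zero]
          have h6 := h.tot_pos γ ω n
          field_simp
          linarith
        rw [h3, ← add_assoc, h4, ← add_mul, add_assoc, h2, one_mul]
      · simp only [t, hx, false_and, if_false, add_zero]
        rw [← Finset.sum_mul, h.trans_sum, one_mul]
    · simp [f, pos_ext1 hn, hP]
  · have h1 : ∀ n, Pos ω n0 n := fun n k h1 h2 => hω.1.1 n k (hN.trans h1) h2
    simp only [f, h1, if_true]
    exact hlim _ _ (tendsto_toNat hω.1.1 hω.1.2.1) (tendsto_toNat hω.1.1 hω.1.2.2)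

end Pool.Agent.MP_856411_pr
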