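import Pool.Agent.MP_856411_pr.Walk

open MeasureTheory Set Filter Topology
open scoped ENNReal

namespace Pool.Agent.MP_856411_pr

variable {V : Type} {G : SimpleGraph V} {nb : V → Finset V} {D : ℕ} {γ : ℝ} {v : V}

theorem trapped_countable [Countable V] (G : SimpleGraph V) : {ω | Trapped G ω}.Countable := by
  let F : (Σ m : ℕ, Σ N : ℕ, (Fin N → V) × (ZMod (m + 1) → V)) → ℕ → V := fun c k =>
    if h : k < c.2.1 then c.2.2.1 ⟨k, h⟩ else c.2.2.2 ((k - c.2.1 : ℕ) : ZMod (c.1 + 1))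
  refine (countable_range F).mono ?_
  rintro ω ⟨m, hm, u, -, -, N, i, h⟩
  obtain ⟨m, rfl⟩ : ∃ m', m = m' + 1 := ⟨m - 1, by omega⟩
  refine ⟨⟨m, N, fun k => ω k, fun j => u (i + j)⟩, funext fun k => ?_⟩
  simp only [F]
  split_ifs with hk
  · rfl
  · rw [← h]; congr 1; omega

theorem not_summable_of_lower {a : ℕ → ℝ} (ha : ∀ n, 0 ≤ a n) {A m : ℕ} (hm : 0 < m) {c : ℝ}
    (hc : 0 < c) (h : ∀ t : ℕ, c / (((A + m * t : ℕ) : ℝ) + 1) ≤ a (A + m * t)) :
    ¬ Summable a := by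
  intro hs
  have h1 : Summable fun t : ℕ => a (A + m * t) :=
    hs.comp_injective (i := fun t : ℕ => A + m * t) fun s t hst =>
      Nat.eq_of_mul_eq_mul_left hm (Nat.add_left_cancel hst)
  have h2 : Summable fun t : ℕ => c / ((A : ℝ) + 1 + m) * (1 / ((t : ℝ) + 1)) := by
    refine Summable.of_nonneg_of_le (fun t => by positivity) (fun t => le_trans ?_ (h t)) h1
    rw [mul_one_div, div_div]
    refine div_le_div_of_nonneg_left hc.le (by positivity) ?_
    push_cast
    have : (0 : ℝ) ≤ t := Nat.cast_nonneg t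
    have : (0 : ℝ) ≤ A := Nat.cast_nonneg A
    have : (0 : ℝ) ≤ m := Nat.cast_nonneg m
    nlinarith [mul_nonneg ‹(0 : ℝ) ≤ A› ‹(0 : ℝ) ≤ t›]
  have h3 : Summable fun t : ℕ => 1 / ((t : ℝ) + 1) :=
    (summable_mul_left_iff (by positivity)).1 h2
  have h4 : Summable fun t : ℕ => 1 / (t : ℝ) := by
    rw [← summable_nat_add_iff 1]
    simpa using h3
  exact Real.not_summable_one_div_natCast h4

theorem Ctx.one_sub_ge (h : Ctx G nb D) (hγ : 0 < γ) (ω : ℕ → V) (n : ℕ) {x z : V}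
    (hz : G.Adj (ω n) z) (hxz : x ≠ z) :
    weight γ (cross ω n (ω n) z) / (D * ((n : ℝ) + 1) ^ γ) ≤ 1 - trans G γ ω n x := by
  have h1 := h.trans_add_le γ ω n hxz
  rw [h.trans_of_mem γ ω n ((h.mem _ _).2 hz)] at h1
  refine le_trans ?_ (le_sub_iff_add_le'.2 h1)
  refine div_le_div_of_nonneg_left (weight_pos _ _).le (h.tot_pos γ ω n) ?_
  calc tot nb γ ω n ≤ ∑ _z ∈ nb (ω n), ((n : ℝ) + 1) ^ γ :=
        Finset.sum_le_sum fun z _ => weight_le hγ (abs_cross_le _ _ _ _)
    _ = (nb (ω n)).card * ((n : ℝ) + 1) ^ γ := by simp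
    _ ≤ D * ((n : ℝ) + 1) ^ γ := by
        refine mul_le_mul_of_nonneg_right (by exact_mod_cast h.card _) (by positivity)

theorem two_ne_zero_zmod {m : ℕ} (hm : 3 ≤ m) : (2 : ZMod m) ≠ 0 := by
  intro h
  have h1 : ((2 : ℕ) : ZMod m) = 0 := by exact_mod_cast h
  have := Nat.le_of_dvd two_pos ((ZMod.natCast_eq_zero_iff 2 m).1 h1)
  omega

theorem succ_ne_pred_zmod {m : ℕ} (hm : 3 ≤ m) (i : ZMod m) : i + 1 ≠ i - 1 := by
  intro h
  refine two_ne_zero_zmod hm ?_
  linear_combination h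

theorem Ctx.not_summable_half (h : Ctx G nb D) (hγ : 0 < γ) (hγ' : γ ≤ 1 / 2) {ω : ℕ → V}
    (hω : Trapped G ω) : ¬ Summable fun n => 1 - trans G γ ω n (ω (n + 1)) := by
  obtain ⟨m, hm, u, hu, hadj, N, i, hN⟩ := hω
  have hD : (0 : ℝ) < D := by exact_mod_cast h.one_le (ω 0)
  refine not_summable_of_lower (fun n => sub_nonneg.2 (h.trans_le_one γ ω n _)) (A := N) one_pos
    (c := 1 / D) (by positivity) fun t => ?_
  rw [one_mul]
  have h1 : ω (N + t + 1) = u (i + t + 1) := by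
    rw [add_assoc, hN]; push_cast; rw [add_assoc]
  have h2 : G.Adj (ω (N + t)) (u (i + t - 1)) := by
    rw [hN]
    simpa using (hadj (i + t - 1)).symm
  refine le_trans ?_ (h.one_sub_ge hγ ω (N + t) h2
    (h1 ▸ fun he => succ_ne_pred_zmod hm _ (hu he)))
  set r : ℝ := ((N + t : ℕ) : ℝ) + 1 with hr
  have hr1 : 1 ≤ r := by rw [hr]; linarith [Nat.cast_nonneg (α := ℝ) (N + t)]
  have hr0 : 0 < r := by linarith
  refine le_trans ?_ (div_le_div_of_nonneg_right (le_weight hγ (abs_cross_le _ _ _ _))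
    (by positivity))
  rw [← hr, Real.rpow_neg hr0.le, div_div, div_le_div_iff₀ (by positivity) (by positivity)]
  have h3 : r ^ γ * r ^ γ ≤ r := by
    rw [← Real.rpow_add hr0]
    calc r ^ (γ + γ) ≤ r ^ (1 : ℝ) := Real.rpow_le_rpow_of_exponent_le hr1 (by linarith)
      _ = r := Real.rpow_one r
  have h4 : 0 < r ^ γ := Real.rpow_pos_of_pos hr0 _
  rw [one_mul, ← div_eq_inv_mul, le_div_iff₀ h4, mul_assoc]
  exact mul_le_mul_of_nonneg_left h3 hD.le

theorem exists_exit (hG : G.Preconnected) (hreg : ¬ ∀ x, (G.neighborSet x).ncard = 2) {m : ℕ}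
    (hm : 3 ≤ m) {u : ZMod m → V} (hu : Function.Injective u)
    (hadj : ∀ i, G.Adj (u i) (u (i + 1))) :
    ∃ j z, G.Adj (u j) z ∧ z ≠ u (j + 1) ∧ z ≠ u (j - 1) := by
  by_contra hc
  push Not at hc
  have h1 : ∀ x y, G.Walk x y → x ∈ range u → y ∈ range u := by
    intro x y w
    induction w with
    | nil => exact id
    | @cons a b c hxy w ih =>
      rintro ⟨j, rfl⟩
      refine ih ?_
      by_cases h : b = u (j + 1)
      · exact ⟨_, h.symm⟩
      · exact ⟨_, (hc j _ hxy h).symm⟩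
  refine hreg fun x => ?_
  obtain ⟨j, rfl⟩ := h1 (u 0) x (hG (u 0) x).some ⟨0, rfl⟩
  have h2 : G.neighborSet (u j) = {u (j + 1), u (j - 1)} := by
    ext z
    simp only [SimpleGraph.mem_neighborSet, mem_insert_iff, mem_singleton_iff]
    constructor
    · intro hz
      by_cases h : z = u (j + 1)
      · exact Or.inl h
      · exact Or.inr (hc j z hz h)
    · rintro (rfl | rfl)
      · exact hadj j
      · simpa using (hadj (j - 1)).symm
  rw [h2, ncard_pair fun he => succ_ne_pred_zmod hm _ (hu he)]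

theorem Ctx.not_summable_one (h : Ctx G nb D) (hG : G.Preconnected)
    (hreg : ¬ ∀ x, (G.neighborSet x).ncard = 2) (hγ : 0 < γ) (hγ' : γ ≤ 1) {ω : ℕ → V}
    (hω : Trapped G ω) : ¬ Summable fun n => 1 - trans G γ ω n (ω (n + 1)) := by
  obtain ⟨m, hm, u, hu, hadj, N, i, hN⟩ := hω
  obtain ⟨j, z, hz, hz1, hz2⟩ := exists_exit hG hreg hm hu hadj
  haveI : NeZero m := ⟨by omega⟩
  have hD : (0 : ℝ) < D := by exact_mod_cast h.one_le (ω 0)
  have hstep : ∀ k : ℕ, ω (N + k + 1) = u (i + k + 1) := fun k => by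
    rw [add_assoc, hN]; push_cast; rw [add_assoc]
  have hfro : ∀ k : ℕ, cross ω (N + k) (u j) z = cross ω N (u j) z := by
    intro k
    induction k with
    | zero => rfl
    | succ k ih =>
      rw [← add_assoc, cross_succ_other, ih]
      · rintro ⟨h1, h2⟩
        rw [hN] at h1
        rw [hstep, hu h1] at h2
        exact hz1 h2.symm
      · rintro ⟨h1, h2⟩
        rw [hstep] at h2
        rw [hN] at h1
        refine hz2 ?_
        rw [← h1, ← hu h2]
        congr 1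
        ring
  refine not_summable_of_lower (fun n => sub_nonneg.2 (h.trans_le_one γ ω n _))
    (A := N + (j - i).val) (m := m) (by omega)
    (c := weight γ (cross ω N (u j) z) / D) (div_pos (weight_pos _ _) hD) fun t => ?_
  have h0 : i + (((j - i).val + m * t : ℕ) : ZMod m) = j := by
    push_cast
    simp
  have h1 : ω (N + (j - i).val + m * t) = u j := by rw [add_assoc, hN, h0]
  have h2 : ω (N + (j - i).val + m * t + 1) = u (j + 1) := by rw [add_assoc N, hstep, h0]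
  refine le_trans ?_ (h.one_sub_ge hγ ω _ (z := z) (h1 ▸ hz) (h2 ▸ hz1.symm))
  rw [h1, add_assoc N, hfro, div_div]
  refine div_le_div_of_nonneg_left (weight_pos _ _).le (by positivity) ?_
  refine mul_le_mul_of_nonneg_left ?_ hD.le
  set r : ℝ := ((N + ((j - i).val + m * t) : ℕ) : ℝ) + 1 with hr
  have hr1 : 1 ≤ r := by
    rw [hr]; linarith [Nat.cast_nonneg (α := ℝ) (N + ((j - i).val + m * t))]
  calc r ^ γ ≤ r ^ (1 : ℝ) := Real.rpow_le_rpow_of_exponent_le hr1 hγ'
    _ = r := Real.rpow_one r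

variable [MeasurableSpace V] [DiscreteMeasurableSpace V] [Countable V]

theorem Ctx.ae_not_trapped (h : Ctx G nb D) {μ : Measure (ℕ → V)} (hμ : IsWalkLaw G γ v μ)
    (hs : ∀ ω, Trapped G ω → ¬ Summable fun n => 1 - trans G γ ω n (ω (n + 1))) :
    ∀ᵐ ω ∂μ, ¬ Trapped G ω := by
  have := hμ.1
  rw [ae_iff]
  simp only [not_not]
  rw [← biUnion_of_singleton {ω | Trapped G ω}, measure_biUnion_null_iff (trapped_countable G)]
  exact fun ω hω => hμ.step.singleton_null ω (fun n => h.trans_le_one γ ω n _) (hs ω hω)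

end Pool.Agent.MP_856411_pr
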