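import Pool.Agent.Mg.F856411.Gd5174d

/-! One-way traffic on the edges of cycles. -/

section


open MeasureTheory Set Filter Topology
open scoped ENNReal

namespace Pool.Agent.MP_856411_pr.OW

variable {V : Type} {G : SimpleGraph V} {nb : V → Finset V} {D : ℕ} {γ : ℝ} {v : V}

/-- inverse weight -/
noncomputable def ph (γ : ℝ) (j : ℕ) : ℝ := ((max 1 j : ℕ) : ℝ) ^ (-γ)

noncomputable def Hs (γ : ℝ) (j : ℕ) : ℝ := ∑ i ∈ Finset.range j, ph γ i

noncomputable def Rt (γ : ℝ) (j : ℕ) : ℝ := ∑' i, ph γ (i + j) ^ 2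

theorem one_le_max (j : ℕ) : (1 : ℝ) ≤ ((max 1 j : ℕ) : ℝ) := by exact_mod_cast le_max_left 1 j

theorem ph_pos (γ : ℝ) (j : ℕ) : 0 < ph γ j :=
  Real.rpow_pos_of_pos (one_pos.trans_le (one_le_max j)) _

theorem ph_anti (hγ : 0 < γ) : Antitone (ph γ) := fun a b h =>
  Real.rpow_le_rpow_of_nonpos (one_pos.trans_le (one_le_max a))
    (by exact_mod_cast max_le_max_left 1 h) (by linarith)

theorem ph_le_one (hγ : 0 < γ) (j : ℕ) : ph γ j ≤ 1 :=
  Real.rpow_le_one_of_one_le_of_nonpos (one_le_max j) (by linarith)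

theorem ph_mul (hγ : 0 < γ) {a b m : ℕ} (hb : 1 ≤ b) (hm : 1 ≤ m) (h : a ≤ m * b) :
    ph γ b ≤ (m : ℝ) ^ γ * ph γ a := by
  have h1 : ph γ (m * b) = (m : ℝ) ^ (-γ) * ph γ b := by
    rw [ph, ph, max_eq_right hb, max_eq_right (Nat.mul_pos hm hb), Nat.cast_mul,
      Real.mul_rpow (by positivity) (by positivity)]
  have h2 : (0 : ℝ) < m := by exact_mod_cast hm
  calc ph γ b = (m : ℝ) ^ γ * ph γ (m * b) := by
        rw [h1, ← mul_assoc, ← Real.rpow_add h2, add_neg_cancel, Real.rpow_zero, one_mul]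
    _ ≤ _ := mul_le_mul_of_nonneg_left (ph_anti hγ h) (by positivity)

theorem weight_neg (γ : ℝ) {c : ℤ} (h : 0 ≤ c) : weight γ (-c) = ph γ c.toNat := by
  obtain ⟨j, rfl⟩ := Int.eq_ofNat_of_zero_le h
  rcases Nat.eq_zero_or_pos j with rfl | hj
  · simp [weight, ph]
  · rw [weight_of_neg γ (by omega), Int.toNat_natCast, ph, max_eq_right hj]
    simp

theorem weight_mul (γ : ℝ) {c : ℤ} (h : 0 ≤ c) : weight γ c * ph γ c.toNat = 1 := by
  obtain ⟨j, rfl⟩ := Int.eq_ofNat_of_zero_le h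
  rcases Nat.eq_zero_or_pos j with rfl | hj
  · simp [weight, ph]
  · rw [weight_of_pos γ (by omega), Int.toNat_natCast, ph, max_eq_right hj, Int.cast_natCast,
      ← Real.rpow_add (by exact_mod_cast hj), add_neg_cancel, Real.rpow_zero]

theorem one_le_weight (hγ : 0 < γ) {c : ℤ} (h : 0 ≤ c) : 1 ≤ weight γ c := by
  have h1 := weight_mul γ h
  have h2 := ph_le_one hγ c.toNat
  nlinarith [weight_pos γ c]

theorem Hs_succ (γ : ℝ) (j : ℕ) : Hs γ (j + 1) = Hs γ j + ph γ j := Finset.sum_range_succ _ _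

theorem Hs_mono (γ : ℝ) : Monotone (Hs γ) :=
  monotone_nat_of_le_succ fun j => by rw [Hs_succ]; linarith [ph_pos γ j]

theorem Hs_add (hγ : 0 < γ) (b k : ℕ) : Hs γ (b + k) ≤ Hs γ b + k * ph γ b := by
  induction k with
  | zero => simp
  | succ k ih =>
    rw [← add_assoc, Hs_succ]
    push_cast
    linarith [ph_anti hγ (Nat.le_add_right b k)]

theorem Hs_cmp (hγ : 0 < γ) {m F F' : ℕ} (hm : 1 ≤ m) (h : F' ≤ m * F + 1) (d : ℕ) :
    Hs γ (F + 2 + m * d) - Hs γ F ≤ 2 + m * (m : ℝ) ^ γ * (Hs γ (F' + d) - Hs γ F') := by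
  induction d with
  | zero =>
    have := Hs_add hγ F 2
    have := ph_le_one hγ F
    simp only [mul_zero, add_zero, sub_self]
    push_cast at *
    linarith
  | succ d ih =>
    have h1 := Hs_add hγ (F + 2 + m * d) m
    have h2 := ph_mul hγ (a := F' + d) (b := F + 2 + m * d) (by omega) hm (by
      have : d ≤ m * (m * d) := (Nat.le_mul_of_pos_left d hm).trans (Nat.le_mul_of_pos_left _ hm)
      rw [mul_add, mul_add]
      omega)
    have h3 := mul_le_mul_of_nonneg_left h2 (Nat.cast_nonneg (α := ℝ) m)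
    rw [mul_add m d 1, mul_one, ← add_assoc, ← add_assoc F' d 1, Hs_succ]
    nlinarith

theorem summable_ph (hγ : 1 / 2 < γ) : Summable fun i => ph γ i ^ 2 := by
  rw [← summable_nat_add_iff 1]
  have := (summable_nat_add_iff 1).2 (Real.summable_nat_rpow.2 (show -(2 * γ) < -1 by linarith))
  refine this.congr fun i => ?_
  rw [ph, max_eq_right (by omega), ← Real.rpow_natCast, ← Real.rpow_mul (by positivity)]
  congr 1
  push_cast
  ring

theorem Rt_nonneg (γ : ℝ) (j : ℕ) : 0 ≤ Rt γ j := tsum_nonneg fun _ => sq_nonneg _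

theorem Rt_succ (hγ : 1 / 2 < γ) (j : ℕ) : Rt γ j = ph γ j ^ 2 + Rt γ (j + 1) := by
  rw [Rt, ((summable_nat_add_iff j).2 (summable_ph hγ)).tsum_eq_zero_add, zero_add, Rt]
  congr 2
  ext i
  rw [add_right_comm, add_assoc]

theorem Rt_le (hγ : 1 / 2 < γ) (j : ℕ) : Rt γ j ≤ Rt γ 0 := by
  induction j with
  | zero => rfl
  | succ j ih => linarith [Rt_succ hγ j, sq_nonneg (ph γ j)]

open Classical in
/-- oriented edges from `S` to `T` -/
noncomputable def Ed (G : SimpleGraph V) (S T : Finset V) : Finset (V × V) :=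
  (S ×ˢ T).filter fun e => G.Adj e.1 e.2

theorem mem_Ed {S T : Finset V} {e : V × V} :
    e ∈ Ed G S T ↔ e.1 ∈ S ∧ e.2 ∈ T ∧ G.Adj e.1 e.2 := by
  simp [Ed, and_assoc]

/-- a two-edge-connected class with the retraction onto it -/
structure Blk [DecidableEq V] (G : SimpleGraph V) (K : Finset V) (r : V → V) : Prop where
  fix : ∀ u ∈ K, r u = u
  adj : ∀ u w, G.Adj u w → ¬ (u ∈ K ∧ w ∈ K) → r u = r w
  two : ∀ S : Finset V, S ⊆ K → S.Nonempty → (K \ S).Nonempty → 2 ≤ (Ed G S (K \ S)).card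
  big : 2 ≤ K.card

theorem exists_blk [Fintype V] [DecidableEq V] (hG : G.Connected) {x y : V} (hxy : G.Adj x y)
    (hb : ¬ G.IsBridge s(x, y)) : ∃ K r, Blk G K r ∧ x ∈ K ∧ y ∈ K := by
  classical
  let K : Finset V := Finset.univ.filter fun u => ∀ e, (G.deleteEdges {e}).Reachable x u
  have hK : ∀ u, u ∈ K ↔ ∀ e, (G.deleteEdges {e}).Reachable x u := fun u => by simp [K]
  have hx : x ∈ K := (hK x).2 fun _ => .refl _
  have hy : y ∈ K := (hK y).2 fun e => by
    by_cases h : s(x, y) = e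
    · exact h ▸ not_not.1 hb
    · exact SimpleGraph.Adj.reachable (by simp [hxy, h])
  let G1 : SimpleGraph V :=
    { Adj := fun u w => G.Adj u w ∧ ¬ (u ∈ K ∧ w ∈ K)
      symm := ⟨fun _ _ h => ⟨h.1.symm, fun h' => h.2 h'.symm⟩⟩
      loopless := ⟨fun _ h => h.1.ne rfl⟩ }
  have ex : ∀ u, ∃ t ∈ K, G1.Reachable u t := fun u => by
    obtain ⟨p⟩ := hG.preconnected u x
    have : ∀ {a b : V} (_ : G.Walk a b), b ∈ K → ∃ t ∈ K, G1.Reachable a t := by
      intro a b p hb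
      induction p with
      | nil => exact ⟨_, hb, .refl _⟩
      | @cons a c _ h _ ih =>
        by_cases ha : a ∈ K
        · exact ⟨a, ha, .refl _⟩
        · obtain ⟨t, ht, h'⟩ := ih hb
          exact ⟨t, ht, (SimpleGraph.Adj.reachable (G := G1) ⟨h, fun e => ha e.1⟩).trans h'⟩
    exact this p hx
  have un : ∀ s ∈ K, ∀ t ∈ K, G1.Reachable s t → s = t := by
    intro s hs t ht h
    obtain ⟨p, hp⟩ := h.exists_isPath
    cases p with
    | nil => rfl
    | @cons _ z _ a q =>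
      refine absurd ⟨hs, (hK z).2 fun e => ?_⟩ a.2
      by_cases he : s(s, z) = e
      · refine ((hK t).1 ht e).trans (SimpleGraph.Reachable.symm ⟨q.transfer _ fun f hf => ?_⟩)
        have h1 := q.edges_subset_edgeSet hf
        rw [SimpleGraph.edgeSet_deleteEdges]
        refine ⟨SimpleGraph.edgeSet_mono (G₁ := G1) (fun _ _ h => h.1) h1, ?_⟩
        rintro rfl
        exact ((SimpleGraph.Walk.cons_isPath_iff _ _).1 hp).2
          (q.fst_mem_support_of_mem_edges (he ▸ hf))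
      · exact ((hK s).1 hs e).trans (SimpleGraph.Adj.reachable (by simp [a.1, he]))
  choose r hr1 hr2 using ex
  have fix : ∀ u ∈ K, r u = u := fun u hu => (un u hu _ (hr1 u) (hr2 u)).symm
  have adj : ∀ u w, G.Adj u w → ¬ (u ∈ K ∧ w ∈ K) → r u = r w := fun u w h h' =>
    un _ (hr1 u) _ (hr1 w) ((hr2 u).symm.trans
      ((SimpleGraph.Adj.reachable (G := G1) ⟨h, h'⟩).trans (hr2 w)))
  refine ⟨K, r, ⟨fix, adj, fun S hS ⟨s, hs⟩ ⟨t, ht⟩ => ?_,
    Finset.one_lt_card.2 ⟨x, hx, y, hy, hxy.ne⟩⟩, hx, hy⟩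
  obtain ⟨ht1, ht2⟩ := Finset.mem_sdiff.1 ht
  have key : ∀ e, ∃ f ∈ Ed G S (K \ S), s(f.1, f.2) ≠ e := fun e => by
    obtain ⟨p⟩ := ((hK s).1 (hS hs) e).symm.trans ((hK t).1 ht1 e)
    obtain ⟨d, -, h1, h2⟩ := p.exists_boundary_dart {u | r u ∈ S}
      (by simpa [fix s (hS hs)] using hs) (by simpa [fix t ht1] using ht2)
    obtain ⟨h3, h4⟩ := SimpleGraph.deleteEdges_adj.1 d.adj
    have h5 : d.fst ∈ K ∧ d.snd ∈ K := by
      by_contra h
      exact h2 (show r d.snd ∈ S from adj _ _ h3 h ▸ h1)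
    refine ⟨(d.fst, d.snd), mem_Ed.2 ⟨fix _ h5.1 ▸ h1, Finset.mem_sdiff.2 ⟨h5.2, fun h => h2 ?_⟩,
      h3⟩, h4⟩
    change r d.snd ∈ S
    rwa [fix _ h5.2]
  obtain ⟨f, hf, -⟩ := key s(x, y)
  obtain ⟨g, hg, hfg⟩ := key s(f.1, f.2)
  exact Finset.one_lt_card.2 ⟨g, hg, f, hf, fun e => hfg (e ▸ rfl)⟩

end Pool.Agent.MP_856411_pr.OW

end

section

open MeasureTheory Set Filter Topology
open scoped ENNReal

namespace Pool.Agent.MP_856411_pr.OW

variable {V : Type} {G : SimpleGraph V} {nb : V → Finset V} {D : ℕ} {γ : ℝ} {v : V}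

section Path
variable [DecidableEq V] {K : Finset V} {r : V → V} {ω ω' : ℕ → V} {n n0 : ℕ}

theorem Blk.cons (hB : Blk G K r) {S : Finset V} (hv : Valid G v ω n) (hS : S ⊆ K) :
    ∑ e ∈ Ed G S (K \ S), cross ω n e.1 e.2 =
      (if r v ∈ S then 1 else 0) - (if r (ω n) ∈ S then 1 else 0) := by
  induction n with
  | zero => simp [cross_zero, hv.1]
  | succ n ih =>
    have ha := hv.2 n (Nat.lt_succ_self n)
    have e1 : ∀ e : V × V, cross ω (n + 1) e.1 e.2 = cross ω n e.1 e.2 +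
        ((if (ω n, ω (n + 1)) = e then 1 else 0) - if (ω (n + 1), ω n) = e then 1 else 0) :=
      fun e => by
        rw [cross_succ]
        congr 2
        · simp [Prod.ext_iff]
        · simp [Prod.ext_iff, and_comm]
    simp only [e1, Finset.sum_add_distrib, Finset.sum_sub_distrib,
      ih (hv.mono (Nat.le_succ n)), Finset.sum_ite_eq]
    simp only [mem_Ed, Finset.mem_sdiff, ha, ha.symm, and_true]
    by_cases h : ω n ∈ K ∧ ω (n + 1) ∈ K
    · rw [hB.fix _ h.1, hB.fix _ h.2]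
      simp only [h.1, h.2, true_and]
      split_ifs <;> first | omega | tauto
    · rw [hB.adj _ _ ha h, if_neg fun e : _ ∧ _ ∧ _ => h ⟨hS e.1, e.2.1⟩,
        if_neg fun e : _ ∧ _ ∧ _ => h ⟨e.2.1, hS e.1⟩]
      ring

theorem Blk.abs (hB : Blk G K r) {S : Finset V} (hv : Valid G v ω n) (hS : S ⊆ K) :
    |∑ e ∈ Ed G S (K \ S), cross ω n e.1 e.2| ≤ 1 := by
  rw [hB.cons hv hS]
  split_ifs <;> simp

theorem Blk.out (hB : Blk G K r) {S : Finset V} (hv : Valid G v ω n) (hS : S ⊆ K)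
    (h1 : S.Nonempty) (h2 : (K \ S).Nonempty) :
    ∃ e ∈ Ed G S (K \ S), 0 ≤ cross ω n e.1 e.2 := by
  by_contra h
  push Not at h
  have h3 := Finset.sum_le_card_nsmul _ (fun e : V × V => cross ω n e.1 e.2) (-1)
    fun e he => by linarith [h e he]
  have h4 := hB.two S hS h1 h2
  have h5 := (abs_le.1 (hB.abs hv hS)).1
  simp only [smul_neg, nsmul_eq_mul, mul_one] at h3
  omega

/-- a backward step inside `K` -/
def Bk (K : Finset V) (ω : ℕ → V) (k : ℕ) (y : V) : Prop :=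
  ω k ∈ K ∧ y ∈ K ∧ cross ω k (ω k) y < 0

/-- no backward step in the window -/
def Ok (K : Finset V) (n0 : ℕ) (ω : ℕ → V) (n : ℕ) : Prop :=
  ∀ k, n0 ≤ k → k < n → ¬ Bk K ω k (ω (k + 1))

open Classical in
/-- weight of the other steps -/
noncomputable def Wp (nb : V → Finset V) (K : Finset V) (γ : ℝ) (ω : ℕ → V) (k : ℕ) : ℝ :=
  ∑ y ∈ (nb (ω k)).filter (fun y => ¬ Bk K ω k y), weight γ (cross ω k (ω k) y)

/-- local time -/
noncomputable def Lt (nb : V → Finset V) (K : Finset V) (γ : ℝ) (n0 : ℕ) (ω : ℕ → V) (n : ℕ)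
    (u : V) : ℝ := ∑ k ∈ Finset.Ico n0 n, if ω k = u then (Wp nb K γ ω k)⁻¹ else 0

noncomputable def Mg (nb : V → Finset V) (K : Finset V) (γ : ℝ) (n0 : ℕ) (ω : ℕ → V) (n : ℕ)
    (e : V × V) : ℝ :=
  Hs γ (cross ω n e.1 e.2).toNat - Hs γ (cross ω n0 e.1 e.2).toNat - Lt nb K γ n0 ω n e.1

noncomputable def Qe (nb : V → Finset V) (K : Finset V) (γ : ℝ) (n0 : ℕ) (ω : ℕ → V) (n : ℕ)
    (e : V × V) : ℝ :=
  if 0 ≤ cross ω n e.1 e.2 then Mg nb K γ n0 ω n e ^ 2 + Rt γ (cross ω n e.1 e.2).toNat else 0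

/-- odds of a backward step along the reverse of `e` -/
noncomputable def eta (nb : V → Finset V) (K : Finset V) (γ : ℝ) (ω : ℕ → V) (k : ℕ)
    (e : V × V) : ℝ :=
  if ω k = e.2 ∧ 0 < cross ω k e.1 e.2 then ph γ (cross ω k e.1 e.2).toNat * (Wp nb K γ ω k)⁻¹
  else 0

noncomputable def Lam (G : SimpleGraph V) (nb : V → Finset V) (K : Finset V) (γ : ℝ) (n0 : ℕ)
    (ω : ℕ → V) (n : ℕ) : ℝ := ∑ k ∈ Finset.Ico n0 n, ∑ e ∈ Ed G K K, eta nb K γ ω k e

theorem Bk_congr (h : ω' ∈ cyl n ω) : Bk K ω' n = Bk K ω n := by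
  ext y
  simp only [Bk, cross_congr h, h n le_rfl]

theorem Wp_congr (h : ω' ∈ cyl n ω) : Wp nb K γ ω' n = Wp nb K γ ω n := by
  unfold Wp
  rw [Bk_congr h, cross_congr h, h n le_rfl]

theorem eta_congr (h : ω' ∈ cyl n ω) : eta nb K γ ω' n = eta nb K γ ω n := by
  ext e
  simp only [eta, Wp_congr h, cross_congr h, h n le_rfl]

theorem Ok.congr (hO : Ok K n0 ω n) (h : ω' ∈ cyl n ω) : Ok K n0 ω' n := fun k h1 h2 => by
  rw [Bk_congr (cyl_anti h2.le ω h), h (k + 1) h2]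
  exact hO k h1 h2

theorem Ok.mono {m : ℕ} (hO : Ok K n0 ω n) (h : m ≤ n) : Ok K n0 ω m :=
  fun k h1 h2 => hO k h1 (h2.trans_le h)

theorem Lt_congr (h : ω' ∈ cyl n ω) : Lt nb K γ n0 ω' n = Lt nb K γ n0 ω n := by
  ext u
  exact Finset.sum_congr rfl fun k hk => by
    have := (Finset.mem_Ico.1 hk).2.le
    rw [Wp_congr (cyl_anti this ω h), h k this]

theorem Lam_congr (h : ω' ∈ cyl n ω) : Lam G nb K γ n0 ω' n = Lam G nb K γ n0 ω n :=
  Finset.sum_congr rfl fun k hk => by rw [eta_congr (cyl_anti (Finset.mem_Ico.1 hk).2.le ω h)]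

theorem Qe_congr (hn : n0 ≤ n) (h : ω' ∈ cyl n ω) : Qe nb K γ n0 ω' n = Qe nb K γ n0 ω n := by
  ext e
  simp only [Qe, Mg, Lt_congr h, cross_congr h, cross_congr (cyl_anti hn ω h)]

theorem Lt_succ (hn : n0 ≤ n) (u : V) : Lt nb K γ n0 ω (n + 1) u =
    Lt nb K γ n0 ω n u + if ω n = u then (Wp nb K γ ω n)⁻¹ else 0 :=
  Finset.sum_Ico_succ_top hn _

theorem Lam_succ (hn : n0 ≤ n) : Lam G nb K γ n0 ω (n + 1) =
    Lam G nb K γ n0 ω n + ∑ e ∈ Ed G K K, eta nb K γ ω n e :=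
  Finset.sum_Ico_succ_top hn _

theorem Wp_nonneg : 0 ≤ Wp nb K γ ω n := Finset.sum_nonneg fun _ _ => (weight_pos _ _).le

theorem Lt_nonneg (u : V) : 0 ≤ Lt nb K γ n0 ω n u := Finset.sum_nonneg fun _ _ => by
  split_ifs
  exacts [inv_nonneg.2 Wp_nonneg, le_rfl]

theorem Qe_nonneg (e : V × V) : 0 ≤ Qe nb K γ n0 ω n e := by
  unfold Qe
  split_ifs
  exacts [add_nonneg (sq_nonneg _) (Rt_nonneg _ _), le_rfl]

theorem one_le_Wp (h : Ctx G nb D) (hγ : 0 < γ) (hB : Blk G K r) (hv : Valid G v ω n)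
    (hK : ω n ∈ K) : 1 ≤ Wp nb K γ ω n := by
  classical
  obtain ⟨e, he, h0⟩ := hB.out hv (Finset.singleton_subset_iff.2 hK) (Finset.singleton_nonempty _)
    (Finset.sdiff_nonempty.2 fun hs => by
      have := Finset.card_le_card hs
      have := hB.big
      simp at *
      omega)
  obtain ⟨h1, -, h3⟩ := mem_Ed.1 he
  rw [Finset.mem_singleton.1 h1] at h0 h3
  refine (one_le_weight hγ h0).trans (Finset.single_le_sum (f := fun y => weight γ
    (cross ω n (ω n) y)) (fun _ _ => (weight_pos _ _).le) ?_)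
  exact Finset.mem_filter.2 ⟨(h.mem _ _).2 h3, fun b => b.2.2.not_ge h0⟩

theorem Wp_pos (h : Ctx G nb D) (hγ : 0 < γ) (hB : Blk G K r) (hv : Valid G v ω n) :
    0 < Wp nb K γ ω n := by
  classical
  by_cases hK : ω n ∈ K
  · exact one_pos.trans_le (one_le_Wp h hγ hB hv hK)
  · obtain ⟨y, hy⟩ := h.ne (ω n)
    exact Finset.sum_pos (fun _ _ => weight_pos _ _) ⟨y, Finset.mem_filter.2 ⟨hy, fun b => hK b.1⟩⟩

theorem tot_le (h : Ctx G nb D) (hW : 0 < Wp nb K γ ω n) :
    tot nb γ ω n ≤ Wp nb K γ ω n * (1 + ∑ e ∈ Ed G K K, eta nb K γ ω n e) := by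
  classical
  rw [tot, ← Finset.sum_filter_add_sum_filter_not _ (fun y => ¬ Bk K ω n y), mul_add, mul_one,
    Finset.mul_sum]
  refine add_le_add le_rfl ?_
  have hinj : Function.Injective fun y : V => (y, ω n) := fun _ _ e => congrArg Prod.fst e
  calc _ = ∑ e ∈ ((nb (ω n)).filter fun y => ¬ ¬ Bk K ω n y).image fun y => (y, ω n),
        Wp nb K γ ω n * eta nb K γ ω n e := by
        rw [Finset.sum_image hinj.injOn]
        refine Finset.sum_congr rfl fun y hy => ?_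
        have h1 : 0 < cross ω n y (ω n) := by
          have := (not_not.1 (Finset.mem_filter.1 hy).2).2.2
          rw [cross_anti]
          omega
        rw [eta, if_pos ⟨rfl, h1⟩, cross_anti ω n y, weight_neg γ h1.le]
        field_simp
    _ ≤ _ := by
        refine Finset.sum_le_sum_of_subset_of_nonneg (fun e he => ?_) fun e _ _ => ?_
        · obtain ⟨y, hy, rfl⟩ := Finset.mem_image.1 he
          obtain ⟨h1, h2⟩ := Finset.mem_filter.1 hy
          exact mem_Ed.2 ⟨(not_not.1 h2).2.1, (not_not.1 h2).1, ((h.mem _ _).1 h1).symm⟩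
        · refine mul_nonneg hW.le ?_
          unfold eta
          split_ifs
          exacts [mul_nonneg (ph_pos _ _).le (inv_nonneg.2 hW.le), le_rfl]

/-- the three possible moves of a crossing number without a backward step -/
theorem moves (hn : ¬ Bk K ω n (ω (n + 1))) {e : V × V} (he : e ∈ Ed G K K) :
    (ω n = e.1 ∧ ω (n + 1) = e.2 ∧ 0 ≤ cross ω n e.1 e.2 ∧
      cross ω (n + 1) e.1 e.2 = cross ω n e.1 e.2 + 1) ∨
    (ω n = e.2 ∧ ω (n + 1) = e.1 ∧ cross ω n e.1 e.2 ≤ 0 ∧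
      cross ω (n + 1) e.1 e.2 = cross ω n e.1 e.2 - 1) ∨
    (¬ (ω n = e.1 ∧ ω (n + 1) = e.2) ∧ cross ω (n + 1) e.1 e.2 = cross ω n e.1 e.2) := by
  obtain ⟨h1, h2, h3⟩ := mem_Ed.1 he
  by_cases a : ω n = e.1 ∧ ω (n + 1) = e.2
  · refine .inl ⟨a.1, a.2, not_lt.1 fun b => hn ⟨a.1 ▸ h1, a.2 ▸ h2, by rwa [a.1, a.2]⟩, ?_⟩
    rw [cross_succ, if_pos a, if_neg fun b => h3.ne (a.1.symm.trans b.1)]
    simp
  by_cases b : ω n = e.2 ∧ ω (n + 1) = e.1
  · refine .inr (.inl ⟨b.1, b.2, not_lt.1 fun c => hn ⟨b.1 ▸ h2, b.2 ▸ h1, ?_⟩, ?_⟩)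
    · rw [b.1, b.2, cross_anti]
      omega
    · rw [cross_succ, if_neg a, if_pos b]
      ring
  · exact .inr (.inr ⟨a, cross_succ_other a b⟩)

theorem Ok.sign (hO : Ok K n0 ω n) (hn : n0 ≤ n) {e : V × V} (he : e ∈ Ed G K K) :
    (0 ≤ cross ω n e.1 e.2 → 0 ≤ cross ω n0 e.1 e.2 ∧ cross ω n0 e.1 e.2 ≤ cross ω n e.1 e.2) ∧
    (cross ω n e.1 e.2 ≤ 0 → cross ω n0 e.1 e.2 ≤ 0 ∧ cross ω n e.1 e.2 ≤ cross ω n0 e.1 e.2) := by
  induction n, hn using Nat.le_induction with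
  | base => exact ⟨fun h => ⟨h, le_rfl⟩, fun h => ⟨h, le_rfl⟩⟩
  | succ n hn ih =>
    have := ih (hO.mono (Nat.le_succ n))
    rcases moves (hO n hn (Nat.lt_succ_self n)) he with h | h | h <;> omega

open Classical in
theorem Qe_step (h : Ctx G nb D) (hγ : 1 / 2 < γ) (hn : n0 ≤ n) (hW : 0 < Wp nb K γ ω n)
    {e : V × V} (he : e ∈ Ed G K K) :
    ∑ y ∈ (nb (ω n)).filter (fun y => ¬ Bk K ω n y), weight γ (cross ω n (ω n) y) *
      Qe nb K γ n0 (ext1 ω n y) (n + 1) e ≤ Wp nb K γ ω n * Qe nb K γ n0 ω n e := by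
  have hm := fun y => ext1_mem ω n y
  have mv : ∀ y ∈ (nb (ω n)).filter (fun y => ¬ Bk K ω n y), _ := fun y hy =>
    moves (G := G) (ω := ext1 ω n y) (n := n) (by
      rw [Bk_congr (hm y), ext1_succ]
      exact (Finset.mem_filter.1 hy).2) he
  simp only [ext1_self, ext1_succ, cross_congr (hm _)] at mv
  have hQ : ∀ y, Qe nb K γ n0 (ext1 ω n y) (n + 1) e =
      if 0 ≤ cross (ext1 ω n y) (n + 1) e.1 e.2 then
        (Hs γ (cross (ext1 ω n y) (n + 1) e.1 e.2).toNat - Hs γ (cross ω n0 e.1 e.2).toNat -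
          (Lt nb K γ n0 ω n e.1 + if ω n = e.1 then (Wp nb K γ ω n)⁻¹ else 0)) ^ 2 +
          Rt γ (cross (ext1 ω n y) (n + 1) e.1 e.2).toNat else 0 := fun y => by
    simp only [Qe, Mg, Lt_succ hn, Lt_congr (hm y), Wp_congr (hm y), ext1_self,
      cross_congr (cyl_anti hn ω (hm y))]
  by_cases a : 0 ≤ cross ω n e.1 e.2 ∧ ω n = e.1
  · obtain ⟨h1, h2, h3⟩ := mem_Ed.1 he
    have hw : e.2 ∈ (nb (ω n)).filter (fun y => ¬ Bk K ω n y) := Finset.mem_filter.2
      ⟨(h.mem _ _).2 (a.2 ▸ h3), fun b => b.2.2.not_ge (a.2 ▸ a.1)⟩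
    set c := (cross ω n e.1 e.2).toNat with hc
    set M := Mg nb K γ n0 ω n e - (Wp nb K γ ω n)⁻¹ with hM
    have key : ∀ y ∈ (nb (ω n)).filter (fun y => ¬ Bk K ω n y), weight γ (cross ω n (ω n) y) *
        Qe nb K γ n0 (ext1 ω n y) (n + 1) e = weight γ (cross ω n (ω n) y) * (M ^ 2 + Rt γ c) +
          if y = e.2 then 2 * M else 0 := by
      intro y hy
      rw [hQ, if_pos a.2]
      rcases mv y hy with b | b | b
      · have e1 : (cross ω n e.1 e.2 + 1).toNat = c + 1 := by omega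
        have e2 := weight_mul γ a.1
        rw [b.2.2.2, if_pos (by omega), if_pos b.2.1, e1, Hs_succ, Rt_succ hγ c, b.2.1, a.2, hM, Mg]
        linear_combination (2 * (Hs γ c - Hs γ (cross ω n0 e.1 e.2).toNat - Lt nb K γ n0 ω n e.1 -
          (Wp nb K γ ω n)⁻¹)) * e2
      · exact absurd (a.2.symm.trans b.1) h3.ne
      · rw [b.2, if_pos a.1, if_neg fun q => b.1 ⟨a.2, q⟩, hM, Mg]
        ring
    rw [Finset.sum_congr rfl key, Finset.sum_add_distrib, ← Finset.sum_mul, Finset.sum_ite_eq',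
      if_pos hw, Qe, if_pos a.1]
    change Wp nb K γ ω n * _ + _ ≤ _
    have e3 : Wp nb K γ ω n * (Wp nb K γ ω n)⁻¹ = 1 := mul_inv_cancel₀ hW.ne'
    have e4 := inv_pos.2 hW
    have e5 : Mg nb K γ n0 ω n e = M + (Wp nb K γ ω n)⁻¹ := by rw [hM]; ring
    rw [e5]
    nlinarith
  · rw [Wp, Finset.sum_mul]
    refine Finset.sum_le_sum fun y hy => mul_le_mul_of_nonneg_left ?_ (weight_pos _ _).le
    rw [hQ]
    rcases mv y hy with b | b | b
    · exact absurd ⟨b.2.2.1, b.1⟩ a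
    · rw [if_neg (by omega)]
      exact Qe_nonneg e
    · rw [b.2, Qe, Mg]
      split_ifs with q1 q2
      · exact absurd ⟨q1, q2⟩ a
      · rw [add_zero]
      · rfl

end Path

end Pool.Agent.MP_856411_pr.OW

end

section

open MeasureTheory Set Filter Topology
open scoped ENNReal

namespace Pool.Agent.MP_856411_pr.OW

variable {V : Type} {G : SimpleGraph V} {nb : V → Finset V} {D : ℕ} {γ : ℝ} {v : V}

theorem sum_le_add {α : Type} {E : Finset α} {f : α → ℤ} {M m : ℕ} (h : ∀ e ∈ E, f e ≤ M)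
    (hm : E.card ≤ m) {e : α} (he : e ∈ E) : ∑ x ∈ E, f x ≤ f e + m * M := by
  classical
  rw [← Finset.add_sum_erase _ _ he]
  have h1 := Finset.sum_le_card_nsmul (E.erase e) f M fun x hx => h x (Finset.mem_of_mem_erase hx)
  have h2 : (E.erase e).card * M ≤ m * M :=
    Nat.mul_le_mul_right _ (Finset.card_erase_le.trans hm)
  rw [nsmul_eq_mul] at h1
  have h3 : ((E.erase e).card : ℤ) * M ≤ m * M := by exact_mod_cast h2
  linarith

section Path
variable [DecidableEq V] {K : Finset V} {r : V → V} {ω ω' : ℕ → V} {n n0 : ℕ}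

theorem level {l : V → ℝ} {C : ℝ} (hC : 1 ≤ C) (hl : ∀ u, 0 ≤ l u)
    (h : ∀ S ⊆ K, S.Nonempty → (K \ S).Nonempty → ∃ u ∈ S, ∃ w ∈ K \ S, l u ≤ C * l w)
    {u w : V} (hu : u ∈ K) (hw : w ∈ K) : l u ≤ C ^ K.card * l w := by
  let T : ℕ → Finset V := fun j => K.filter fun t => l t ≤ C ^ j * l w
  have hT : ∀ j, T j ⊆ T (j + 1) := fun j t ht => Finset.mem_filter.2 ⟨(Finset.mem_filter.1 ht).1,
    (Finset.mem_filter.1 ht).2.trans (mul_le_mul_of_nonneg_right
      (pow_le_pow_right₀ hC (Nat.le_succ j)) (hl w))⟩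
  have key : ∀ j, j + 1 ≤ (T j).card ∨ K ⊆ T j := fun j => by
    induction j with
    | zero => exact .inl (Finset.card_pos.2 ⟨w, Finset.mem_filter.2 ⟨hw, by simp⟩⟩)
    | succ j ih =>
      by_cases hK : K ⊆ T j
      · exact .inr (hK.trans (hT j))
      have h1 := ih.resolve_right hK
      have h2 : K \ (K \ T j) = T j := Finset.sdiff_sdiff_eq_self (Finset.filter_subset _ _)
      obtain ⟨a, ha, b, hb, hab⟩ := h (K \ T j) Finset.sdiff_subset (Finset.sdiff_nonempty.2 hK)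
        (h2.symm ▸ Finset.card_pos.1 (by omega))
      rw [h2] at hb
      obtain ⟨ha1, ha2⟩ := Finset.mem_sdiff.1 ha
      refine .inl (h1.trans_lt (Finset.card_lt_card ⟨hT j, fun q => ha2 (q ?_)⟩))
      refine Finset.mem_filter.2 ⟨ha1, hab.trans ?_⟩
      rw [pow_succ', mul_assoc]
      exact mul_le_mul_of_nonneg_left (Finset.mem_filter.1 hb).2 (by linarith)
  rcases key K.card with q | q
  · have := Finset.card_le_card (Finset.filter_subset (fun t => l t ≤ C ^ K.card * l w) K)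
    exact absurd (q.trans this) (by omega)
  · exact (Finset.mem_filter.1 (q hu)).2

theorem cut (hγ : 0 < γ) (hB : Blk G K r) (hv : Valid G v ω n) (hn : n0 ≤ n) (hO : Ok K n0 ω n)
    {κ : ℝ} (hκ : 0 ≤ κ) {m : ℕ} (hm : 1 ≤ m) (hm' : (Ed G K K).card ≤ m)
    (hM : ∀ e ∈ Ed G K K, 0 ≤ cross ω n e.1 e.2 → |Mg nb K γ n0 ω n e| ≤ κ)
    (S : Finset V) (hS : S ⊆ K) (h1 : S.Nonempty) (h2 : (K \ S).Nonempty) :
    ∃ u ∈ S, ∃ w ∈ K \ S, Lt nb K γ n0 ω n u + 1 ≤
      (m * (m : ℝ) ^ γ * (1 + κ) + 3 + κ) * (Lt nb K γ n0 ω n w + 1) := by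
  have hE : Ed G S (K \ S) ⊆ Ed G K K := fun e he =>
    mem_Ed.2 ⟨hS (mem_Ed.1 he).1, (Finset.mem_sdiff.1 (mem_Ed.1 he).2.1).1, (mem_Ed.1 he).2.2⟩
  have hc := (Finset.card_le_card hE).trans hm'
  obtain ⟨e0, he0, h0⟩ := hB.out hv hS h1 h2
  obtain ⟨a, ha, ha'⟩ := Finset.exists_max_image
    ((Ed G S (K \ S)).filter fun e => 0 ≤ cross ω n e.1 e.2) (fun e => cross ω n0 e.1 e.2)
    ⟨e0, Finset.mem_filter.2 ⟨he0, h0⟩⟩
  obtain ⟨ha1, ha2⟩ := Finset.mem_filter.1 ha
  obtain ⟨b, hb, hb'⟩ := Finset.exists_max_image (Ed G S (K \ S))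
    (fun e => cross ω n0 e.1 e.2 - cross ω n e.1 e.2) ⟨e0, he0⟩
  have sa := (hO.sign hn (hE ha1)).1 ha2
  set F := (cross ω n0 a.1 a.2).toNat with hF
  set d := (cross ω n0 b.1 b.2 - cross ω n b.1 b.2).toNat with hd
  have s0 := abs_le.1 (hB.abs (hv.mono hn) hS)
  have s1 := abs_le.1 (hB.abs hv hS)
  have k1 := sum_le_add (f := fun e => cross ω n0 e.1 e.2) (M := F) (fun e he => by
    by_cases q : 0 ≤ cross ω n e.1 e.2
    · have := ha' e (Finset.mem_filter.2 ⟨he, q⟩)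
      omega
    · have := (hO.sign hn (hE he)).2 (by omega)
      omega) hc hb
  have k2 := sum_le_add (f := fun e => cross ω n0 e.1 e.2 - cross ω n e.1 e.2) (M := d)
    (fun e he => by
      have := hb' e he
      omega) hc ha1
  rw [Finset.sum_sub_distrib] at k2
  have k3 := Hs_cmp hγ (F := F) (F' := (cross ω n0 b.2 b.1).toNat) hm (by
    rw [cross_anti ω n0 b.1 b.2]
    have : ((m * F : ℕ) : ℤ) = m * F := by push_cast; rfl
    omega) d
  have k4 : Hs γ (cross ω n a.1 a.2).toNat ≤ Hs γ (F + 2 + m * d) := Hs_mono γ (by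
    have : ((m * d : ℕ) : ℤ) = m * d := by push_cast; rfl
    omega)
  have k5 := (abs_le.1 (hM a (hE ha1) ha2)).1
  have l0 := Lt_nonneg (nb := nb) (K := K) (γ := γ) (n0 := n0) (ω := ω) (n := n) b.2
  have k6 : Hs γ ((cross ω n0 b.2 b.1).toNat + d) - Hs γ (cross ω n0 b.2 b.1).toNat ≤
      Lt nb K γ n0 ω n b.2 + κ := by
    by_cases q : 0 ≤ cross ω n b.1 b.2
    · have := (hO.sign hn (hE hb)).1 q
      rw [show d = 0 by omega, add_zero, sub_self]
      linarith
    · have := (hO.sign hn (hE hb)).2 (by omega)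
      obtain ⟨b1, b2, b3⟩ := mem_Ed.1 (hE hb)
      have k := (abs_le.1 (hM (b.2, b.1) (mem_Ed.2 ⟨b2, b1, b3.symm⟩) (by
        rw [cross_anti ω n b.1 b.2]
        omega))).2
      rw [show (cross ω n0 b.2 b.1).toNat + d = (cross ω n b.2 b.1).toNat by
        rw [cross_anti ω n0 b.1 b.2, cross_anti ω n b.1 b.2]
        omega]
      simp only [Mg] at k
      linarith
  refine ⟨a.1, (mem_Ed.1 ha1).1, b.2, (mem_Ed.1 hb).2.1, ?_⟩
  have hA : (0 : ℝ) ≤ m * (m : ℝ) ^ γ := by positivity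
  have k7 := mul_le_mul_of_nonneg_left k6 hA
  simp only [Mg] at k5
  nlinarith [mul_nonneg (mul_nonneg hA hκ) l0, mul_nonneg hκ l0]

/-- potential for the hazard along one edge -/
noncomputable def psi (nb : V → Finset V) (K : Finset V) (γ : ℝ) (n0 : ℕ) (ω : ℕ → V)
    (A κ : ℝ) (e : V × V) (n : ℕ) : ℝ :=
  if 0 ≤ cross ω n e.1 e.2 then ph γ (cross ω n e.1 e.2).toNat *
    (A * (Hs γ (cross ω n e.1 e.2).toNat - Hs γ (cross ω n0 e.1 e.2).toNat + κ + 1) -
      Lt nb K γ n0 ω n e.2) + A * Rt γ (cross ω n e.1 e.2).toNat else 0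

theorem hazard (h : Ctx G nb D) (hγ : 1 / 2 < γ) (hB : Blk G K r) {A κ : ℝ} (hA : 0 ≤ A)
    (hκ : 0 ≤ κ) (hv : Valid G v ω n) (hn : n0 ≤ n) (hO : Ok K n0 ω n) {e : V × V}
    (he : e ∈ Ed G K K) (hX : ∀ k, n0 ≤ k → k ≤ n → 0 ≤ cross ω k e.1 e.2 →
      Lt nb K γ n0 ω k e.2 + 1 ≤
        A * (Hs γ (cross ω k e.1 e.2).toNat - Hs γ (cross ω n0 e.1 e.2).toNat + κ + 1)) :
    ∑ k ∈ Finset.Ico n0 (n + 1), eta nb K γ ω k e ≤ A * (κ + 1 + Rt γ 0) := by
  have hγ0 : 0 < γ := by linarith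
  obtain ⟨h1, h2, h3⟩ := mem_Ed.1 he
  have low : ∀ k, n0 ≤ k → k ≤ n → eta nb K γ ω k e ≤ psi nb K γ n0 ω A κ e k := by
    intro k k1 k2
    have hp := ph_pos γ (cross ω k e.1 e.2).toNat
    have hR := mul_nonneg hA (Rt_nonneg γ (cross ω k e.1 e.2).toNat)
    unfold eta psi
    split_ifs with a b b
    · have := inv_le_one_of_one_le₀ (one_le_Wp h hγ0 hB (hv.mono k2) (a.1 ▸ h2))
      nlinarith [hX k k1 k2 b]
    · exact absurd a.2.le b
    · nlinarith [hX k k1 k2 b]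
    · rfl
  have tel : ∀ j, n0 ≤ j → j ≤ n → ∑ k ∈ Finset.Ico n0 j, eta nb K γ ω k e +
      psi nb K γ n0 ω A κ e j ≤ A * (κ + 1 + Rt γ 0) := by
    intro j hj
    induction j, hj using Nat.le_induction with
    | base =>
      intro _
      have hp := ph_le_one hγ0 (cross ω n0 e.1 e.2).toNat
      have hR := mul_le_mul_of_nonneg_left (Rt_le hγ (cross ω n0 e.1 e.2).toNat) hA
      have hR0 := mul_nonneg hA (Rt_nonneg γ 0)
      have hk := mul_nonneg hA (show 0 ≤ κ + 1 by linarith)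
      simp only [psi, Lt, Finset.Ico_self, Finset.sum_empty, sub_self, zero_add, sub_zero]
      split_ifs <;> nlinarith
    | succ j hj ih =>
      intro hjn
      refine le_trans ?_ (ih (by omega))
      rw [Finset.sum_Ico_succ_top hj, add_assoc, add_le_add_iff_left]
      have lo := low j hj (by omega)
      rcases moves (hO j hj hjn) he with b | b | b
      · have e1 : (cross ω j e.1 e.2 + 1).toNat = (cross ω j e.1 e.2).toNat + 1 := by omega
        have e2 : ω j ≠ e.2 := fun q => h3.ne (b.1.symm.trans q)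
        have e3 := hX j hj (by omega) b.2.2.1
        have e4 := ph_anti hγ0 (Nat.le_succ (cross ω j e.1 e.2).toNat)
        have e5 := mul_nonneg hA (ph_pos γ (cross ω j e.1 e.2).toNat).le
        rw [eta, if_neg fun q => e2 q.1, psi, psi, b.2.2.2, if_pos (by omega), if_pos b.2.2.1, e1,
          Hs_succ, Rt_succ hγ (cross ω j e.1 e.2).toNat, Lt_succ hj, if_neg e2]
        nlinarith
      · rw [psi, b.2.2.2, if_neg (by omega), add_zero]
        exact lo
      · have hp := ph_pos γ (cross ω j e.1 e.2).toNat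
        have hW := inv_nonneg.2 (Wp_nonneg (nb := nb) (K := K) (γ := γ) (ω := ω) (n := j))
        rw [eta, psi, psi, b.2, Lt_succ hj]
        by_cases q : 0 ≤ cross ω j e.1 e.2
        · rw [if_pos q, if_pos q]
          split_ifs with q1 q2 q2
          · linarith
          · exact absurd q1.1 q2
          · nlinarith [mul_nonneg hp.le hW]
          · linarith
        · rw [if_neg q, if_neg q, if_neg fun q1 => q q1.2.le, add_zero]
  rw [Finset.sum_Ico_succ_top hn]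
  linarith [low n hn le_rfl, tel n hn le_rfl]

end Path

end Pool.Agent.MP_856411_pr.OW

end

section

open MeasureTheory Set Filter Topology
open scoped ENNReal

namespace Pool.Agent.MP_856411_pr.OW

variable {V : Type} {G : SimpleGraph V} {nb : V → Finset V} {D : ℕ} {γ : ℝ} {v : V}

section Blocks
variable [DecidableEq V] {K : Finset V} {r : V → V}

theorem eta_nonneg (ω : ℕ → V) (n : ℕ) (e : V × V) : 0 ≤ eta nb K γ ω n e := by
  unfold eta
  split_ifs
  exacts [mul_nonneg (ph_pos _ _).le (inv_nonneg.2 Wp_nonneg), le_rfl]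

/-- the window on which the estimates hold -/
def Gd (G : SimpleGraph V) (nb : V → Finset V) (K : Finset V) (γ : ℝ) (v : V) (κ : ℝ) (n0 : ℕ)
    (ω : ℕ → V) (n : ℕ) : Prop :=
  n0 ≤ n ∧ Valid G v ω n ∧ Ok K n0 ω n ∧
    ∀ k, n0 ≤ k → k ≤ n → ∑ e ∈ Ed G K K, Qe nb K γ n0 ω k e < κ ^ 2

theorem Gd.congr {κ : ℝ} {n0 n : ℕ} {ω ω' : ℕ → V} (hg : Gd G nb K γ v κ n0 ω n)
    (h : ω' ∈ cyl n ω) : Gd G nb K γ v κ n0 ω' n :=
  ⟨hg.1, hg.2.1.congr h, hg.2.2.1.congr h, fun k h1 h2 => by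
    rw [Qe_congr h1 (cyl_anti h2 ω h)]
    exact hg.2.2.2 k h1 h2⟩

theorem Lam_le (h : Ctx G nb D) (hγ : 1 / 2 < γ) (hB : Blk G K r) {κ : ℝ} (hκ : 0 ≤ κ) :
    ∃ Λ : ℝ, ∀ n0 ω n, Gd G nb K γ v κ n0 ω n → Lam G nb K γ n0 ω (n + 1) ≤ Λ := by
  set m := (Ed G K K).card + 1
  set C := m * (m : ℝ) ^ γ * (1 + κ) + 3 + κ with hC
  have hC1 : 1 ≤ C := by
    have : 0 ≤ m * (m : ℝ) ^ γ * (1 + κ) := by positivity
    linarith
  have hA : 0 ≤ C ^ K.card := by positivity
  refine ⟨∑ _e ∈ Ed G K K, C ^ K.card * (κ + 1 + Rt γ 0), fun n0 ω n ⟨hn, hv, hO, hQ⟩ => ?_⟩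
  rw [Lam, Finset.sum_comm]
  refine Finset.sum_le_sum fun e he => hazard h hγ hB hA hκ hv hn hO he fun k k1 k2 hc => ?_
  have hM : ∀ e ∈ Ed G K K, 0 ≤ cross ω k e.1 e.2 → |Mg nb K γ n0 ω k e| ≤ κ := fun a ha h0 => by
    have h1 := (Finset.single_le_sum (fun a _ => Qe_nonneg a) ha).trans_lt (hQ k k1 k2)
    rw [Qe, if_pos h0] at h1
    exact abs_le_of_sq_le_sq (by linarith [Rt_nonneg γ (cross ω k a.1 a.2).toNat]) hκ
  have h1 := level (l := fun u => Lt nb K γ n0 ω k u + 1) hC1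
    (fun u => add_nonneg (Lt_nonneg u) zero_le_one)
    (cut (by linarith) hB (hv.mono k2) k1 (hO.mono k2) hκ (Nat.le_add_left 1 _) (Nat.le_succ _) hM)
    (mem_Ed.1 he).2.1 (mem_Ed.1 he).1
  refine h1.trans (mul_le_mul_of_nonneg_left ?_ hA)
  have h2 := (abs_le.1 (hM e he hc)).1
  simp only [Mg] at h2
  linarith

variable [MeasurableSpace V] [DiscreteMeasurableSpace V] [Countable V]

theorem measurableSet_ok (n0 : ℕ) : MeasurableSet {ω : ℕ → V | ∀ n, Ok K n0 ω n} := by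
  rw [Set.ofPred_forall]
  exact MeasurableSet.iInter fun n => measurableSet_of_adapted n _ fun ω hω ω' h => hω.congr h

theorem stage (h : Ctx G nb D) (hγ : 1 / 2 < γ) (hB : Blk G K r) {μ : Measure (ℕ → V)}
    (hμ : IsWalkLaw G γ v μ) : ∃ θ : ℝ, θ < 1 ∧ ∀ (n0 : ℕ) (p : ℕ → V),
      μ ({ω | ∀ n, Ok K n0 ω n}ᶜ ∩ cyl n0 p) ≤ ENNReal.ofReal θ * μ (cyl n0 p) := by
  classical
  have hγ0 : 0 < γ := by linarith
  set R := ∑ _e ∈ Ed G K K, Rt γ 0 with hR
  have hR0 : 0 ≤ R := Finset.sum_nonneg fun _ _ => Rt_nonneg _ _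
  set κ := 2 * R + 1 with hκ
  have hκ2 : 0 < κ ^ 2 := by positivity
  obtain ⟨Λ, hΛ⟩ := Lam_le (v := v) h hγ hB (show 0 ≤ κ by positivity)
  refine ⟨1 - 1 / 2 * Real.exp (-Λ), by linarith [Real.exp_pos (-Λ)], fun n0 p => ?_⟩
  by_cases hp : μ (cyl n0 p) = 0
  · exact (measure_mono_null inter_subset_right hp).trans_le zero_le
  let Z : ℕ → (ℕ → V) → ℝ := fun n ω => 1 - (∑ e ∈ Ed G K K, Qe nb K γ n0 ω n e) / κ ^ 2
  let g : ℕ → (ℕ → V) → ℝ := fun n ω =>
    if Gd G nb K γ v κ n0 ω n then Z n ω * Real.exp (Lam G nb K γ n0 ω n - Λ) else 0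
  have hZ : ∀ n ω, Gd G nb K γ v κ n0 ω n → 0 ≤ Z n ω := fun n ω q =>
    sub_nonneg.2 ((div_le_one hκ2).2 (q.2.2.2 n q.1 le_rfl).le)
  have hg0 : ∀ n ω, 0 ≤ g n ω := fun n ω => by
    simp only [g]
    split_ifs with q
    exacts [mul_nonneg (hZ n ω q) (Real.exp_pos _).le, le_rfl]
  have key := hμ.step.supermart (trans_congr G γ) (h.trans_nonneg γ) (fun ω n => nb (ω n))
    (fun ω n _ hx => h.trans_of_not_mem γ ω n hx) (fun n ω => 1 - g n ω) (fun n ω => ?_)
    (fun n ω ω' hω => ?_) n0 p (fun n hn ω hω hne => ?_)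
    (A := {ω | ∀ n, Ok K n0 ω n}ᶜ) (measurableSet_ok n0).compl (L := 1) (fun ω hω => ?_)
  · rw [ENNReal.ofReal_one, one_mul] at key
    refine key.trans (mul_le_mul_left (ENNReal.ofReal_le_ofReal ?_) _)
    have h1 : ∑ e ∈ Ed G K K, Qe nb K γ n0 p n0 e ≤ R := Finset.sum_le_sum fun e _ => by
      simp only [Qe, Mg, Lt, Finset.Ico_self, Finset.sum_empty, sub_self]
      split_ifs
      · simpa using Rt_le hγ _
      · exact Rt_nonneg _ _
    have h2 : Gd G nb K γ v κ n0 p n0 := ⟨le_rfl, hμ.valid hp,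
      fun k h1 h2 => absurd h1 (not_le.2 h2), fun k k1 k2 => by
        rw [le_antisymm k2 k1]
        nlinarith⟩
    have h3 : 1 / 2 ≤ Z n0 p := by
      have : (∑ e ∈ Ed G K K, Qe nb K γ n0 p n0 e) / κ ^ 2 ≤ 1 / 2 := by
        rw [div_le_iff₀ hκ2]
        nlinarith
      simp only [Z]
      linarith
    simp only [g, h2, if_true, Lam, Finset.Ico_self, Finset.sum_empty, zero_sub]
    linarith [mul_le_mul_of_nonneg_right h3 (Real.exp_pos (-Λ)).le]
  · simp only [g]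
    split_ifs with q
    · have h1 := hΛ n0 ω n q
      rw [Lam_succ q.1] at h1
      have h2 : 0 ≤ ∑ e ∈ Ed G K K, eta nb K γ ω n e :=
        Finset.sum_nonneg fun e _ => eta_nonneg ω n e
      have h3 : Real.exp (Lam G nb K γ n0 ω n - Λ) ≤ 1 := Real.exp_le_one_iff.2 (by linarith)
      have h4 : Z n ω ≤ 1 := sub_le_self _ (div_nonneg
        (Finset.sum_nonneg fun e _ => Qe_nonneg e) hκ2.le)
      nlinarith [hZ n ω q, Real.exp_pos (Lam G nb K γ n0 ω n - Λ)]
    · norm_num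
  · simp only [g]
    by_cases q : Gd G nb K γ v κ n0 ω n
    · simp only [Z, if_pos q, if_pos (q.congr hω), Lam_congr hω, Qe_congr q.1 hω]
    · rw [if_neg q, if_neg fun q' => q (q'.congr (mem_cyl_symm hω))]
  · simp only [mul_sub, mul_one, Finset.sum_sub_distrib, h.trans_sum, sub_le_sub_iff_left]
    have hs0 : ∀ y, 0 ≤ trans G γ ω n y * g (n + 1) (ext1 ω n y) := fun y =>
      mul_nonneg (h.trans_nonneg γ ω n y) (hg0 _ _)
    by_cases q : Gd G nb K γ v κ n0 ω n
    swap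
    · simp only [g, if_neg q]
      exact Finset.sum_nonneg fun y _ => hs0 y
    have hW := Wp_pos h hγ0 hB q.2.1
    have hT := h.tot_pos γ ω n
    set η := ∑ e ∈ Ed G K K, eta nb K γ ω n e with hη
    set E := Real.exp (Lam G nb K γ n0 ω n + η - Λ) with hE
    have hE0 : 0 < E := Real.exp_pos _
    have h1 : ∀ y ∈ (nb (ω n)).filter (fun y => ¬ Bk K ω n y), E / tot nb γ ω n *
        (weight γ (cross ω n (ω n) y) * Z (n + 1) (ext1 ω n y)) ≤
        trans G γ ω n y * g (n + 1) (ext1 ω n y) := by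
      intro y hy
      obtain ⟨y1, y2⟩ := Finset.mem_filter.1 hy
      have hm := ext1_mem ω n y
      have q' := q.congr hm
      have h2 : Z (n + 1) (ext1 ω n y) * E ≤ g (n + 1) (ext1 ω n y) := by
        by_cases z : ∑ e ∈ Ed G K K, Qe nb K γ n0 (ext1 ω n y) (n + 1) e < κ ^ 2
        · have : Gd G nb K γ v κ n0 (ext1 ω n y) (n + 1) := by
            refine ⟨by omega, ⟨q'.2.1.1, fun k hk => ?_⟩, fun k k1 k2 => ?_, fun k k1 k2 => ?_⟩
            · rcases (Nat.lt_succ_iff.1 hk).eq_or_lt with rfl | hk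
              · simpa using (h.mem _ _).1 y1
              · exact q'.2.1.2 k hk
            · rcases (Nat.lt_succ_iff.1 k2).eq_or_lt with rfl | hk
              · rwa [Bk_congr hm, ext1_succ]
              · exact q'.2.2.1 k k1 hk
            · rcases k2.eq_or_lt with rfl | hk
              · exact z
              · exact q'.2.2.2 k k1 (Nat.lt_succ_iff.1 hk)
          simp only [g, if_pos this, Lam_succ hn, Lam_congr hm, eta_congr hm]
          rfl
        · refine le_trans (mul_nonpos_of_nonpos_of_nonneg ?_ hE0.le) (hg0 _ _)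
          exact sub_nonpos.2 ((one_le_div hκ2).2 (not_lt.1 z))
      rw [h.trans_of_mem γ ω n y1]
      refine le_trans (le_of_eq (by ring)) (mul_le_mul_of_nonneg_left h2
        (div_nonneg (weight_pos _ _).le hT.le))
    refine le_trans ?_ ((Finset.sum_le_sum h1).trans (Finset.sum_le_sum_of_subset_of_nonneg
      (Finset.filter_subset _ _) fun y _ _ => hs0 y))
    have h2 : Wp nb K γ ω n * Z n ω ≤ ∑ y ∈ (nb (ω n)).filter (fun y => ¬ Bk K ω n y),
        weight γ (cross ω n (ω n) y) * Z (n + 1) (ext1 ω n y) := by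
      simp only [Z, mul_sub, mul_one, Finset.sum_sub_distrib, ← mul_div_assoc, ← Finset.sum_div,
        Finset.mul_sum]
      refine sub_le_sub (le_of_eq ?_) (div_le_div_of_nonneg_right ?_ hκ2.le)
      · rfl
      · rw [Finset.sum_comm]
        exact Finset.sum_le_sum fun e he => Qe_step h hγ hn hW he
    rw [← Finset.mul_sum]
    refine le_trans ?_ (mul_le_mul_of_nonneg_left h2 (div_pos hE0 hT).le)
    have h3 : tot nb γ ω n ≤ Wp nb K γ ω n * Real.exp η :=
      (tot_le h hW).trans (mul_le_mul_of_nonneg_left (by linarith [Real.add_one_le_exp η]) hW.le)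
    have h4 : E = Real.exp (Lam G nb K γ n0 ω n - Λ) * Real.exp η := by
      rw [← Real.exp_add, hE]
      congr 1
      ring
    simp only [g, if_pos q]
    rw [div_mul_eq_mul_div, le_div_iff₀ hT, h4]
    refine (mul_le_mul_of_nonneg_left h3 (mul_nonneg (hZ n ω q) (Real.exp_pos _).le)).trans
      (le_of_eq (by ring))
  · obtain ⟨n, hn⟩ := not_forall.1 hω.1
    refine tendsto_const_nhds.congr' ?_
    filter_upwards [eventually_ge_atTop n] with m hm
    simp only [g, if_neg fun q : Gd G nb K γ v κ n0 ω m => hn (q.2.2.1.mono hm), sub_zero]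

theorem ae_ok (h : Ctx G nb D) (hγ : 1 / 2 < γ) (hB : Blk G K r) {μ : Measure (ℕ → V)}
    (hμ : IsWalkLaw G γ v μ) : ∀ᵐ ω ∂μ, ∃ N, ∀ n, Ok K N ω n := by
  have := hμ.1
  obtain ⟨θ, hθ, hs⟩ := stage h hγ hB hμ
  have e : {ω : ℕ → V | ¬ ∃ N, ∀ n, Ok K N ω n} = ⋂ N, {ω | ∀ n, Ok K N ω n}ᶜ := by
    ext ω
    simp
  rw [ae_iff, e]
  exact null_of_density μ (MeasurableSet.iInter fun N => (measurableSet_ok N).compl)
    (ENNReal.ofReal_lt_one.2 hθ) fun p _ N => ⟨N, le_rfl,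
      (measure_mono (inter_subset_inter_left _ (iInter_subset _ N))).trans (hs N p)⟩

omit [MeasurableSpace V] [DiscreteMeasurableSpace V] [Countable V] in
theorem not_both {ω : ℕ → V} {N : ℕ} (hO : ∀ n, Ok K N ω n) {x y : V} (hx : x ∈ K) (hy : y ∈ K)
    (hxy : G.Adj x y) (h1 : ∃ᶠ n in atTop, ω n = x ∧ ω (n + 1) = y)
    (h2 : ∃ᶠ n in atTop, ω n = y ∧ ω (n + 1) = x) : False := by
  have he : (x, y) ∈ Ed G K K := mem_Ed.2 ⟨hx, hy, hxy⟩
  obtain ⟨a, ha, h1⟩ := frequently_atTop.1 h1 N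
  obtain ⟨b, hb, h2⟩ := frequently_atTop.1 h2 (a + 1)
  have s := (Ok.sign (n0 := a + 1) (n := b) (fun k k1 k2 => hO b k (by omega) k2) hb he).2
  have nb := hO (b + 1) b (by omega) (Nat.lt_succ_self b)
  simp only [Bk, h2.1, h2.2, hx, hy, true_and, cross_anti ω b x y] at nb
  rcases moves (hO (a + 1) a ha (Nat.lt_succ_self a)) he with m | m | m
  · simp only at m s
    omega
  · exact hxy.ne (h1.1.symm.trans m.1)
  · exact m.1 h1

end Blocks

end Pool.Agent.MP_856411_pr.OW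

end

section

open MeasureTheory Set Filter Topology
open scoped ENNReal

namespace Pool.Agent.MP_856411_pr.OW

variable {V : Type} {G : SimpleGraph V} {nb : V → Finset V} {D : ℕ} {γ : ℝ} {v : V}
  [DecidableEq V]

/-- conditional probability of the step from `x` to `y` -/
noncomputable def qq (G : SimpleGraph V) (γ : ℝ) (x y : V) (ω : ℕ → V) (k : ℕ) : ℝ :=
  if ω k = x then trans G γ ω k y else 0

/-- number of visits -/
def vis (x : V) (ω : ℕ → V) (n : ℕ) : ℕ := ∑ k ∈ Finset.range n, if ω k = x then 1 else 0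

theorem vis_succ (x : V) (ω : ℕ → V) (n : ℕ) :
    vis x ω (n + 1) = vis x ω n + if ω n = x then 1 else 0 := Finset.sum_range_succ _ _

theorem cross_vis (x z : V) (ω : ℕ → V) (n : ℕ) :
    cross ω n x z ≤ vis x ω n ∧ -(vis x ω (n + 1) : ℤ) ≤ cross ω n x z := by
  induction n with
  | zero => simp [cross_zero]
  | succ n ih =>
    rw [cross_succ, vis_succ x ω (n + 1)]
    rw [vis_succ x ω n] at ih ⊢
    by_cases a : ω n = x <;> by_cases b : ω (n + 1) = x <;> simp only [a, b] at ih ⊢ <;>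
      push_cast at ih ⊢ <;> split_ifs <;> first | omega | tauto

theorem sum_vis (x : V) (ω : ℕ → V) (g : ℕ → ℝ) (n : ℕ) :
    ∑ k ∈ Finset.range n, (if ω k = x then g (vis x ω k) else 0) =
      ∑ j ∈ Finset.range (vis x ω n), g j := by
  induction n with
  | zero => simp [vis]
  | succ n ih =>
    rw [Finset.sum_range_succ, ih, vis_succ]
    split_ifs
    · rw [Finset.sum_range_succ]
    · simp

theorem vis_tendsto {x : V} {ω : ℕ → V} (h : ∃ᶠ k in atTop, ω k = x) :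
    Tendsto (vis x ω) atTop atTop := by
  have hm : Monotone (vis x ω) := monotone_nat_of_le_succ fun n => by
    rw [vis_succ]
    omega
  refine tendsto_atTop_atTop_of_monotone hm fun b => ?_
  induction b with
  | zero => exact ⟨0, Nat.zero_le _⟩
  | succ b ih =>
    obtain ⟨a, ha⟩ := ih
    obtain ⟨k, hk, h⟩ := frequently_atTop.1 h a
    exact ⟨k + 1, by rw [vis_succ, if_pos h]; exact Nat.succ_le_succ (ha.trans (hm hk))⟩

theorem qq_nonneg (h : Ctx G nb D) (x y : V) (ω : ℕ → V) (k : ℕ) : 0 ≤ qq G γ x y ω k := by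
  unfold qq
  split_ifs
  exacts [h.trans_nonneg _ _ _ _, le_rfl]

theorem not_summable (h : Ctx G nb D) {x y : V} {ω : ℕ → V} (hx : ∃ᶠ k in atTop, ω k = x)
    {δ : ℝ} (hδ : 0 < δ)
    (hq : ∀ᶠ k in atTop, ω k = x → δ / ((vis x ω k : ℝ) + 2) ≤ trans G γ ω k y) :
    Tendsto (fun n => ∑ k ∈ Finset.range n, qq G γ x y ω k) atTop atTop := by
  rw [← not_summable_iff_tendsto_nat_atTop_of_nonneg (qq_nonneg h x y ω)]
  intro hs
  let g : ℕ → ℝ := fun j => δ / ((j : ℝ) + 2)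
  have hg : ∀ j, 0 ≤ g j := fun j => by positivity
  have h1 : Summable fun k => if ω k = x then g (vis x ω k) else 0 := by
    refine Summable.of_norm_bounded_eventually_nat hs (hq.mono fun k hk => ?_)
    unfold qq
    split_ifs with a
    · rw [Real.norm_of_nonneg (hg _)]
      exact hk a
    · simp
  have h2 : ¬ Summable g := fun q => by
    have := (summable_nat_add_iff 2).not.2 Real.not_summable_natCast_inv
    refine this ((q.mul_left δ⁻¹).congr fun j => ?_)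
    simp only [g]
    push_cast
    field_simp
  have h3 := ((not_summable_iff_tendsto_nat_atTop_of_nonneg hg).1 h2).comp (vis_tendsto hx)
  refine (not_summable_iff_tendsto_nat_atTop_of_nonneg fun k => ?_).2 (h3.congr fun n => ?_) h1
  · split_ifs
    exacts [hg _, le_rfl]
  · exact (sum_vis x ω g n).symm

theorem trans_lower (h : Ctx G nb D) (hγ : 0 < γ) {x y : V} (hxy : G.Adj x y) {ω : ℕ → V} {k : ℕ}
    (hx : ω k = x) : |cross ω k x y| ≤ (vis x ω k + 1 : ℕ) ∧
      weight γ (cross ω k x y) / (D * ((vis x ω k : ℝ) + 2) ^ γ) ≤ trans G γ ω k y := by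
  have h1 : ∀ z, |cross ω k x z| ≤ (vis x ω k + 1 : ℕ) := fun z => by
    have := cross_vis x z ω k
    rw [vis_succ, if_pos hx] at this
    rw [abs_le]
    omega
  refine ⟨h1 y, ?_⟩
  subst hx
  rw [h.trans_of_mem γ ω k ((h.mem _ _).2 hxy)]
  refine div_le_div_of_nonneg_left (weight_pos _ _).le (h.tot_pos _ _ _) ?_
  refine (Finset.sum_le_card_nsmul _ _ _ fun z _ => weight_le hγ (h1 z)).trans ?_
  rw [nsmul_eq_mul]
  push_cast
  rw [add_assoc, one_add_one_eq_two]
  exact mul_le_mul_of_nonneg_right (by exact_mod_cast h.card _) (by positivity)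

theorem div_half (h : Ctx G nb D) (hγ : 0 < γ) (h2 : γ ≤ 1 / 2) {x y : V} (hxy : G.Adj x y)
    {ω : ℕ → V} (hx : ∃ᶠ k in atTop, ω k = x) :
    Tendsto (fun n => ∑ k ∈ Finset.range n, qq G γ x y ω k) atTop atTop := by
  have hD : (0 : ℝ) < D := by exact_mod_cast h.one_le x
  refine not_summable h hx (inv_pos.2 hD) (Eventually.of_forall fun k hk => ?_)
  obtain ⟨a, b⟩ := trans_lower h hγ hxy hk
  refine le_trans ?_ b
  have h1 := le_weight hγ a
  push_cast at h1
  rw [add_assoc, one_add_one_eq_two] at h1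
  set t := (vis x ω k : ℝ) + 2
  have ht : 1 ≤ t := by linarith [Nat.cast_nonneg (α := ℝ) (vis x ω k)]
  have ht0 : 0 < t := by linarith
  have h3 : t ^ γ * t ^ γ ≤ t := by
    rw [← Real.rpow_add ht0]
    exact (Real.rpow_le_rpow_of_exponent_le ht (by linarith)).trans_eq (Real.rpow_one t)
  refine le_trans ?_ (div_le_div_of_nonneg_right h1 (by positivity))
  have h4 : 0 < t ^ γ := by positivity
  rw [Real.rpow_neg ht0.le, div_le_div_iff₀ ht0 (by positivity)]
  field_simp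
  nlinarith

theorem div_one (h : Ctx G nb D) (hγ : 0 < γ) (h2 : γ ≤ 1) {x y : V} (hxy : G.Adj x y)
    {ω : ℕ → V} (hx : ∃ᶠ k in atTop, ω k = x)
    (h3 : ¬ ∃ᶠ n in atTop, ω n = x ∧ ω (n + 1) = y)
    (h4 : ¬ ∃ᶠ n in atTop, ω n = y ∧ ω (n + 1) = x) :
    Tendsto (fun n => ∑ k ∈ Finset.range n, qq G γ x y ω k) atTop atTop := by
  have hD : (0 : ℝ) < D := by exact_mod_cast h.one_le x
  obtain ⟨N, hN⟩ := eventually_atTop.1 ((not_frequently.1 h3).and (not_frequently.1 h4))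
  have hc : ∀ k, N ≤ k → cross ω k x y = cross ω N x y := fun k hk => by
    induction k, hk using Nat.le_induction with
    | base => rfl
    | succ k hk ih => rw [cross_succ_other (hN k hk).1 (hN k hk).2, ih]
  refine not_summable h hx (div_pos (weight_pos γ (cross ω N x y)) hD) ?_
  filter_upwards [eventually_ge_atTop N] with k hk hkx
  refine le_trans ?_ (trans_lower h hγ hxy hkx).2
  have ht : (1 : ℝ) ≤ (vis x ω k : ℝ) + 2 := by linarith [Nat.cast_nonneg (α := ℝ) (vis x ω k)]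
  rw [hc k hk, div_div]
  refine div_le_div_of_nonneg_left (weight_pos _ _).le (by positivity)
    (mul_le_mul_of_nonneg_left ?_ hD.le)
  exact (Real.rpow_le_rpow_of_exponent_le ht h2).trans_eq (Real.rpow_one _)

variable [MeasurableSpace V] [DiscreteMeasurableSpace V] [Countable V]

theorem borel (h : Ctx G nb D) {μ : Measure (ℕ → V)} (hμ : IsWalkLaw G γ v μ) (x y : V) :
    ∀ᵐ ω ∂μ, Tendsto (fun n => ∑ k ∈ Finset.range n, qq G γ x y ω k) atTop atTop →
      ∃ᶠ n in atTop, ω n = x ∧ ω (n + 1) = y := by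
  classical
  have := hμ.1
  have qc : ∀ {n k ω ω'}, ω' ∈ cyl n ω → k ≤ n → qq G γ x y ω' k = qq G γ x y ω k :=
    fun {n k ω ω'} hω hk => by rw [qq, qq, trans_congr G γ ω ω' k (cyl_anti hk ω hω), hω k hk]
  let A : ℕ → Set (ℕ → V) := fun N => {ω | ∀ M : ℕ, ∃ n, (M : ℝ) ≤
    ∑ k ∈ Finset.range n, qq G γ x y ω k} ∩ {ω | ∀ k, N ≤ k → ¬ (ω k = x ∧ ω (k + 1) = y)}
  have hA : ∀ N, MeasurableSet (A N) := fun N => by
    simp only [A, Set.ofPred_forall, Set.ofPred_exists]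
    refine (MeasurableSet.iInter fun M => MeasurableSet.iUnion fun n =>
      measurableSet_of_adapted n _ fun ω hω ω' q => ?_).inter (MeasurableSet.iInter fun k =>
      MeasurableSet.iInter fun _ => measurableSet_of_adapted (k + 1) _ fun ω hω ω' q => ?_)
    · exact (show (M : ℝ) ≤ _ from hω).trans_eq
        (Finset.sum_congr rfl fun k hk => (qc q (Finset.mem_range.1 hk).le).symm)
    · change ¬ _
      rw [q k (Nat.le_succ k), q (k + 1) le_rfl]
      exact hω
  have null : ∀ N, μ (A N) = 0 := fun N => by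
    refine null_of_density μ (hA N) (θ := ENNReal.ofReal (1 / 2))
      (ENNReal.ofReal_lt_one.2 (by norm_num)) fun p _ M => ⟨max M N, le_max_left _ _, ?_⟩
    set n0 := max M N
    let S : ℕ → (ℕ → V) → ℝ := fun n ω => ∑ k ∈ Finset.Ico n0 n, qq G γ x y ω k
    let P : ℕ → (ℕ → V) → Prop := fun n ω => ∀ k, n0 ≤ k → k < n → ¬ (ω k = x ∧ ω (k + 1) = y)
    have Pc : ∀ {n ω ω'}, ω' ∈ cyl n ω → P n ω → P n ω' := fun {n ω ω'} q hP k k1 k2 => by
      rw [q k k2.le, q (k + 1) k2]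
      exact hP k k1 k2
    have Sc : ∀ {n ω ω'}, ω' ∈ cyl n ω → S n ω' = S n ω := fun {n ω ω'} q =>
      Finset.sum_congr rfl fun k hk => qc q (Finset.mem_Ico.1 hk).2.le
    let f : ℕ → (ℕ → V) → ℝ := fun n ω => if P n ω then min 1 (Real.exp (S n ω) / 2) else 0
    have f0 : ∀ n ω, 0 ≤ f n ω := fun n ω => by
      simp only [f]
      split_ifs
      exacts [by positivity, le_rfl]
    have key := hμ.step.supermart (trans_congr G γ) (h.trans_nonneg γ) (fun ω n => nb (ω n))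
      (fun ω n _ hx => h.trans_of_not_mem γ ω n hx) f f0 (fun n ω ω' hω => ?_) n0 p
      (fun n hn ω _ _ => ?_) (hA N) (L := 1) (fun ω hω => ?_)
    · rw [ENNReal.ofReal_one, one_mul] at key
      refine key.trans (mul_le_mul_left (ENNReal.ofReal_le_ofReal ?_) _)
      simp only [f, S, Finset.Ico_self, Finset.sum_empty, Real.exp_zero]
      split_ifs
      exacts [min_le_right _ _, by norm_num]
    · simp only [f, Sc hω, show P n ω' ↔ P n ω from ⟨Pc (mem_cyl_symm hω), Pc hω⟩]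
    · by_cases hP : P n ω
      swap
      · refine (Finset.sum_eq_zero fun z _ => ?_).trans_le (f0 n ω)
        simp only [f]
        rw [if_neg fun q : P (n + 1) _ => hP (Pc (mem_cyl_symm (ext1_mem ω n z))
          fun k k1 k2 => q k k1 (by omega)), mul_zero]
      set q := qq G γ x y ω n with hq
      set B := min 1 (Real.exp (S n ω + q) / 2) with hB
      have h1 : ∀ z ∈ nb (ω n), trans G γ ω n z * f (n + 1) (ext1 ω n z) ≤
          trans G γ ω n z * B - if z = y then q * B else 0 := fun z _ => by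
        have hm := ext1_mem ω n z
        by_cases a : ω n = x ∧ z = y
        · simp only [f]
          rw [if_neg fun b : P (n + 1) _ => b n hn (Nat.lt_succ_self n) (by simpa using a),
            if_pos a.2, hq, qq, if_pos a.1, a.2]
          simp
        · have : (if z = y then q * B else 0) = 0 := by
            split_ifs with b
            · rw [hq, qq, if_neg fun c => a ⟨c, b⟩, zero_mul]
            · rfl
          rw [this, sub_zero]
          refine mul_le_mul_of_nonneg_left ?_ (h.trans_nonneg _ _ _ _)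
          simp only [f]
          split_ifs
          · rw [show S (n + 1) (ext1 ω n z) = S n ω + q by
              rw [← Sc hm, hq, ← qc hm le_rfl]
              exact Finset.sum_Ico_succ_top hn _]
          · positivity
      refine (Finset.sum_le_sum h1).trans ?_
      have h2 : (if y ∈ nb (ω n) then q * B else 0) = q * B := by
        split_ifs with b
        · rfl
        · rw [hq, qq, h.trans_of_not_mem γ ω n b, ite_self, zero_mul]
      rw [Finset.sum_sub_distrib, ← Finset.sum_mul, h.trans_sum, Finset.sum_ite_eq', h2]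
      have q0 : 0 ≤ q := qq_nonneg h x y ω n
      have q1 : q ≤ 1 := by
        rw [hq, qq]
        split_ifs
        exacts [h.trans_le_one _ _ _ _, zero_le_one]
      have B0 : 0 ≤ B := by positivity
      have B1 : B ≤ 1 := min_le_left _ _
      have B2 : B ≤ Real.exp (S n ω + q) / 2 := min_le_right _ _
      simp only [f, if_pos hP]
      refine le_min (by nlinarith) ?_
      have e1 := Real.add_one_le_exp (-q)
      have e2 : Real.exp (S n ω) = Real.exp (-q) * Real.exp (S n ω + q) := by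
        rw [← Real.exp_add]
        congr 1
        ring
      nlinarith [mul_le_mul e1 B2 B0 (Real.exp_pos _).le]
    · obtain ⟨M', hM'⟩ := exists_nat_ge (∑ k ∈ Finset.range n0, qq G γ x y ω k + 1)
      obtain ⟨n, hn⟩ := hω.1.1 M'
      refine tendsto_const_nhds.congr' ?_
      filter_upwards [eventually_ge_atTop n, eventually_ge_atTop n0] with m h1 h2
      have h3 : ∑ k ∈ Finset.range n, qq G γ x y ω k ≤ ∑ k ∈ Finset.range m, qq G γ x y ω k :=
        Finset.sum_le_sum_of_subset_of_nonneg (Finset.range_mono h1)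
          fun k _ _ => qq_nonneg h x y ω k
      have h4 : 1 ≤ S m ω := by
        simp only [S, Finset.sum_Ico_eq_sub _ h2]
        linarith
      have h5 : P m ω := fun k k1 _ => hω.1.2 k ((le_max_right _ _).trans k1)
      simp only [f, if_pos h5]
      rw [min_eq_left (by linarith [Real.add_one_le_exp (S m ω)])]
  filter_upwards [ae_all_iff.2 fun N => measure_eq_zero_iff_ae_notMem.1 (null N)] with ω hω hT
  by_contra hF
  obtain ⟨N, hN⟩ := eventually_atTop.1 (not_frequently.1 hF)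
  exact hω N ⟨fun M => (hT.eventually_ge_atTop (M : ℝ)).exists, hN⟩

end Pool.Agent.MP_856411_pr.OW

end

section

open MeasureTheory Set Filter Topology

namespace Pool.Agent.MP_856411_pr.OW

variable {V : Type} {G : SimpleGraph V} {v : V}

theorem bridge_back {ω : ℕ → V} (hv : ∀ n, Valid G v ω n) {x y : V} (hb : G.IsBridge s(x, y))
    (h : ∃ᶠ n in atTop, ω n = x ∧ ω (n + 1) = y) : ∃ᶠ n in atTop, ω n = y ∧ ω (n + 1) = x := by
  by_contra hc
  obtain ⟨N, hN⟩ := eventually_atTop.1 (not_frequently.1 hc)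
  obtain ⟨a, ha, h1⟩ := frequently_atTop.1 h N
  obtain ⟨b, hab, h2⟩ := frequently_atTop.1 h (a + 1)
  have key : ∀ k, a + 1 ≤ k → ¬ (G.deleteEdges {s(x, y)}).Reachable x (ω k) := fun k hk => by
    induction k, hk using Nat.le_induction with
    | base => exact h1.2 ▸ hb
    | succ k hk ih =>
      intro q
      by_cases e : s(ω k, ω (k + 1)) = s(x, y)
      · rcases Sym2.eq_iff.1 e with e | e
        · exact ih (e.1 ▸ .refl _)
        · exact hN k (by omega) e
      · exact ih (q.trans (SimpleGraph.Adj.reachable (SimpleGraph.deleteEdges_adj.2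
          ⟨(hv (k + 1)).2 k (Nat.lt_succ_self k), e⟩)).symm)
  exact key b hab (h2.1 ▸ .refl _)

theorem main [Finite V] [Nontrivial V] [MeasurableSpace V] [DiscreteMeasurableSpace V]
    (hG : G.Connected) {γ : ℝ} (hγ : 0 < γ) :
    (∃ μ, IsWalkLaw G γ v μ) ∧ ∀ μ, IsWalkLaw G γ v μ → ∀ᵐ ω ∂μ, ∀ x y, G.Adj x y →
      (γ ≤ 1 → (∃ᶠ n in atTop, ω n = x ∧ ω (n + 1) = y) ∨
        ∃ᶠ n in atTop, ω n = y ∧ ω (n + 1) = x) ∧
      (γ ≤ 1 / 2 ∨ γ ≤ 1 ∧ G.IsBridge s(x, y) → (∃ᶠ n in atTop, ω n = x ∧ ω (n + 1) = y) ∧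
        ∃ᶠ n in atTop, ω n = y ∧ ω (n + 1) = x) ∧
      (1 / 2 < γ ∧ ¬ G.IsBridge s(x, y) → ¬ ((∃ᶠ n in atTop, ω n = x ∧ ω (n + 1) = y) ∧
        ∃ᶠ n in atTop, ω n = y ∧ ω (n + 1) = x)) := by
  classical
  have := Fintype.ofFinite V
  have h : Ctx G (fun x => G.neighborFinset x) (Fintype.card V) :=
    ⟨fun x y => by simp, fun x => Finset.card_le_univ _, fun x => by
      obtain ⟨y, hy⟩ := hG.preconnected.exists_adj_of_nontrivial x
      exact ⟨y, by simpa using hy⟩⟩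
  refine ⟨h.exists_law γ v, fun μ hμ => ?_⟩
  have a3 : ∀ x y, ∀ᵐ ω ∂μ, G.Adj x y → 1 / 2 < γ ∧ ¬ G.IsBridge s(x, y) →
      ¬ ((∃ᶠ n in atTop, ω n = x ∧ ω (n + 1) = y) ∧ ∃ᶠ n in atTop, ω n = y ∧ ω (n + 1) = x) := by
    intro x y
    by_cases q : G.Adj x y ∧ 1 / 2 < γ ∧ ¬ G.IsBridge s(x, y)
    · obtain ⟨K, r, hB, hx, hy⟩ := exists_blk hG q.1 q.2.2
      filter_upwards [ae_ok h q.2.1 hB hμ] with ω ⟨N, hN⟩ _ _ hF
      exact not_both hN hx hy q.1 hF.1 hF.2
    · exact Eventually.of_forall fun ω a b => absurd ⟨a, b⟩ q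
  filter_upwards [hμ.ae_valid, ae_all_iff.2 fun x => ae_all_iff.2 fun y => borel h hμ x y,
    ae_all_iff.2 fun x => ae_all_iff.2 fun y => a3 x y] with ω hv hb h3 x y hxy
  have one : γ ≤ 1 → ∀ a b, G.Adj a b → (∃ᶠ n in atTop, ω n = a) →
      (∃ᶠ n in atTop, ω n = a ∧ ω (n + 1) = b) ∨ ∃ᶠ n in atTop, ω n = b ∧ ω (n + 1) = a := by
    intro h1 a b hab ha
    by_contra q
    rw [not_or] at q
    exact q.1 (hb a b (div_one h hγ h1 hab ha q.1 q.2))
  have all : γ ≤ 1 → ∀ a, ∃ᶠ n in atTop, ω n = a := fun h1 a => by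
    obtain ⟨z, hz⟩ := frequently_exists.1
      (Frequently.of_forall (f := atTop) fun n : ℕ => (⟨ω n, rfl⟩ : ∃ z, ω n = z))
    obtain ⟨p⟩ := hG.preconnected z a
    induction p with
    | nil => exact hz
    | cons e _ ih =>
      refine ih ((one h1 _ _ e hz).elim (fun q => ?_) fun q => q.mono fun _ q => q.1)
      exact (tendsto_add_atTop_nat 1).frequently (q.mono fun _ q => q.2)
  refine ⟨fun h1 => one h1 x y hxy (all h1 x), ?_, h3 x y hxy⟩
  rintro (h1 | ⟨h1, h2⟩)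
  · exact ⟨hb x y (div_half h hγ h1 hxy (all (by linarith) x)),
      hb y x (div_half h hγ h1 hxy.symm (all (by linarith) y))⟩
  · rcases one h1 x y hxy (all h1 x) with q | q
    · exact ⟨q, bridge_back hv h2 q⟩
    · exact ⟨bridge_back hv (Sym2.eq_swap ▸ h2) q, q⟩

end Pool.Agent.MP_856411_pr.OW

end
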