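import Mathlib

open MeasureTheory Set Filter Topology ProbabilityTheory
open scoped ENNReal

namespace Pool.Agent.MP_856411_pr

variable {V : Type}

/-- cylinder of paths that agree with `p` up to time `n` -/
def cyl (n : ℕ) (p : ℕ → V) : Set (ℕ → V) := {ω | ∀ k ≤ n, ω k = p k}

theorem self_mem_cyl (n : ℕ) (p : ℕ → V) : p ∈ cyl n p := fun _ _ => rfl

theorem cyl_anti {n m : ℕ} (h : n ≤ m) (p : ℕ → V) : cyl m p ⊆ cyl n p :=
  fun _ hω k hk => hω k (hk.trans h)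

theorem cyl_eq_of_mem {n : ℕ} {p ω : ℕ → V} (h : ω ∈ cyl n p) : cyl n ω = cyl n p := by
  ext z
  exact ⟨fun hz k hk => (hz k hk).trans (h k hk), fun hz k hk => (hz k hk).trans (h k hk).symm⟩

theorem mem_cyl_symm {n : ℕ} {p ω : ℕ → V} (h : ω ∈ cyl n p) : p ∈ cyl n ω :=
  fun k hk => (h k hk).symm

/-- the path extended by a prescribed value at time `n + 1` -/
def ext1 (ω : ℕ → V) (n : ℕ) (x : V) : ℕ → V := fun k => if k ≤ n then ω k else x

theorem ext1_mem (ω : ℕ → V) (n : ℕ) (x : V) : ext1 ω n x ∈ cyl n ω :=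
  fun k hk => by simp [ext1, hk]

@[simp] theorem ext1_succ (ω : ℕ → V) (n : ℕ) (x : V) : ext1 ω n x (n + 1) = x := by
  simp [ext1]

@[simp] theorem ext1_self (ω : ℕ → V) (n : ℕ) (x : V) : ext1 ω n x n = ω n := by
  simp [ext1]

theorem mem_cyl_ext1 {ω z : ℕ → V} {n : ℕ} {x : V} :
    z ∈ cyl (n + 1) (ext1 ω n x) ↔ z ∈ cyl n ω ∧ z (n + 1) = x := by
  constructor
  · intro h
    exact ⟨fun k hk => (h k (hk.trans (Nat.le_succ n))).trans (ext1_mem ω n x k hk),
      (h _ le_rfl).trans (ext1_succ ω n x)⟩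
  · rintro ⟨h1, h2⟩ k hk
    rcases Nat.lt_or_eq_of_le hk with h | h
    · have hk' : k ≤ n := Nat.lt_succ_iff.1 h
      rw [h1 k hk', ext1_mem ω n x k hk']
    · rw [h, h2, ext1_succ]

variable [MeasurableSpace V] [DiscreteMeasurableSpace V]

theorem measurableSet_cyl (n : ℕ) (p : ℕ → V) : MeasurableSet (cyl n p) := by
  have : cyl n p = ⋂ k, ⋂ _ : k ≤ n, (fun ω : ℕ → V => ω k) ⁻¹' {p k} := by
    ext ω; simp [cyl]
  rw [this]
  exact MeasurableSet.iInter fun k => MeasurableSet.iInter fun _ =>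
    measurable_pi_apply k (MeasurableSet.of_discrete)

variable [Countable V]

theorem exists_cyl_partition (n : ℕ) (U : Set (ℕ → V)) (hU : ∀ ω ∈ U, cyl n ω ⊆ U) :
    ∃ T : Set (ℕ → V), T.Countable ∧ T ⊆ U ∧ T.PairwiseDisjoint (cyl n) ∧ U = ⋃ p ∈ T, cyl n p := by
  let r : (ℕ → V) → (ℕ → V) := fun ω k => ω (min k n)
  have hr : ∀ ω, r ω ∈ cyl n ω := fun ω k hk => by simp [r, min_eq_left hk]
  refine ⟨r '' U, ?_, ?_, ?_, ?_⟩
  · have h1 : r '' U ⊆ range fun (f : Fin (n + 1) → V) (k : ℕ) =>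
        f ⟨min k n, Nat.lt_succ_of_le (min_le_right _ _)⟩ := by
      rintro _ ⟨ω, -, rfl⟩
      exact ⟨fun i => ω i, rfl⟩
    exact (countable_range _).mono h1
  · rintro _ ⟨ω, hω, rfl⟩
    exact hU ω hω (hr ω)
  · rintro _ ⟨ω, -, rfl⟩ _ ⟨ω', -, rfl⟩ hne
    refine Set.disjoint_left.2 fun z hz hz' => hne ?_
    funext k
    have h1 := hz (min k n) (min_le_right _ _)
    have h2 := hz' (min k n) (min_le_right _ _)
    simp only [r, min_assoc, min_self] at h1 h2 ⊢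
    rw [← h1, ← h2]
  · ext ω
    constructor
    · intro hω
      exact mem_biUnion (mem_image_of_mem r hω) (mem_cyl_symm (hr ω))
    · intro hω
      obtain ⟨_, ⟨z, hz, rfl⟩, h⟩ := mem_iUnion₂.1 hω
      exact hU z hz (cyl_eq_of_mem (hr z) ▸ h)

theorem measurableSet_of_adapted (n : ℕ) (U : Set (ℕ → V)) (hU : ∀ ω ∈ U, cyl n ω ⊆ U) :
    MeasurableSet U := by
  obtain ⟨T, h1, -, -, h4⟩ := exists_cyl_partition n U hU
  rw [h4]
  exact MeasurableSet.biUnion h1 fun p _ => measurableSet_cyl n p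

theorem measure_le_of_cyl (n : ℕ) (U : Set (ℕ → V)) (hU : ∀ ω ∈ U, cyl n ω ⊆ U)
    (ν₁ ν₂ : Measure (ℕ → V)) (h : ∀ ω ∈ U, ν₁ (cyl n ω) ≤ ν₂ (cyl n ω)) : ν₁ U ≤ ν₂ U := by
  obtain ⟨T, h1, h2, h3, h4⟩ := exists_cyl_partition n U hU
  rw [h4, measure_biUnion h1 h3 fun p _ => measurableSet_cyl n p,
    measure_biUnion h1 h3 fun p _ => measurableSet_cyl n p]
  exact ENNReal.tsum_le_tsum fun p => h p.1 (h2 p.2)

theorem measurable_of_adapted {β : Type} [MeasurableSpace β] (n : ℕ) (f : (ℕ → V) → β)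
    (hf : ∀ ω ω', ω' ∈ cyl n ω → f ω' = f ω) : Measurable f := fun s _ =>
  measurableSet_of_adapted n _ fun ω hω ω' hω' => by
    simp only [mem_preimage] at hω ⊢
    rw [hf ω ω' hω']; exact hω

theorem ae_cyl_ne_zero (μ : Measure (ℕ → V)) : ∀ᵐ ω ∂μ, ∀ n, μ (cyl n ω) ≠ 0 := by
  rw [ae_all_iff]
  intro n
  rw [ae_iff]
  refine le_antisymm ?_ zero_le
  refine (measure_le_of_cyl n _ (fun ω hω ω' hω' => ?_) μ 0 fun ω hω => ?_)
  · simp only [ne_eq, not_not, mem_setOf_eq] at hω ⊢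
    rw [cyl_eq_of_mem hω']; exact hω
  · simp only [ne_eq, not_not, mem_setOf_eq] at hω
    simp [hω]

/-- density lemma on path space -/
theorem null_of_density (μ : Measure (ℕ → V)) [IsFiniteMeasure μ] {A : Set (ℕ → V)}
    (hA : MeasurableSet A) {θ : ℝ≥0∞} (hθ : θ < 1)
    (h : ∀ ω ∈ A, ∀ N, ∃ n ≥ N, μ (A ∩ cyl n ω) ≤ θ * μ (cyl n ω)) : μ A = 0 := by
  letI : TopologicalSpace V := ⊥
  haveI : DiscreteTopology V := ⟨rfl⟩
  haveI : BorelSpace V := ⟨by
    rw [borel_eq_top_of_discrete]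
    exact eq_top_iff.2 fun s _ => MeasurableSet.of_discrete⟩
  by_contra hne
  have hθt : θ ≠ ∞ := hθ.ne_top
  -- choose an open superset with small excess
  obtain ⟨ε, hε, hεA⟩ : ∃ ε : ℝ≥0∞, ε ≠ 0 ∧ θ * (μ A + ε) < μ A := by
    have h1 : θ * μ A < μ A := by
      calc θ * μ A < 1 * μ A := ENNReal.mul_lt_mul_left hne (measure_ne_top _ _) hθ
        _ = μ A := one_mul _
    obtain ⟨ε, hε, h2⟩ := ENNReal.lt_iff_exists_add_pos_lt.1 h1
    refine ⟨ε, by exact_mod_cast hε.ne', lt_of_le_of_lt ?_ h2⟩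
    rw [mul_add]
    exact add_le_add_right (mul_le_of_le_one_left' hθ.le) _
  obtain ⟨U, hAU, hUo, hU⟩ := A.exists_isOpen_lt_add (measure_ne_top μ A) hε
  let P : ℕ → (ℕ → V) → Prop := fun n ω => cyl n ω ⊆ U ∧ μ (A ∩ cyl n ω) ≤ θ * μ (cyl n ω)
  have hP : ∀ n m ω ω', n ≤ m → ω' ∈ cyl m ω → (P n ω' ↔ P n ω) := fun n m ω ω' hnm h => by
    simp only [P, cyl_eq_of_mem (cyl_anti hnm ω h)]
  let W : ℕ → Set (ℕ → V) := fun n => {ω | P n ω ∧ ∀ k < n, ¬ P k ω}
  have hW : ∀ n, ∀ ω ∈ W n, cyl n ω ⊆ W n := fun n ω hω ω' hω' =>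
    ⟨(hP n n ω ω' le_rfl hω').2 hω.1, fun k hk hk' => hω.2 k hk ((hP k n ω ω' hk.le hω').1 hk')⟩
  have hWm : ∀ n, MeasurableSet (W n) := fun n => measurableSet_of_adapted n _ (hW n)
  have hWd : Pairwise (Function.onFun Disjoint W) := by
    intro n m hnm
    refine Set.disjoint_left.2 fun ω h1 h2 => ?_
    rcases lt_or_gt_of_ne hnm with h | h
    · exact h2.2 n h h1.1
    · exact h1.2 m h h2.1
  have hAW : A ⊆ ⋃ n, W n := by
    intro ω hω
    have h1 : ∃ N, cyl N ω ⊆ U := by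
      obtain ⟨I, u, hu, hIU⟩ := isOpen_pi_iff.1 hUo ω (hAU hω)
      refine ⟨I.sup id, fun z hz => hIU fun i hi => ?_⟩
      rw [hz i (Finset.le_sup (f := id) hi)]
      exact (hu i hi).2
    obtain ⟨N, hN⟩ := h1
    obtain ⟨n, hn, h2⟩ := h ω hω N
    have h3 : ∃ n, P n ω := ⟨n, (cyl_anti hn ω).trans hN, h2⟩
    classical
    exact mem_iUnion.2 ⟨Nat.find h3, Nat.find_spec h3, fun k hk => Nat.find_min h3 hk⟩
  have hWU : (⋃ n, W n) ⊆ U := iUnion_subset fun n ω hω => hω.1.1 (self_mem_cyl n ω)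
  have h1 : ∀ n, (μ.restrict A) (W n) ≤ (θ • μ) (W n) := fun n =>
    measure_le_of_cyl n _ (hW n) _ _ fun ω hω => by
      rw [Measure.restrict_apply (measurableSet_cyl n ω), inter_comm]
      exact hω.1.2
  have h2 : μ A ≤ θ * μ (⋃ n, W n) := by
    calc μ A = (μ.restrict A) (⋃ n, W n) := by
          rw [Measure.restrict_apply (MeasurableSet.iUnion hWm), inter_eq_right.2 hAW]
      _ = ∑' n, (μ.restrict A) (W n) := measure_iUnion hWd hWm
      _ ≤ ∑' n, (θ • μ) (W n) := ENNReal.tsum_le_tsum h1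
      _ = (θ • μ) (⋃ n, W n) := (measure_iUnion hWd hWm).symm
      _ = θ * μ (⋃ n, W n) := rfl
  exact absurd (h2.trans (mul_le_mul_right ((measure_mono hWU).trans hU.le) θ)) (not_le.2 hεA)

/-- a path measure with prescribed transition probabilities -/
def Step (q : (ℕ → V) → ℕ → V → ℝ) (μ : Measure (ℕ → V)) : Prop :=
  ∀ (n : ℕ) (p : ℕ → V), μ (cyl (n + 1) p) = μ (cyl n p) * ENNReal.ofReal (q p n (p (n + 1)))

theorem Step.supermart {q : (ℕ → V) → ℕ → V → ℝ} {μ : Measure (ℕ → V)} (hμ : Step q μ)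
    (hq : ∀ ω ω' n, ω' ∈ cyl n ω → q ω' n = q ω n) (hq0 : ∀ ω n x, 0 ≤ q ω n x)
    (nb : (ℕ → V) → ℕ → Finset V) (hnb : ∀ ω n x, x ∉ nb ω n → q ω n x = 0)
    (f : ℕ → (ℕ → V) → ℝ) (hf0 : ∀ n ω, 0 ≤ f n ω)
    (hf : ∀ n ω ω', ω' ∈ cyl n ω → f n ω' = f n ω) (n0 : ℕ) (p : ℕ → V)
    (hs : ∀ n ≥ n0, ∀ ω ∈ cyl n0 p, μ (cyl n ω) ≠ 0 →
      ∑ x ∈ nb ω n, q ω n x * f (n + 1) (ext1 ω n x) ≤ f n ω)
    {A : Set (ℕ → V)} (hA : MeasurableSet A) {L : ℝ}
    (hL : ∀ ω ∈ A ∩ cyl n0 p, Tendsto (fun n => f n ω) atTop (𝓝 L)) :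
    ENNReal.ofReal L * μ (A ∩ cyl n0 p) ≤ ENNReal.ofReal (f n0 p) * μ (cyl n0 p) := by
  let F : ℕ → (ℕ → V) → ℝ≥0∞ := fun n ω => ENNReal.ofReal (f n ω)
  have hFm : ∀ n, Measurable (F n) := fun n =>
    measurable_of_adapted n _ fun ω ω' h => by simp only [F, hf n ω ω' h]
  have hconst : ∀ n ω, ∫⁻ z in cyl n ω, F n z ∂μ = F n ω * μ (cyl n ω) := fun n ω => by
    rw [setLIntegral_congr_fun (measurableSet_cyl n ω) (g := fun _ => F n ω)
      (fun z hz => by simp only [F, hf n ω z hz]), setLIntegral_const]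
  have h1 : ∀ n ≥ n0, ∀ ω ∈ cyl n0 p,
      ∫⁻ z in cyl n ω, F (n + 1) z ∂μ ≤ ∫⁻ z in cyl n ω, F n z ∂μ := by
    intro n hn ω hω
    by_cases h0 : μ (cyl n ω) = 0
    · rw [setLIntegral_measure_zero _ _ h0]; exact zero_le
    have hu : cyl n ω = ⋃ x, cyl (n + 1) (ext1 ω n x) := by
      ext z
      simp only [mem_iUnion, mem_cyl_ext1]
      exact ⟨fun h => ⟨_, h, rfl⟩, fun ⟨_, h, _⟩ => h⟩
    have hd : Pairwise (Function.onFun Disjoint fun x => cyl (n + 1) (ext1 ω n x)) :=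
      fun x y hxy => Set.disjoint_left.2 fun z h1 h2 =>
        hxy ((mem_cyl_ext1.1 h1).2.symm.trans (mem_cyl_ext1.1 h2).2)
    rw [hconst n ω]
    conv_lhs => rw [hu, lintegral_iUnion (fun x => measurableSet_cyl _ _) hd]
    have h2 : ∀ x, ∫⁻ z in cyl (n + 1) (ext1 ω n x), F (n + 1) z ∂μ =
        ENNReal.ofReal (q ω n x * f (n + 1) (ext1 ω n x)) * μ (cyl n ω) := fun x => by
      rw [hconst, hμ, cyl_eq_of_mem (ext1_mem ω n x), hq _ _ _ (ext1_mem ω n x), ext1_succ,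
        ENNReal.ofReal_mul (hq0 _ _ _)]
      simp only [F]
      ring
    simp only [h2]
    rw [ENNReal.tsum_mul_right, tsum_eq_sum (s := nb ω n) (fun x hx => by simp [hnb ω n x hx]),
      ← ENNReal.ofReal_sum_of_nonneg (fun x _ => mul_nonneg (hq0 _ _ _) (hf0 _ _))]
    exact mul_le_mul_left (ENNReal.ofReal_le_ofReal (hs n hn ω hω h0)) _
  have h2 : ∀ n ≥ n0, ∫⁻ z in cyl n0 p, F n z ∂μ ≤ F n0 p * μ (cyl n0 p) := by
    intro n hn
    induction n, hn using Nat.le_induction with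
    | base => exact (hconst n0 p).le
    | succ n hn ih =>
      refine le_trans ?_ ih
      have := measure_le_of_cyl n (cyl n0 p) (fun ω hω => (cyl_anti hn ω).trans
        (cyl_eq_of_mem hω).subset) (μ.withDensity (F (n + 1))) (μ.withDensity (F n))
        (fun ω hω => by
          rw [withDensity_apply _ (measurableSet_cyl _ _), withDensity_apply _ (measurableSet_cyl _ _)]
          exact h1 n hn ω hω)
      rwa [withDensity_apply _ (measurableSet_cyl _ _),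
        withDensity_apply _ (measurableSet_cyl _ _)] at this
  have hAm : MeasurableSet (A ∩ cyl n0 p) := hA.inter (measurableSet_cyl _ _)
  calc ENNReal.ofReal L * μ (A ∩ cyl n0 p)
      = ∫⁻ z in A ∩ cyl n0 p, liminf (fun n => F n z) atTop ∂μ := by
        rw [setLIntegral_congr_fun hAm (g := fun _ => ENNReal.ofReal L)
          (fun z hz => (ENNReal.tendsto_ofReal (hL z hz)).liminf_eq), setLIntegral_const]
    _ ≤ ∫⁻ z in cyl n0 p, liminf (fun n => F n z) atTop ∂μ :=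
        lintegral_mono_set inter_subset_right
    _ ≤ liminf (fun n => ∫⁻ z in cyl n0 p, F n z ∂μ) atTop := lintegral_liminf_le hFm
    _ ≤ F n0 p * μ (cyl n0 p) :=
        liminf_le_of_frequently_le' ((eventually_ge_atTop n0).mono h2).frequently

theorem Step.lower {q : (ℕ → V) → ℕ → V → ℝ} {μ : Measure (ℕ → V)} (hμ : Step q μ)
    (p : ℕ → V) (n : ℕ) {ρ : ℝ} (hρ : 0 ≤ ρ) (j : ℕ)
    (h : ∀ k, n ≤ k → k < n + j → ρ ≤ q p k (p (k + 1))) :
    ENNReal.ofReal (ρ ^ j) * μ (cyl n p) ≤ μ (cyl (n + j) p) := by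
  induction j with
  | zero => simp
  | succ j ih =>
    rw [← add_assoc, hμ, pow_succ, ENNReal.ofReal_mul (pow_nonneg hρ _), mul_right_comm]
    exact mul_le_mul' (ih fun k h1 h2 => h k h1 (by omega))
      (ENNReal.ofReal_le_ofReal (h _ (by omega) (by omega)))

theorem Step.singleton_null {q : (ℕ → V) → ℕ → V → ℝ} {μ : Measure (ℕ → V)}
    [IsProbabilityMeasure μ] (hμ : Step q μ) (p : ℕ → V) (h1 : ∀ n, q p n (p (n + 1)) ≤ 1)
    (hs : ¬ Summable fun n => 1 - q p n (p (n + 1))) : μ {p} = 0 := by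
  have h2 : ∀ n, μ (cyl n p) ≤
      ENNReal.ofReal (Real.exp (-∑ k ∈ Finset.range n, (1 - q p k (p (k + 1))))) := by
    intro n
    induction n with
    | zero => simpa using prob_le_one
    | succ n ih =>
      rw [hμ, Finset.sum_range_succ, neg_add, Real.exp_add,
        ENNReal.ofReal_mul (Real.exp_pos _).le]
      refine mul_le_mul' ih (ENNReal.ofReal_le_ofReal ?_)
      have := Real.add_one_le_exp (-(1 - q p n (p (n + 1))))
      linarith
  have h3 := (not_summable_iff_tendsto_nat_atTop_of_nonneg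
    (fun n => sub_nonneg.2 (h1 n))).1 hs
  have h4 := ENNReal.tendsto_ofReal (Real.tendsto_exp_neg_atTop_nhds_zero.comp h3)
  rw [ENNReal.ofReal_zero] at h4
  refine le_antisymm (ge_of_tendsto' h4 fun n => le_trans (measure_mono ?_) (h2 n)) zero_le
  exact singleton_subset_iff.2 (self_mem_cyl n p)

theorem exists_step (q : (ℕ → V) → ℕ → V → ℝ)
    (hq : ∀ ω ω' n, ω' ∈ cyl n ω → q ω' n = q ω n) (hq0 : ∀ ω n x, 0 ≤ q ω n x)
    (nb : (ℕ → V) → ℕ → Finset V) (hnb : ∀ ω n x, x ∉ nb ω n → q ω n x = 0)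
    (hsum : ∀ ω n, ∑ x ∈ nb ω n, q ω n x = 1) (v : V) :
    ∃ μ : Measure (ℕ → V), IsProbabilityMeasure μ ∧ μ {ω | ω 0 = v} = 1 ∧ Step q μ := by
  let e : (n : ℕ) → (Finset.Iic n → V) → ℕ → V := fun n h k =>
    h ⟨min k n, Finset.mem_Iic.2 (min_le_right _ _)⟩
  let m : (ℕ → V) → ℕ → Measure V := fun ω n =>
    Measure.sum fun x => ENNReal.ofReal (q ω n x) • Measure.dirac x
  have hm : ∀ ω n x, m ω n {x} = ENNReal.ofReal (q ω n x) := fun ω n x =>
    Measure.sum_smul_dirac_singleton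
  have hm1 : ∀ ω n, IsProbabilityMeasure (m ω n) := fun ω n => ⟨by
    simp only [m, Measure.sum_apply _ MeasurableSet.univ, Measure.smul_apply, measure_univ,
      smul_eq_mul, mul_one]
    rw [tsum_eq_sum (s := nb ω n) (fun x hx => by simp [hnb ω n x hx]),
      ← ENNReal.ofReal_sum_of_nonneg (fun x _ => hq0 _ _ _), hsum, ENNReal.ofReal_one]⟩
  let κ : (n : ℕ) → Kernel (Finset.Iic n → V) V := fun n =>
    Kernel.ofFunOfCountable fun h => m (e n h) n
  haveI : ∀ n, IsMarkovKernel (κ n) := fun n => ⟨fun h => hm1 _ _⟩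
  let μ : Measure (ℕ → V) := Kernel.trajMeasure (X := fun _ => V) (Measure.dirac v) κ
  refine ⟨μ, inferInstance, ?_, fun n p => ?_⟩
  · have h1 : μ.map (Preorder.frestrictLe 0) = (Measure.dirac v).map
        (MeasurableEquiv.piUnique (fun i : Finset.Iic 0 => V)).symm := by
      simp only [μ, Kernel.trajMeasure]
      rw [Measure.map_comp _ _ (by fun_prop), Kernel.traj_map_frestrictLe]
      simp
    have h2 := congrArg (fun ν => ν {h | h ⟨0, by simp⟩ = v}) h1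
    beta_reduce at h2
    rw [Measure.map_apply (by fun_prop) MeasurableSet.of_discrete,
      Measure.map_apply (by fun_prop) MeasurableSet.of_discrete] at h2
    refine h2.trans ?_
    rw [Measure.dirac_apply_of_mem]
    rfl
  · have h1 := Kernel.map_frestrictLe_trajMeasure_compProd_eq_map_trajMeasure
      (X := fun _ => V) (μ₀ := Measure.dirac v) (κ := κ) (a := n)
    have h2 := congrArg (fun ν => ν ({Preorder.frestrictLe n p} ×ˢ {p (n + 1)})) h1
    beta_reduce at h2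
    rw [Measure.compProd_apply_prod MeasurableSet.of_discrete MeasurableSet.of_discrete,
      lintegral_singleton, Measure.map_apply (by fun_prop) MeasurableSet.of_discrete,
      Measure.map_apply (by fun_prop) MeasurableSet.of_discrete] at h2
    have h3 : (Preorder.frestrictLe (π := fun _ => V) n) ⁻¹' {Preorder.frestrictLe n p} =
        cyl n p := by
      ext ω
      simp only [mem_preimage, mem_singleton_iff, cyl, mem_setOf_eq]
      exact ⟨fun h k hk => congrFun h ⟨k, Finset.mem_Iic.2 hk⟩,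
        fun h => funext fun i => h i.1 (Finset.mem_Iic.1 i.2)⟩
    have h4 : (fun x : ℕ → V => (Preorder.frestrictLe (π := fun _ => V) n x, x (n + 1))) ⁻¹'
        ({Preorder.frestrictLe n p} ×ˢ {p (n + 1)}) = cyl (n + 1) p := by
      ext ω
      have h5 : Preorder.frestrictLe (π := fun _ => V) n ω = Preorder.frestrictLe n p ↔
          ω ∈ cyl n p := by rw [← h3]; rfl
      simp only [mem_preimage, mem_prod, mem_singleton_iff, h5]
      refine ⟨fun h k hk => ?_, fun h => ⟨cyl_anti (Nat.le_succ n) p h, h _ le_rfl⟩⟩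
      rcases Nat.lt_or_eq_of_le hk with h6 | h6
      · exact h.1 k (Nat.lt_succ_iff.1 h6)
      · rw [h6]; exact h.2
    have h5 : κ n (Preorder.frestrictLe n p) {p (n + 1)} =
        ENNReal.ofReal (q p n (p (n + 1))) := by
      have h6 : e n (Preorder.frestrictLe n p) ∈ cyl n p := fun k hk => by
        simp [e, min_eq_left hk]
      rw [← hq p _ n h6]
      exact hm _ _ _
    rw [h3, h4, h5] at h2
    rw [← h2, mul_comm]

end Pool.Agent.MP_856411_pr
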