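import Pool.Agent.MP_856411_pr.Walk

open MeasureTheory Set Filter Topology
open scoped ENNReal

namespace Pool.Agent.MP_856411_pr

variable {V : Type} {G : SimpleGraph V} {nb : V → Finset V} {D : ℕ} {γ : ℝ} {v : V}

/-- all steps in the time window use edges with positive crossing number -/
def Pos (ω : ℕ → V) (n0 n : ℕ) : Prop := ∀ k, n0 ≤ k → k < n → 0 < cross ω k (ω k) (ω (k + 1))

/-- some edge at the current position has positive crossing number -/
def HasPos (ω : ℕ → V) (n : ℕ) : Prop := ∃ y, 0 < cross ω n (ω n) y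

/-- total positive outflow -/
noncomputable def out (nb : V → Finset V) (ω : ℕ → V) (n : ℕ) (x : V) : ℕ :=
  ∑ y ∈ nb x, (cross ω n x y).toNat

theorem ne_of_cross_pos {ω : ℕ → V} {n : ℕ} {x y : V} (h : 0 < cross ω n x y) : x ≠ y := by
  rintro rfl
  have := cross_anti ω n x x
  omega

open Classical in
theorem toNat_step {ω : ℕ → V} {n : ℕ} (h : 0 < cross ω n (ω n) (ω (n + 1))) (x y : V) :
    (cross ω (n + 1) x y).toNat =
      (cross ω n x y).toNat + if ω n = x ∧ ω (n + 1) = y then 1 else 0 := by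
  have hne := ne_of_cross_pos h
  rw [cross_succ]
  by_cases h1 : ω n = x ∧ ω (n + 1) = y
  · obtain ⟨rfl, rfl⟩ := h1
    simp only [and_self, if_true, hne, false_and, if_false]
    omega
  · by_cases h2 : ω n = y ∧ ω (n + 1) = x
    · obtain ⟨rfl, rfl⟩ := h2
      have := cross_anti ω n (ω n) (ω (n + 1))
      simp only [and_self, if_true, hne, false_and, if_false]
      omega
    · simp [h1, h2]

theorem pos_step {ω : ℕ → V} {n : ℕ} (h : 0 < cross ω n (ω n) (ω (n + 1))) (x y : V) :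
    0 < cross ω (n + 1) x y ↔ 0 < cross ω n x y := by
  have h1 := toNat_step h x y
  split_ifs at h1 with h2
  · obtain ⟨rfl, rfl⟩ := h2
    omega
  · omega

theorem Pos.mono {ω : ℕ → V} {n0 n m : ℕ} (h : Pos ω n0 n) (hm : m ≤ n) : Pos ω n0 m :=
  fun k h1 h2 => h k h1 (h2.trans_le hm)

theorem Pos.congr {ω ω' : ℕ → V} {n0 n : ℕ} (h : Pos ω n0 n) (h' : ω' ∈ cyl n ω) :
    Pos ω' n0 n := fun k h1 h2 => by
  rw [cross_congr (cyl_anti h2.le ω h'), h' k h2.le, h' (k + 1) h2]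
  exact h k h1 h2

theorem pos_succ_iff {ω : ℕ → V} {n0 n : ℕ} (hn : n0 ≤ n) :
    Pos ω n0 (n + 1) ↔ Pos ω n0 n ∧ 0 < cross ω n (ω n) (ω (n + 1)) :=
  ⟨fun h => ⟨h.mono (Nat.le_succ n), h n hn (Nat.lt_succ_self n)⟩, fun h k h1 h2 => by
    rcases Nat.lt_or_eq_of_le (Nat.lt_succ_iff.1 h2) with h3 | h3
    · exact h.1 k h1 h3
    · exact h3 ▸ h.2⟩

theorem pos_ext1 {ω : ℕ → V} {n0 n : ℕ} (hn : n0 ≤ n) (x : V) :
    Pos (ext1 ω n x) n0 (n + 1) ↔ Pos ω n0 n ∧ 0 < cross ω n (ω n) x := by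
  rw [pos_succ_iff hn, cross_congr (ext1_mem ω n x), ext1_self, ext1_succ]
  exact and_congr_left' ⟨fun h => h.congr (mem_cyl_symm (ext1_mem ω n x)),
    fun h => h.congr (ext1_mem ω n x)⟩

theorem Pos.sign {ω : ℕ → V} {n0 n : ℕ} (hn : n0 ≤ n) (h : Pos ω n0 n) (x y : V) :
    0 < cross ω n x y ↔ 0 < cross ω n0 x y := by
  induction n, hn using Nat.le_induction with
  | base => rfl
  | succ n hn ih =>
    rw [pos_succ_iff hn] at h
    rw [pos_step h.2, ih h.1]

theorem Pos.mem {ω : ℕ → V} {n0 n : ℕ} (hn : n0 ≤ n) (h : Pos ω n0 n) {S : Set V}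
    (h0 : ω n0 ∈ S) (hS : ∀ x ∈ S, ∀ y, 0 < cross ω n0 x y → y ∈ S) : ω n ∈ S := by
  induction n, hn using Nat.le_induction with
  | base => exact h0
  | succ n hn ih =>
    rw [pos_succ_iff hn] at h
    exact hS _ (ih h.1) _ ((h.1.sign hn _ _).1 h.2)

theorem Ctx.hasPos_step (h : Ctx G nb D) {ω : ℕ → V} {n : ℕ} (hv : Valid G v ω (n + 1))
    (hp : 0 < cross ω n (ω n) (ω (n + 1))) : HasPos ω (n + 1) := by
  by_contra hc
  simp only [HasPos, not_exists, not_lt] at hc
  have h1 := h.ge_neg_one hv hc ((h.mem _ _).2 (hv.2 n (Nat.lt_succ_self n)).symm)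
  rw [cross_anti, cross_succ_fwd (ne_of_cross_pos hp)] at h1
  omega

theorem Ctx.hasPos (h : Ctx G nb D) {ω : ℕ → V} {n0 n : ℕ} (hn : n0 ≤ n) (hv : Valid G v ω n)
    (hp : Pos ω n0 n) (h0 : HasPos ω n0) : HasPos ω n := by
  rcases Nat.eq_or_lt_of_le hn with rfl | hlt
  · exact h0
  · obtain ⟨m, rfl⟩ : ∃ m, n = m + 1 := ⟨n - 1, by omega⟩
    exact h.hasPos_step hv (hp m (by omega) (by omega))

open Classical in
theorem out_step {ω : ℕ → V} {n : ℕ} (h : 0 < cross ω n (ω n) (ω (n + 1)))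
    (hm : ω (n + 1) ∈ nb (ω n)) (x : V) :
    out nb ω (n + 1) x = out nb ω n x + if ω n = x then 1 else 0 := by
  unfold out
  simp only [toNat_step h, Finset.sum_add_distrib]
  congr 1
  by_cases hx : ω n = x
  · subst hx
    simp [Finset.sum_ite_eq, hm]
  · simp [hx]

theorem exists_potential {η : ℕ → ℝ} (h0 : ∀ j, 0 ≤ η j) (hs : Summable η) :
    ∃ (π : ℕ → ℝ) (δ : ℝ), 0 < δ ∧ δ ≤ 1 ∧ (∀ j, δ ≤ π j) ∧ (∀ j, π j ≤ 1) ∧
      ∀ j, π (j + 1) = π j * (1 + η j) := by
  let R : ℕ → ℝ := fun j => ∏ i ∈ Finset.range j, (1 + η i)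
  have hΓ : 0 < Real.exp (∑' i, η i) := Real.exp_pos _
  have h1 : ∀ j, 1 ≤ R j := fun j =>
    le_trans (by simp) (Finset.prod_le_prod (s := Finset.range j) (f := fun _ => (1 : ℝ))
      (fun _ _ => zero_le_one) fun i _ => le_add_of_nonneg_right (h0 i))
  have h2 : ∀ j, R j ≤ Real.exp (∑' i, η i) := fun j => by
    calc R j ≤ ∏ i ∈ Finset.range j, Real.exp (η i) :=
          Finset.prod_le_prod (fun i _ => by linarith [h0 i])
            fun i _ => by linarith [Real.add_one_le_exp (η i)]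
      _ = Real.exp (∑ i ∈ Finset.range j, η i) := (Real.exp_sum _ _).symm
      _ ≤ _ := Real.exp_le_exp.2 (hs.sum_le_tsum _ fun i _ => h0 i)
  refine ⟨fun j => R j / Real.exp (∑' i, η i), 1 / Real.exp (∑' i, η i), by positivity,
    (div_le_one hΓ).2 ((h1 0).trans (h2 0)), fun j => div_le_div_of_nonneg_right (h1 j) hΓ.le,
    fun j => (div_le_one hΓ).2 (h2 j), fun j => ?_⟩
  simp only [R, Finset.prod_range_succ]
  ring

/-- the non-positive edges at the current position are dominated by the positive ones -/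
def Dom (G : SimpleGraph V) (nb : V → Finset V) (γ : ℝ) (v : V) (η : ℕ → ℝ) : Prop :=
  ∀ ω n, Valid G v ω n → HasPos ω n →
    ∑ y ∈ (nb (ω n)).filter (fun y => ¬ 0 < cross ω n (ω n) y), weight γ (cross ω n (ω n) y) ≤
      η (out nb ω n (ω n)) *
        ∑ y ∈ (nb (ω n)).filter (fun y => 0 < cross ω n (ω n) y), weight γ (cross ω n (ω n) y)

variable [MeasurableSpace V] [DiscreteMeasurableSpace V] [Countable V]

theorem measurableSet_pos (n0 : ℕ) : MeasurableSet {ω : ℕ → V | ∀ n, Pos ω n0 n} := by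
  rw [setOf_forall]
  exact MeasurableSet.iInter fun n => measurableSet_of_adapted n _ fun ω hω ω' h => hω.congr h

theorem Ctx.stage1 (h : Ctx G nb D) {η : ℕ → ℝ} (h0 : ∀ j, 0 ≤ η j) (hs : Summable η)
    (hη : Dom G nb γ v η) : ∃ δ : ℝ, 0 < δ ∧ δ ≤ 1 ∧ ∀ μ, IsWalkLaw G γ v μ →
      ∀ (S : Finset V) (n0 : ℕ) (p : ℕ → V), p n0 ∈ S →
      (∀ x ∈ S, ∀ y, 0 < cross p n0 x y → y ∈ S) → HasPos p n0 →
      μ ({ω | ∀ n, Pos ω n0 n}ᶜ ∩ cyl n0 p) ≤ ENNReal.ofReal (1 - δ ^ S.card) * μ (cyl n0 p) := by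
  classical
  obtain ⟨π, δ, hδ, hδ1, hπ1, hπ2, hπ⟩ := exists_potential h0 hs
  refine ⟨δ, hδ, hδ1, fun μ hμ S n0 p hp hS hpos => ?_⟩
  let Ψ : ℕ → (ℕ → V) → ℝ := fun n ω => ∏ x ∈ S, π (out nb ω n x)
  have hΨ1 : ∀ n ω, Ψ n ω ≤ 1 := fun n ω =>
    Finset.prod_le_one (fun x _ => hδ.le.trans (hπ1 _)) fun x _ => hπ2 _
  have hΨ0 : ∀ n ω, δ ^ S.card ≤ Ψ n ω := fun n ω => by
    rw [← Finset.prod_const]
    exact Finset.prod_le_prod (fun _ _ => hδ.le) fun x _ => hπ1 _
  let f : ℕ → (ℕ → V) → ℝ := fun n ω => 1 - if Pos ω n0 n then Ψ n ω else 0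
  have key := hμ.step.supermart (trans_congr G γ) (h.trans_nonneg γ) (fun ω n => nb (ω n))
    (fun ω n _ hx => h.trans_of_not_mem γ ω n hx) f (fun n ω => by
      simp only [f]
      split_ifs
      · linarith [hΨ1 n ω]
      · norm_num) (fun n ω ω' hω => by
      have h1 : Pos ω' n0 n ↔ Pos ω n0 n := ⟨fun hh => hh.congr (mem_cyl_symm hω),
        fun hh => hh.congr hω⟩
      simp only [f, Ψ, out, h1, cross_congr hω]) n0 p (fun n hn ω hω hne => ?_)
    (A := {ω | ∀ n, Pos ω n0 n}ᶜ) (measurableSet_pos n0).compl (L := 1) (fun ω hω => ?_)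
  · rw [ENNReal.ofReal_one, one_mul] at key
    refine key.trans (mul_le_mul_left (ENNReal.ofReal_le_ofReal ?_) _)
    have : Pos p n0 n0 := fun k h1 h2 => absurd h1 (not_le.2 h2)
    simp only [f, this, if_true]
    linarith [hΨ0 n0 p]
  · have hv := hμ.valid hne
    simp only [f, pos_ext1 hn, mul_sub, mul_one, Finset.sum_sub_distrib, h.trans_sum]
    by_cases hP : Pos ω n0 n
    · simp only [hP, true_and, if_true, mul_ite, mul_zero]
      rw [← Finset.sum_filter]
      have hω0 : ω n0 = p n0 := hω n0 le_rfl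
      have hc0 : cross ω n0 = cross p n0 := cross_congr hω
      have hmem : ω n ∈ S := hP.mem (S := ↑S) hn (hω0 ▸ hp) (hc0 ▸ hS)
      have hH : HasPos ω n := h.hasPos hn hv hP (by
        unfold HasPos
        rw [hc0, hω0]; exact hpos)
      have h1 : ∀ y ∈ (nb (ω n)).filter (fun y => 0 < cross ω n (ω n) y),
          trans G γ ω n y * Ψ (n + 1) (ext1 ω n y) = weight γ (cross ω n (ω n) y) *
            (Ψ n ω * (1 + η (out nb ω n (ω n))) / tot nb γ ω n) := by
        intro y hy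
        obtain ⟨hy1, hy2⟩ := Finset.mem_filter.1 hy
        have h2 : Ψ (n + 1) (ext1 ω n y) = Ψ n ω * (1 + η (out nb ω n (ω n))) := by
          have h3 : ∀ x, out nb (ext1 ω n y) (n + 1) x =
              out nb ω n x + if ω n = x then 1 else 0 := fun x => by
            rw [out_step (by simpa [cross_congr (ext1_mem ω n y)] using hy2) (by simpa using hy1)]
            simp only [out, cross_congr (ext1_mem ω n y), ext1_self]
          simp only [Ψ, h3]
          rw [← Finset.mul_prod_erase _ _ hmem, ← Finset.mul_prod_erase _ _ hmem, if_pos rfl, hπ,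
            Finset.prod_congr rfl (fun x hx => by
              rw [if_neg (Finset.ne_of_mem_erase hx).symm, add_zero])]
          ring
        rw [h2, h.trans_of_mem γ ω n hy1]
        ring
      rw [Finset.sum_congr rfl h1, ← Finset.sum_mul]
      have h2 := hη ω n hv hH
      have h3 := Finset.sum_filter_add_sum_filter_not (nb (ω n)) (fun y => 0 < cross ω n (ω n) y)
        (fun y => weight γ (cross ω n (ω n) y))
      have h4 := h.tot_pos γ ω n
      have h5 : 0 ≤ Ψ n ω := (pow_nonneg hδ.le _).trans (hΨ0 n ω)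
      set a := ∑ y ∈ (nb (ω n)).filter (fun y => 0 < cross ω n (ω n) y),
        weight γ (cross ω n (ω n) y)
      have h6 : tot nb γ ω n ≤ a * (1 + η (out nb ω n (ω n))) := by
        unfold tot
        rw [← h3]
        linarith
      have h7 : Ψ n ω ≤ a * (Ψ n ω * (1 + η (out nb ω n (ω n))) / tot nb γ ω n) := by
        rw [← mul_div_assoc, le_div_iff₀ h4]
        calc Ψ n ω * tot nb γ ω n ≤ Ψ n ω * (a * (1 + η (out nb ω n (ω n)))) :=
              mul_le_mul_of_nonneg_left h6 h5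
          _ = _ := by ring
      linarith
    · simp [hP]
  · obtain ⟨n, hn⟩ := not_forall.1 hω.1
    refine tendsto_const_nhds.congr' ?_
    filter_upwards [eventually_ge_atTop n] with m hm
    have : ¬ Pos ω n0 m := fun hh => hn (hh.mono hm)
    simp [f, this]

end Pool.Agent.MP_856411_pr
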