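import Pool.Agent.MP_856411_pr.Monopoly
import Pool.Agent.MP_856411_pr.Null

open MeasureTheory Set Filter Topology
open scoped ENNReal

namespace Pool.Agent.MP_856411_pr

variable {V : Type} {G : SimpleGraph V} {nb : V → Finset V} {D : ℕ} {γ : ℝ} {v : V}

/-- a directed circuit -/
structure Circ (G : SimpleGraph V) (m : ℕ) (u : ZMod m → V) : Prop where
  three : 3 ≤ m
  inj : Function.Injective u
  adj : ∀ i, G.Adj (u i) (u (i + 1))

/-- the path `ω` up to time `n` continued by `π` -/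
def splice (ω : ℕ → V) (n : ℕ) (π : ℕ → V) : ℕ → V := fun k => if k ≤ n then ω k else π (k - n)

theorem splice_mem (ω : ℕ → V) (n : ℕ) (π : ℕ → V) : splice ω n π ∈ cyl n ω :=
  fun k hk => by simp [splice, hk]

theorem splice_add {ω : ℕ → V} {n : ℕ} {π : ℕ → V} (h : π 0 = ω n) (j : ℕ) :
    splice ω n π (n + j) = π j := by
  rcases Nat.eq_zero_or_pos j with rfl | hj
  · simp [splice, h]
  · have : ¬ n + j ≤ n := by omega
    simp [splice, this]

theorem Valid.splice {ω : ℕ → V} {n : ℕ} {π : ℕ → V} (hv : Valid G v ω n) (h : π 0 = ω n)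
    (ha : ∀ j, G.Adj (π j) (π (j + 1))) (k : ℕ) : Valid G v (splice ω n π) k := by
  have h1 := hv.congr (splice_mem ω n π)
  refine ⟨h1.1, fun i _ => ?_⟩
  rcases lt_or_ge i n with hi | hi
  · exact h1.2 i hi
  · obtain ⟨j, rfl⟩ := Nat.exists_eq_add_of_le hi
    rw [add_assoc, splice_add h, splice_add h]
    exact ha j

theorem Circ.no_back {m : ℕ} {u : ZMod m → V} (h : Circ G m u) (j : ZMod m) :
    ¬ (u j = u 1 ∧ u (j + 1) = u 0) := by
  rintro ⟨h1, h2⟩
  have h3 := h.inj h2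
  rw [h.inj h1] at h3
  exact two_ne_zero_zmod h.three (by linear_combination h3)

theorem exists_plan (hG : G.Preconnected) {m : ℕ} {u : ZMod m → V} (hu : Circ G m u) (x : V) :
    ∃ (π : ℕ → V) (ℓ : ℕ), π 0 = x ∧ (∀ j, G.Adj (π j) (π (j + 1))) ∧
      ∀ j : ℕ, π (ℓ + j) = u j := by
  obtain ⟨w⟩ := hG x (u 0)
  have h0 : (fun j : ℕ => u j) 0 = w.getVert w.length := by simp
  refine ⟨splice w.getVert w.length fun j : ℕ => u j, w.length, by simp [splice], fun j => ?_,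
    splice_add h0⟩
  refine (Valid.splice (G := G) (v := x) ⟨w.getVert_zero, fun k hk => w.adj_getVert_succ hk⟩ h0
    (fun j => ?_) (j + 1)).2 j (Nat.lt_succ_self j)
  push_cast
  exact hu.adj j

theorem Ctx.hasPos_of_loop (h : Ctx G nb D) {m : ℕ} {u : ZMod m → V} (hu : Circ G m u)
    {ω : ℕ → V} (hv : ∀ k, Valid G v ω k) {t : ℕ} (ht : ∀ j : ℕ, ω (t + j) = u j) :
    ∃ k, t ≤ k ∧ k ≤ t + 2 * m ∧ HasPos ω k := by
  have hm := hu.three
  by_cases h0 : HasPos ω t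
  · exact ⟨t, le_rfl, by omega, h0⟩
  refine ⟨t + 2 * m, by omega, le_rfl, u 1, ?_⟩
  have e0 : ω t = u 0 := by simpa using ht 0
  have e1 : ω (t + 1) = u 1 := by simpa using ht 1
  have e2 : ω (t + m) = u 0 := by simpa using ht m
  have e3 : ω (t + m + 1) = u 1 := by simpa [add_assoc] using ht (m + 1)
  have e4 : ω (t + 2 * m) = u 0 := by simpa using ht (2 * m)
  have hadj : G.Adj (u 0) (u 1) := by simpa using hu.adj 0
  simp only [HasPos, not_exists, not_lt] at h0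
  have h1 := h.ge_neg_one (hv t) h0 (y := u 1) ((h.mem _ _).2 (e0 ▸ hadj))
  have hb : ∀ a b, t ≤ a → a ≤ b → cross ω a (u 0) (u 1) ≤ cross ω b (u 0) (u 1) :=
    fun a b ha hab => cross_mono hab fun k hk _ => by
      obtain ⟨j, rfl⟩ := Nat.exists_eq_add_of_le (ha.trans hk)
      rw [add_assoc, ht, ht]
      push_cast
      exact hu.no_back j
  have h2 := cross_succ_fwd (ω := ω) (n := t) (by rw [e0, e1]; exact hadj.ne)
  have h3 := cross_succ_fwd (ω := ω) (n := t + m) (by rw [e2, e3]; exact hadj.ne)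
  rw [e0, e1] at h2
  rw [e2, e3] at h3
  rw [e0] at h1
  rw [e4]
  have h4 := hb (t + 1) (t + m) (by omega) (by omega)
  have h5 := hb (t + m + 1) (t + 2 * m) (by omega) (by omega)
  omega

theorem trapped_of_unique {ω : ℕ → V} (hv : ∀ k, G.Adj (ω k) (ω (k + 1)))
    (hfin : (range ω).Finite) {N : ℕ} (hP : ∀ n, Pos ω N n)
    (huniq : ∀ x y z, (∃ᶠ n in atTop, ω n = x ∧ ω (n + 1) = y) →
      (∃ᶠ n in atTop, ω n = x ∧ ω (n + 1) = z) → y = z) : Trapped G ω := by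
  classical
  have h1 : ∀ᶠ n in atTop, ∃ᶠ k in atTop, ω k = ω n ∧ ω (k + 1) = ω (n + 1) := by
    have h2 : ∀ᶠ n in atTop, ∀ c ∈ range ω ×ˢ range ω,
        (ω n = c.1 ∧ ω (n + 1) = c.2) → ∃ᶠ k in atTop, ω k = c.1 ∧ ω (k + 1) = c.2 := by
      rw [eventually_all_finite (hfin.prod hfin)]
      intro c _
      by_cases hc : ∃ᶠ k in atTop, ω k = c.1 ∧ ω (k + 1) = c.2
      · exact Eventually.of_forall fun _ _ => hc
      · exact (not_frequently.1 hc).mono fun n hn hn' => (hn hn').elim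
    exact h2.mono fun n hn => hn (ω n, ω (n + 1)) ⟨⟨_, rfl⟩, _, rfl⟩ ⟨rfl, rfl⟩
  obtain ⟨N1, hN1⟩ := eventually_atTop.1 (h1.and (eventually_ge_atTop N))
  let s : V → V := fun x =>
    if h : ∃ y, ∃ᶠ k in atTop, ω k = x ∧ ω (k + 1) = y then h.choose else x
  have hs : ∀ n ≥ N1, ω (n + 1) = s (ω n) := fun n hn => by
    have h2 : ∃ y, ∃ᶠ k in atTop, ω k = ω n ∧ ω (k + 1) = y := ⟨_, (hN1 n hn).1⟩
    simp only [s, h2, dif_pos]
    exact huniq _ _ _ (hN1 n hn).1 h2.choose_spec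
  have hit : ∀ j, ω (N1 + j) = s^[j] (ω N1) := by
    intro j
    induction j with
    | zero => rfl
    | succ j ih => rw [← add_assoc, hs _ (by omega), ih, Function.iterate_succ_apply']
  have hper : ω N1 ∈ Function.periodicPts s := by
    obtain ⟨k, hk, hk2, -⟩ := frequently_atTop.1 (hN1 N1 le_rfl).1 (N1 + 1)
    refine ⟨k - N1, by omega, ?_⟩
    rw [Function.IsPeriodicPt, Function.IsFixedPt, ← hit, ← hk2]
    congr 1
    omega
  set m := Function.minimalPeriod s (ω N1) with hm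
  have hm0 : 0 < m := Function.minimalPeriod_pos_of_mem_periodicPts hper
  have hret : ω (N1 + m) = ω N1 := by rw [hit]; exact Function.iterate_minimalPeriod
  have hm1 : m ≠ 1 := fun h => (hv N1).ne (by rw [h] at hret; exact hret.symm)
  have hN : N ≤ N1 := (hN1 N1 le_rfl).2
  have hm2 : m ≠ 2 := fun h => by
    rw [h] at hret
    have h2 := hP (N1 + 1) N1 hN (by omega)
    have h3 := hP (N1 + 2) (N1 + 1) (by omega) (by omega)
    rw [show N1 + 1 + 1 = N1 + 2 from rfl, hret, cross_anti, cross_succ_fwd (hv N1).ne] at h3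
    omega
  haveI : NeZero m := ⟨hm0.ne'⟩
  have hu : ∀ j : ℕ, s^[(j : ZMod m).val] (ω N1) = ω (N1 + j) := fun j => by
    rw [ZMod.val_natCast, hit]
    exact Function.iterate_mod_minimalPeriod_eq
  refine ⟨m, by omega, fun i => s^[i.val] (ω N1), fun i j hij => ?_, fun i => ?_, N1, 0,
    fun j => ?_⟩
  · exact ZMod.val_injective m (Function.iterate_injOn_Iio_minimalPeriod (ZMod.val_lt i)
      (ZMod.val_lt j) hij)
  · have h2 : i + 1 = ((i.val + 1 : ℕ) : ZMod m) := by simp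
    beta_reduce
    rw [h2, hu, ← hit]
    exact hv _
  · rw [zero_add]
    exact (hu j).symm

variable [MeasurableSpace V] [DiscreteMeasurableSpace V] [Countable V]

theorem measurableSet_range_sub (S : Set V) : MeasurableSet {ω : ℕ → V | ∀ k, ω k ∈ S} := by
  rw [setOf_forall]
  exact MeasurableSet.iInter fun k => measurableSet_of_adapted k _ fun ω hω ω' h => by
    simp only [mem_setOf_eq] at hω ⊢
    rw [h k le_rfl]; exact hω

theorem measurableSet_valid : MeasurableSet {ω : ℕ → V | ∀ k, Valid G v ω k} := by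
  rw [setOf_forall]
  exact MeasurableSet.iInter fun k => measurableSet_of_adapted k _ fun ω hω ω' h => hω.congr h

theorem HasPos.congr {ω ω' : ℕ → V} {n : ℕ} (h : HasPos ω n) (h' : ω' ∈ cyl n ω) :
    HasPos ω' n := by
  unfold HasPos
  rw [cross_congr h', h' n le_rfl]
  exact h

theorem measurableSet_hasPos (n : ℕ) : MeasurableSet {ω : ℕ → V | HasPos ω n} :=
  measurableSet_of_adapted n _ fun _ hω _ h => HasPos.congr hω h

theorem sub_bound (μ : Measure (ℕ → V)) [IsFiniteMeasure μ] {A C C' : Set (ℕ → V)}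
    (hC' : MeasurableSet C') (hs : C' ⊆ C) {ρ θ : ℝ} (hρ : 0 ≤ ρ) (hθ : 0 ≤ θ) (hθ1 : θ ≤ 1)
    (h1 : ENNReal.ofReal ρ * μ C ≤ μ C') (h2 : μ (A ∩ C') ≤ ENNReal.ofReal (1 - θ) * μ C') :
    μ (A ∩ C) ≤ ENNReal.ofReal (1 - ρ * θ) * μ C := by
  have e1 : μ (A ∩ C) ≤ μ (A ∩ C') + μ (C \ C') := by
    refine le_trans (measure_mono ?_) (measure_union_le _ _)
    intro ω hω
    by_cases h : ω ∈ C'
    · exact Or.inl ⟨hω.1, h⟩
    · exact Or.inr ⟨hω.2, h⟩
  have e2 : μ C' + μ (C \ C') = μ C := by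
    rw [← measure_inter_add_diff C hC', inter_eq_right.2 hs]
  obtain ⟨a, ha0, ha⟩ : ∃ a : ℝ, 0 ≤ a ∧ μ C' = ENNReal.ofReal a :=
    ⟨(μ C').toReal, ENNReal.toReal_nonneg, (ENNReal.ofReal_toReal (measure_ne_top _ _)).symm⟩
  obtain ⟨b, hb0, hb⟩ : ∃ b : ℝ, 0 ≤ b ∧ μ (C \ C') = ENNReal.ofReal b :=
    ⟨(μ (C \ C')).toReal, ENNReal.toReal_nonneg,
      (ENNReal.ofReal_toReal (measure_ne_top _ _)).symm⟩
  rw [← e2, ha, hb, ← ENNReal.ofReal_add ha0 hb0] at h1 ⊢
  rw [ha] at h2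
  rw [hb] at e1
  refine (e1.trans (add_le_add_left h2 _)).trans ?_
  rw [← ENNReal.ofReal_mul hρ, ENNReal.ofReal_le_ofReal_iff ha0] at h1
  rw [← ENNReal.ofReal_mul (by linarith), ← ENNReal.ofReal_add (mul_nonneg (by linarith) ha0) hb0,
    mul_comm (ENNReal.ofReal (1 - ρ * θ)), ← ENNReal.ofReal_mul (add_nonneg ha0 hb0)]
  refine ENNReal.ofReal_le_ofReal ?_
  have := mul_le_mul_of_nonneg_right h1 hθ
  nlinarith

theorem Ctx.stage0 (h : Ctx G nb D) (hγ : 0 < γ) (hG : G.Preconnected) {m : ℕ} {u : ZMod m → V}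
    (hu : Circ G m u) {μ : Measure (ℕ → V)} (hμ : IsWalkLaw G γ v μ) (S : Finset V) (N : ℕ) :
    μ ({ω | ∀ k, Valid G v ω k} ∩ ({ω | ∀ k, ω k ∈ (S : Set V)} ∩
      {ω | ∀ n ≥ N, ¬ HasPos ω n})) = 0 := by
  classical
  have := hμ.1
  choose π ℓ hπ0 hπa hπu using exists_plan hG hu
  have hD : (1 : ℝ) ≤ D := by exact_mod_cast h.one_le v
  have hρ : (0 : ℝ) < 1 / D := by positivity
  have hρ1 : (1 : ℝ) / D ≤ 1 := (div_le_one (by positivity)).2 hD
  refine null_of_density μ (measurableSet_valid.inter ((measurableSet_range_sub _).inter ?_))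
    (θ := ENNReal.ofReal (1 - (1 / D) ^ (S.sup ℓ + 2 * m) * 1))
    (ENNReal.ofReal_lt_one.2 (by
      have := pow_pos hρ (S.sup ℓ + 2 * m)
      linarith)) fun p hp M => ⟨max M N, le_max_left _ _, ?_⟩
  · simp only [setOf_forall]
    exact MeasurableSet.iInter fun n => MeasurableSet.iInter fun _ =>
      (measurableSet_hasPos n).compl
  set n := max M N
  let ω := splice p n (π (p n))
  have hv : ∀ k, Valid G v ω k := (hp.1 n).splice (hπ0 _) (hπa _)
  obtain ⟨k, hk1, hk2, hk3⟩ := h.hasPos_of_loop hu hv (t := n + ℓ (p n)) fun j => by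
    simp only [ω]
    rw [add_assoc, splice_add (hπ0 _), hπu]
  have hex : ∃ j, HasPos ω (n + j) := ⟨k - n, by rwa [show n + (k - n) = k by omega]⟩
  have hj : Nat.find hex ≤ S.sup ℓ + 2 * m := by
    have h1 : Nat.find hex ≤ k - n := Nat.find_min' hex (by rwa [show n + (k - n) = k by omega])
    have h2 : ℓ (p n) ≤ S.sup ℓ := Finset.le_sup (hp.2.1 n)
    omega
  have h1 := hμ.step.lower ω n hρ.le (Nat.find hex) fun i hi1 hi2 => by
    refine h.trans_ge hγ (hv i) ?_ ((hv (i + 1)).2 i (Nat.lt_succ_self i))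
    have := Nat.find_min hex (m := i - n) (by omega)
    rw [show n + (i - n) = i by omega] at this
    simpa [HasPos] using this
  rw [cyl_eq_of_mem (splice_mem p n _)] at h1
  refine sub_bound μ (measurableSet_cyl (n + Nat.find hex) ω)
    ((cyl_anti (Nat.le_add_right _ _) ω).trans (cyl_eq_of_mem (splice_mem p n _)).subset)
    (pow_pos hρ _).le zero_le_one le_rfl (le_trans (mul_le_mul_left (ENNReal.ofReal_le_ofReal
      (pow_le_pow_of_le_one hρ.le hρ1 hj)) _) h1) ?_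
  have h2 : ({ω | ∀ k, Valid G v ω k} ∩ ({ω | ∀ k, ω k ∈ (S : Set V)} ∩
      {ω | ∀ n ≥ N, ¬ HasPos ω n})) ∩ cyl (n + Nat.find hex) ω = ∅ := by
    refine eq_empty_of_forall_notMem fun z hz => hz.1.2.2 (n + Nat.find hex) ?_
      ((Nat.find_spec hex).congr hz.2)
    exact (le_max_right M N).trans (Nat.le_add_right _ _)
  rw [h2]
  simp

theorem Ctx.ae_eventually_pos (h : Ctx G nb D) (hγ : 0 < γ) (hG : G.Preconnected) {m : ℕ}
    {u : ZMod m → V} (hu : Circ G m u) {η : ℕ → ℝ} (h0 : ∀ j, 0 ≤ η j) (hs : Summable η)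
    (hη : Dom G nb γ v η) {μ : Measure (ℕ → V)} (hμ : IsWalkLaw G γ v μ) :
    ∀ᵐ ω ∂μ, (range ω).Finite → ∃ N, ∀ n, Pos ω N n := by
  have := hμ.1
  obtain ⟨δ, hδ, hδ1, hst⟩ := h.stage1 h0 hs hη
  have h1 : ∀ S : Finset V, μ ({ω | ∀ k, Valid G v ω k} ∩ ({ω | ∀ k, ω k ∈ (S : Set V)} ∩
      ({ω | ∀ N, ∃ n ≥ N, HasPos ω n} ∩ {ω | ∀ N, ¬ ∀ n, Pos ω N n}))) = 0 := by
    intro S
    refine null_of_density μ (measurableSet_valid.inter ((measurableSet_range_sub _).inter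
      (MeasurableSet.inter ?_ ?_))) (θ := ENNReal.ofReal (1 - δ ^ S.card))
      (ENNReal.ofReal_lt_one.2 (by linarith [pow_pos hδ S.card])) fun p hp M => ?_
    · simp only [setOf_forall, setOf_exists, setOf_and]
      exact MeasurableSet.iInter fun N => MeasurableSet.iUnion fun n =>
        (MeasurableSet.const _).inter (measurableSet_hasPos n)
    · simp only [setOf_forall (p := fun N ω => ¬ ∀ n, Pos ω N n)]
      exact MeasurableSet.iInter fun N => (measurableSet_pos N).compl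
    · obtain ⟨n, hn, hpos⟩ := hp.2.2.1 M
      refine ⟨n, hn, le_trans (measure_mono ?_) (hst μ hμ S n p (hp.2.1 n) ?_ hpos)⟩
      · exact fun z hz => ⟨hz.1.2.2.2 n, hz.2⟩
      · intro x _ y hy
        obtain ⟨k, -, -, rfl⟩ := exists_step_of_pos hy
        exact hp.2.1 _
  have h2 := ae_all_iff.2 fun S : Finset V => measure_eq_zero_iff_ae_notMem.1 (h1 S)
  have h3 := ae_all_iff.2 fun c : Finset V × ℕ =>
    measure_eq_zero_iff_ae_notMem.1 (h.stage0 hγ hG hu hμ c.1 c.2)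
  filter_upwards [h2, h3, hμ.ae_valid] with ω h2 h3 hv hfin
  by_contra hc
  have hS : ∀ k, ω k ∈ (hfin.toFinset : Set V) := fun k => by simp
  refine h2 hfin.toFinset ⟨hv, hS, fun N => ?_, fun N hN => hc ⟨N, hN⟩⟩
  by_contra hN
  push Not at hN
  exact h3 (hfin.toFinset, N) ⟨hv, hS, hN⟩

theorem Ctx.ae_unique (h : Ctx G nb D) (hγ : 1 < γ) {μ : Measure (ℕ → V)}
    (hμ : IsWalkLaw G γ v μ) : ∀ᵐ ω ∂μ, ∀ N, (∀ n, Pos ω N n) → ∀ x y z,
      (∃ᶠ n in atTop, ω n = x ∧ ω (n + 1) = y) →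
      (∃ᶠ n in atTop, ω n = x ∧ ω (n + 1) = z) → y = z := by
  have h1 := ae_all_iff.2 fun c : {c : ℕ × V × V × V // c.2.2.1 ≠ c.2.2.2} =>
    measure_eq_zero_iff_ae_notMem.1 (h.stage2 hγ hμ c.1.1 c.1.2.1 c.2)
  filter_upwards [h1] with ω hω N hP x y z hy hz
  by_contra hne
  exact hω ⟨(N, x, y, z), hne⟩ ⟨hP, hy, hz⟩

end Pool.Agent.MP_856411_pr
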