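import Pool.Agent.MP_856411_pr.Defs
import Pool.Agent.MP_856411_pr.Path

open MeasureTheory Set Filter Topology
open scoped ENNReal

namespace Pool.Agent.MP_856411_pr

variable {V : Type}

open Classical in
theorem cross_succ (ω : ℕ → V) (n : ℕ) (x y : V) : cross ω (n + 1) x y = cross ω n x y +
    ((if ω n = x ∧ ω (n + 1) = y then 1 else 0) - (if ω n = y ∧ ω (n + 1) = x then 1 else 0)) := by
  unfold cross
  rw [Finset.sum_range_succ]

theorem cross_zero (ω : ℕ → V) (x y : V) : cross ω 0 x y = 0 := by simp [cross]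

theorem cross_anti (ω : ℕ → V) (n : ℕ) (x y : V) : cross ω n y x = - cross ω n x y := by
  induction n with
  | zero => simp [cross_zero]
  | succ n ih => rw [cross_succ, cross_succ, ih]; ring

theorem cross_congr {ω ω' : ℕ → V} {n : ℕ} (h : ω' ∈ cyl n ω) : cross ω' n = cross ω n := by
  funext x y
  unfold cross
  refine Finset.sum_congr rfl fun k hk => ?_
  have hk' := Finset.mem_range.1 hk
  rw [h k hk'.le, h (k + 1) hk']

theorem cross_succ_fwd {ω : ℕ → V} {n : ℕ} (h : ω n ≠ ω (n + 1)) :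
    cross ω (n + 1) (ω n) (ω (n + 1)) = cross ω n (ω n) (ω (n + 1)) + 1 := by
  rw [cross_succ]; simp [h]

theorem cross_succ_other {ω : ℕ → V} {n : ℕ} {x y : V} (h1 : ¬ (ω n = x ∧ ω (n + 1) = y))
    (h2 : ¬ (ω n = y ∧ ω (n + 1) = x)) : cross ω (n + 1) x y = cross ω n x y := by
  rw [cross_succ]; simp [h1, h2]

theorem cross_succ_ge {ω : ℕ → V} {n : ℕ} {x y : V} (h2 : ¬ (ω n = y ∧ ω (n + 1) = x)) :
    cross ω n x y ≤ cross ω (n + 1) x y := by
  rw [cross_succ, if_neg h2]; split_ifs <;> omega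

theorem cross_mono {ω : ℕ → V} {a b : ℕ} (hab : a ≤ b) {x y : V}
    (h : ∀ k, a ≤ k → k < b → ¬ (ω k = y ∧ ω (k + 1) = x)) : cross ω a x y ≤ cross ω b x y := by
  induction b, hab using Nat.le_induction with
  | base => exact le_rfl
  | succ b hab ih =>
    exact (ih fun k h1 h2 => h k h1 (by omega)).trans (cross_succ_ge (h b hab (by omega)))

theorem abs_cross_le (ω : ℕ → V) (n : ℕ) (x y : V) : |cross ω n x y| ≤ n := by
  induction n with
  | zero => simp [cross_zero]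
  | succ n ih =>
    rw [cross_succ, abs_le] at *
    push_cast
    split_ifs <;> omega

theorem exists_step_of_pos {ω : ℕ → V} {n : ℕ} {x y : V} (h : 0 < cross ω n x y) :
    ∃ k < n, ω k = x ∧ ω (k + 1) = y := by
  by_contra hc
  push Not at hc
  have := cross_mono (ω := ω) (Nat.zero_le n) (x := y) (y := x)
    (fun k _ hk hh => hc k hk hh.1 hh.2)
  rw [cross_zero, cross_anti] at this
  omega

theorem weight_pos (γ : ℝ) (c : ℤ) : 0 < weight γ c := by
  unfold weight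
  split_ifs with h1 h2
  · exact Real.rpow_pos_of_pos (by exact_mod_cast h1) _
  · exact one_pos
  · refine Real.rpow_pos_of_pos ?_ _
    have : c < 0 := by omega
    have : (c : ℝ) < 0 := by exact_mod_cast this
    linarith

theorem weight_of_pos (γ : ℝ) {c : ℤ} (h : 0 < c) : weight γ c = (c : ℝ) ^ γ := by
  simp [weight, h]

theorem weight_of_neg (γ : ℝ) {c : ℤ} (h : c < 0) : weight γ c = (-(c : ℝ)) ^ (-γ) := by
  have h1 : ¬ 0 < c := by omega
  simp [weight, h1, h.ne]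

theorem weight_le_one {γ : ℝ} (hγ : 0 < γ) {c : ℤ} (h : c ≤ 0) : weight γ c ≤ 1 := by
  rcases h.eq_or_lt with rfl | h
  · simp [weight]
  · rw [weight_of_neg γ h]
    refine Real.rpow_le_one_of_one_le_of_nonpos ?_ (by linarith)
    have : c ≤ -1 := by omega
    have : (c : ℝ) ≤ -1 := by exact_mod_cast this
    linarith

theorem weight_eq_one (γ : ℝ) {c : ℤ} (h : c ≤ 0) (h' : -1 ≤ c) : weight γ c = 1 := by
  rcases h.eq_or_lt with rfl | h
  · simp [weight]
  · have : c = -1 := by omega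
    subst this
    simp [weight]

theorem weight_le {γ : ℝ} (hγ : 0 < γ) {c : ℤ} {n : ℕ} (h : |c| ≤ n) :
    weight γ c ≤ ((n : ℝ) + 1) ^ γ := by
  have h1 : (1 : ℝ) ≤ (n : ℝ) + 1 := by linarith [Nat.cast_nonneg (α := ℝ) n]
  rcases le_or_gt c 0 with hc | hc
  · exact (weight_le_one hγ hc).trans (Real.one_le_rpow h1 hγ.le)
  · rw [weight_of_pos γ hc]
    refine Real.rpow_le_rpow (by exact_mod_cast hc.le) ?_ hγ.le
    have : c ≤ n := (le_abs_self c).trans h
    have : (c : ℝ) ≤ n := by exact_mod_cast this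
    linarith

theorem le_weight {γ : ℝ} (hγ : 0 < γ) {c : ℤ} {n : ℕ} (h : |c| ≤ n) :
    ((n : ℝ) + 1) ^ (-γ) ≤ weight γ c := by
  have h1 : (1 : ℝ) ≤ (n : ℝ) + 1 := by linarith [Nat.cast_nonneg (α := ℝ) n]
  have h2 : ((n : ℝ) + 1) ^ (-γ) ≤ 1 := Real.rpow_le_one_of_one_le_of_nonpos h1 (by linarith)
  rcases lt_trichotomy c 0 with hc | hc | hc
  · rw [weight_of_neg γ hc]
    have h3 : (c : ℝ) < 0 := by exact_mod_cast hc
    refine Real.rpow_le_rpow_of_nonpos (by linarith) ?_ (by linarith)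
    have : -c ≤ n := (neg_le_abs c).trans h
    have : -(c : ℝ) ≤ n := by exact_mod_cast this
    linarith
  · subst hc; simpa [weight] using h2
  · rw [weight_of_pos γ hc]
    exact h2.trans (Real.one_le_rpow (by exact_mod_cast hc) hγ.le)

/-- a graph with explicit neighbour sets of bounded size and no isolated vertex -/
structure Ctx (G : SimpleGraph V) (nb : V → Finset V) (D : ℕ) : Prop where
  mem : ∀ x y, y ∈ nb x ↔ G.Adj x y
  card : ∀ x, (nb x).card ≤ D
  ne : ∀ x, (nb x).Nonempty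

/-- total weight at the current position -/
noncomputable def tot (nb : V → Finset V) (γ : ℝ) (ω : ℕ → V) (n : ℕ) : ℝ :=
  ∑ y ∈ nb (ω n), weight γ (cross ω n (ω n) y)

/-- the path starts at `v` and follows edges up to time `n` -/
def Valid (G : SimpleGraph V) (v : V) (ω : ℕ → V) (n : ℕ) : Prop :=
  ω 0 = v ∧ ∀ k < n, G.Adj (ω k) (ω (k + 1))

variable {G : SimpleGraph V} {nb : V → Finset V} {D : ℕ} {γ : ℝ} {v : V}

theorem Valid.mono {ω : ℕ → V} {n m : ℕ} (h : Valid G v ω n) (hm : m ≤ n) : Valid G v ω m :=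
  ⟨h.1, fun k hk => h.2 k (hk.trans_le hm)⟩

theorem Valid.congr {ω ω' : ℕ → V} {n : ℕ} (h : Valid G v ω n) (h' : ω' ∈ cyl n ω) :
    Valid G v ω' n :=
  ⟨(h' 0 (Nat.zero_le n)).trans h.1, fun k hk => by
    rw [h' k hk.le, h' (k + 1) hk]; exact h.2 k hk⟩

theorem Ctx.one_le (h : Ctx G nb D) (x : V) : 1 ≤ D :=
  (Finset.card_pos.2 (h.ne x)).trans_le (h.card x)

theorem Ctx.tot_pos (h : Ctx G nb D) (γ : ℝ) (ω : ℕ → V) (n : ℕ) : 0 < tot nb γ ω n :=
  Finset.sum_pos (fun _ _ => weight_pos _ _) (h.ne _)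

theorem Ctx.trans_of_mem (h : Ctx G nb D) (γ : ℝ) (ω : ℕ → V) (n : ℕ) {x : V}
    (hx : x ∈ nb (ω n)) : trans G γ ω n x = weight γ (cross ω n (ω n) x) / tot nb γ ω n := by
  have h1 : G.neighborSet (ω n) = ↑(nb (ω n)) := by
    ext y; simp [h.mem]
  unfold trans tot
  rw [if_pos ((h.mem _ _).1 hx), h1, finsum_mem_coe_finset]

theorem Ctx.trans_of_not_mem (h : Ctx G nb D) (γ : ℝ) (ω : ℕ → V) (n : ℕ) {x : V}
    (hx : x ∉ nb (ω n)) : trans G γ ω n x = 0 := by
  unfold trans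
  rw [if_neg (fun hh => hx ((h.mem _ _).2 hh))]

theorem Ctx.trans_nonneg (h : Ctx G nb D) (γ : ℝ) (ω : ℕ → V) (n : ℕ) (x : V) :
    0 ≤ trans G γ ω n x := by
  by_cases hx : x ∈ nb (ω n)
  · rw [h.trans_of_mem γ ω n hx]
    exact div_nonneg (weight_pos _ _).le (h.tot_pos γ ω n).le
  · rw [h.trans_of_not_mem γ ω n hx]

theorem Ctx.trans_sum (h : Ctx G nb D) (γ : ℝ) (ω : ℕ → V) (n : ℕ) :
    ∑ x ∈ nb (ω n), trans G γ ω n x = 1 := by
  rw [Finset.sum_congr rfl fun x hx => h.trans_of_mem γ ω n hx, ← Finset.sum_div]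
  exact div_self (h.tot_pos γ ω n).ne'

theorem trans_congr (G : SimpleGraph V) (γ : ℝ) (ω ω' : ℕ → V) (n : ℕ) (h : ω' ∈ cyl n ω) :
    trans G γ ω' n = trans G γ ω n := by
  funext x
  unfold trans
  rw [cross_congr h, h n le_rfl]

theorem Ctx.trans_add_le (h : Ctx G nb D) (γ : ℝ) (ω : ℕ → V) (n : ℕ) {x z : V} (hxz : x ≠ z) :
    trans G γ ω n x + trans G γ ω n z ≤ 1 := by
  classical
  rw [← h.trans_sum γ ω n, ← Finset.sum_pair hxz (f := trans G γ ω n)]
  calc ∑ y ∈ {x, z}, trans G γ ω n y ≤ ∑ y ∈ {x, z} ∪ nb (ω n), trans G γ ω n y :=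
        Finset.sum_le_sum_of_subset_of_nonneg Finset.subset_union_left
          fun y _ _ => h.trans_nonneg γ ω n y
    _ = ∑ y ∈ nb (ω n), trans G γ ω n y :=
        (Finset.sum_subset Finset.subset_union_right
          fun y _ hy => h.trans_of_not_mem γ ω n hy).symm

theorem Ctx.trans_le_one (h : Ctx G nb D) (γ : ℝ) (ω : ℕ → V) (n : ℕ) (x : V) :
    trans G γ ω n x ≤ 1 := by
  by_cases hx : x ∈ nb (ω n)
  · rw [← h.trans_sum γ ω n]
    exact Finset.single_le_sum (fun y _ => h.trans_nonneg γ ω n y) hx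
  · rw [h.trans_of_not_mem γ ω n hx]; exact zero_le_one

open Classical in
theorem Ctx.conservation (h : Ctx G nb D) {ω : ℕ → V} {n : ℕ} (hv : Valid G v ω n) (x : V) :
    ∑ y ∈ nb x, cross ω n x y = (if x = v then 1 else 0) - (if x = ω n then 1 else 0) := by
  induction n with
  | zero => simp [cross_zero, hv.1]
  | succ n ih =>
    have hadj := hv.2 n (Nat.lt_succ_self n)
    simp only [cross_succ, Finset.sum_add_distrib, Finset.sum_sub_distrib,
      ih (hv.mono (Nat.le_succ n))]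
    have h1 : ∑ y ∈ nb x, (if ω n = x ∧ ω (n + 1) = y then (1 : ℤ) else 0) =
        if x = ω n then 1 else 0 := by
      by_cases hx : x = ω n
      · subst hx
        simp [Finset.sum_ite_eq, (h.mem _ _).2 hadj]
      · simp [hx, Ne.symm hx]
    have h2 : ∑ y ∈ nb x, (if ω n = y ∧ ω (n + 1) = x then (1 : ℤ) else 0) =
        if x = ω (n + 1) then 1 else 0 := by
      by_cases hx : x = ω (n + 1)
      · subst hx
        simp [Finset.sum_ite_eq, (h.mem _ _).2 hadj.symm]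
      · simp [hx, Ne.symm hx]
    rw [h1, h2]
    ring

theorem Ctx.sum_ge (h : Ctx G nb D) {ω : ℕ → V} {n : ℕ} (hv : Valid G v ω n) (x : V) :
    -1 ≤ ∑ y ∈ nb x, cross ω n x y := by
  rw [h.conservation hv]; split_ifs <;> omega

theorem Ctx.sum_le (h : Ctx G nb D) {ω : ℕ → V} {n : ℕ} (hv : Valid G v ω n) (x : V) :
    ∑ y ∈ nb x, cross ω n x y ≤ 1 := by
  rw [h.conservation hv]; split_ifs <;> omega

theorem Ctx.mem_of_pos (h : Ctx G nb D) {ω : ℕ → V} {n : ℕ} (hv : Valid G v ω n) {x y : V}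
    (hp : 0 < cross ω n x y) : y ∈ nb x := by
  obtain ⟨k, hk, rfl, rfl⟩ := exists_step_of_pos hp
  exact (h.mem _ _).2 (hv.2 k hk)

/-- no positive edge at `x` forces all crossing numbers at `x` to be at least minus one -/
theorem Ctx.ge_neg_one (h : Ctx G nb D) {ω : ℕ → V} {n : ℕ} (hv : Valid G v ω n) {x : V}
    (hx : ∀ y, cross ω n x y ≤ 0) {y : V} (hy : y ∈ nb x) : -1 ≤ cross ω n x y := by
  classical
  have h1 := h.sum_ge hv x
  rw [← Finset.add_sum_erase _ _ hy] at h1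
  have h2 : ∑ z ∈ (nb x).erase y, cross ω n x z ≤ 0 := Finset.sum_nonpos fun z _ => hx z
  omega

theorem Ctx.trans_ge (h : Ctx G nb D) (hγ : 0 < γ) {ω : ℕ → V} {n : ℕ} (hv : Valid G v ω n)
    (hx : ∀ y, cross ω n (ω n) y ≤ 0) {y : V} (hy : G.Adj (ω n) y) :
    1 / (D : ℝ) ≤ trans G γ ω n y := by
  have hy' := (h.mem _ _).2 hy
  rw [h.trans_of_mem γ ω n hy', weight_eq_one γ (hx y) (h.ge_neg_one hv hx hy')]
  refine one_div_le_one_div_of_le (h.tot_pos γ ω n) ?_
  calc tot nb γ ω n ≤ ∑ _z ∈ nb (ω n), (1 : ℝ) :=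
        Finset.sum_le_sum fun z _ => weight_le_one hγ (hx z)
    _ ≤ D := by simpa using h.card (ω n)

variable [MeasurableSpace V] [DiscreteMeasurableSpace V] [Countable V]

theorem IsWalkLaw.step {μ : Measure (ℕ → V)} (h : IsWalkLaw G γ v μ) : Step (trans G γ) μ :=
  h.2.2

theorem Ctx.exists_law (h : Ctx G nb D) (γ : ℝ) (v : V) : ∃ μ, IsWalkLaw G γ v μ :=
  exists_step (trans G γ) (trans_congr G γ) (h.trans_nonneg γ) (fun ω n => nb (ω n))
    (fun ω n _ hx => h.trans_of_not_mem γ ω n hx) (h.trans_sum γ) v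

theorem IsWalkLaw.valid {μ : Measure (ℕ → V)} (hμ : IsWalkLaw G γ v μ) {ω : ℕ → V} {n : ℕ}
    (h0 : μ (cyl n ω) ≠ 0) : Valid G v ω n := by
  have := hμ.1
  constructor
  · by_contra hne
    refine h0 (measure_mono_null (t := {ω : ℕ → V | ω 0 = v}ᶜ) (fun z hz hz' => hne ?_) ?_)
    · exact (hz 0 (Nat.zero_le n)).symm.trans hz'
    · have hm : MeasurableSet {ω : ℕ → V | ω 0 = v} :=
        measurable_pi_apply (X := fun _ : ℕ => V) 0 (MeasurableSet.of_discrete (s := {v}))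
      exact (prob_compl_eq_zero_iff hm).2 hμ.2.1
  · intro k hk
    by_contra hne
    refine h0 (measure_mono_null (cyl_anti hk ω) ?_)
    rw [hμ.step]
    simp [trans, hne]

theorem IsWalkLaw.ae_valid {μ : Measure (ℕ → V)} (hμ : IsWalkLaw G γ v μ) :
    ∀ᵐ ω ∂μ, ∀ n, Valid G v ω n :=
  (ae_cyl_ne_zero μ).mono fun _ h n => hμ.valid (h n)

end Pool.Agent.MP_856411_pr
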